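import Pool.Agent.H65.ORD.Zcl
import Pool.Agent.H72.KE.Has

/-!
# The closed lower bound at the windows with a tie and a coordinate faster than the target

`ext_mono`: larger deficits. `kpW`: the rows near the windows. `has_KEW`: the closed lower bound on
the boxes with one contact coordinate and different slopes of the coordinates of the base.
`lFc_le`: the leaf `LFc n`, at most four coordinates.
-/

set_option autoImplicit false

namespace Pool.ORD65

open MeasureTheory Set Filter Topology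
open Pool.Agent.H49.Ent Pool.Agent.H32.Dense Pool.STK Pool.KA Pool.KSAT Pool.K2S Pool.PB
open Pool.GEN Pool.S6C Pool.STAT Pool.CHT Pool.GRW Pool.PKG Pool.STA
open Pool.OWN72 Pool.ASM
open Pool.TOP (TopS)
open Pool.STR (NumI NfB Rle)
open Pool.FRX (FZQ FTQ fzq_of ftq_of_ext)
open Pool.ONE (Ext FullE Ext0)
open Pool.EXC33 (SizE SupE ExwB)
open Pool.STAT.CLO

/-- Larger deficits. -/
theorem ext_mono {n : ℕ} {x x' : ℝ} (h : Ext n x) (hx : x ≤ x') : Ext n x' := by
  intro hn al g₀ s d hal hg₀ hs e K₀ N S he hC P r hP hr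
  filter_upwards [h hn al g₀ s d hal hg₀ hs e K₀ N S he hC P r hP hr] with Q hQ h1 h2 h3 h4
  linarith [hQ h1 h2 h3 h4]

variable {n : ℕ} {hn : 2 ≤ n} {S : PCl n} {P : ℝ → ℝ → ℝ} {rr : ℝ → ℝ}
  {P' : ℕ → List (Fin n) × Fin n → ℝ → ℝ → ℝ} {Λ : Finset (Fin n) → Fin n → ℝ → ℝ → ℝ}
  {PB : ℕ → List (Fin n) × Fin n → ℝ → ℝ → ℝ}
  (H : PkT hn S P rr P' Λ PB) {hTop : TopS n} {hF : FZX (n - 1)} {ρ' : ℝ → ℝ} {hρ : Rle rr ρ'}

/-- **The rows near the windows.** -/
noncomputable def kpW (H : PkT hn S P rr P' Λ PB) (hTop : TopS n) (hF : FZX (n - 1))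
    (hρ : Rle rr ρ') (h : ℝ) : NumI.KndP ((H.nk hTop hF).chg hρ H.up) Unit where
  A _ _ _ _ := True
  Φ _ _ g r d := NfB rr h d (P g g - r) (P g g + 3 * r)
  mono hd h := nfB_mono h le_rfl hd le_rfl le_rfl

theorem kpW_cov (h : ℝ) (X : Od n → ℝ → Prop) : CovK (kpW H hTop hF hρ h) h X := fun _ =>
  Eventually.of_forall fun _ _ hrow _ => ⟨(), 1, one_pos, fun _ _ _ => trivial, hrow⟩

/-- **The closed lower bound on the boxes of the kind**, at most four coordinates. -/
theorem has_KEW (hn4 : n ≤ 4) (hFk : ∀ k, 1 ≤ k → k < n → FZX k) {h : ℝ} (hh : 0 < h)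
    (hh1 : h ≤ 1) {x : ℝ} (hx : 0 ≤ x) (hq : FZQ n x) :
    HasK H ((KE H hTop hF hρ).and (kpW H hTop hF hρ h)) fun _ p I => NfcI H p x I := by
  intro p hp κ kd y' y c β h' M hc hβ hK
  have hI : MonoI (IsK p.cell kd c β h' M y') := isK_mono p.cell kd c β h' M y'
  have hbs : ∀ ε q, IsK p.cell kd c β h' M y' ε q → IsBS p.cell c β h' M ε q :=
    isK_sub p.cell kd c β h' M y'
  have hKE : OnK H (KE H hTop hF hρ) p y.1 c (IsK p.cell kd c β h' M y') :=
    ⟨fun ε q hq => (hK.A ε q hq).1, fun ε' hε' => (hK.Φ ε' hε').mono fun _ h => h.1⟩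
  have hrow : ∀ ε' : ℝ, 0 < ε' → EvP (IsK p.cell kd c β h' M y') fun q =>
      NfB rr h (ε' * q.r) (P q.g q.g - q.r) (P q.g q.g + 3 * q.r) :=
    fun ε' hε' => (hK.Φ ε' hε').mono fun _ h => h.2
  have en : n - 1 + 1 = n := by omega
  by_cases hne : ∃ (ε : ℝ) (q : BS p.cell), IsK p.cell kd c β h' M y' ε q
  · obtain ⟨ε₁, q₁, hq₁⟩ := hne
    have hA : EA hn S P P' c (show Od n from q₁.k.2) q₁.g := hKE.A _ _ hq₁
    have hc1 : c ≤ 1 := by
      have h1 := hA.cg
      have h2 := hA.g1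
      linarith
    obtain ⟨al, g₀, hal, hg₀, hE⟩ := supE_KE H hn4 hp hI hc hbs hKE
    have hX := exwB_den H hI hc hbs (den_KE H hI hbs hKE)
    refine nfcI_supE H hn4 hI hbs hc hβ hp (fun k hk => ?_) hal hg₀ (by positivity)
      (by linarith) (by positivity) hE hX hh hh1 hrow hx (by rw [en]; exact hq)
    rcases Nat.eq_zero_or_pos k with rfl | hk0
    · exact fzx_zero
    · exact hFk k hk0 (by omega)
  · exact fun K K' s₁ sh _ _ => ⟨0, fun C₁ _ M' => ⟨0, fun N _ => ⟨1, one_pos, fun θ _ _ =>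
      ⟨1, one_pos, fun q hq => (hne ⟨1, q, hq⟩).elim⟩⟩⟩⟩

/-- **The closed lower bound at the windows with one contact coordinate and different slopes** of
the coordinates of the base, at most four coordinates. -/
theorem fcB_KE (hTop : TopS n) (hF : FZX (n - 1)) (hρ : Rle rr ρ') (hn4 : n ≤ 4)
    (hFk : ∀ k, 1 ≤ k → k < n → FZX k) {h : ℝ} (hh : 0 < h) (hh1 : h ≤ 1) {x : ℝ} (hx : 0 ≤ x)
    (hq : FZQ n x) : FcB H hTop hF hρ h x fun o g =>
      OneC n (slo H hTop hF o g) (deriv (fun a => P a a) g) ∧ DiffS hn P P' o g :=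
  ⟨Unit × Unit, inferInstance, (KE H hTop hF hρ).and (kpW H hTop hF hρ h),
    has_KEW H hn4 hFk hh hh1 hx hq,
    ((ke_cov H hTop hF hρ h).and (kpW_cov H h fun _ _ => True)).mono fun _ =>
      Eventually.of_forall fun _ _ hX => ⟨hX, trivial⟩⟩

/-- At a tie with a faster coordinate the slopes of the coordinates of the base are different. -/
theorem fast_diffS (hn4 : n ≤ 4) (H : PkT hn S P rr P' Λ PB) (hTop : TopS n)
    (hF : FZX (n - 1)) (o : Od n) :
    ∀ᵐ g : ℝ, g ∈ Gs P rr P' Λ o → TieT hn P P' PB o g →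
      ¬ TopA n (slo H hTop hF o g) (deriv (fun a => P a a) g) → DiffS hn P P' o g := by
  filter_upwards [one_zero H hTop hF o] with g k0 hg hX hX2 a b h1 h2 h3
  have hone := hX.one
  rw [slN_tar] at hone
  obtain ⟨l, l1, l2, l3⟩ := hX.tie
  rw [slN_tar] at l3
  have h6 : ∃ j : Fin (n - 1), deriv (fun a => P a a) g < slo H hTop hF o g j := by
    by_contra hcon
    push Not at hcon
    exact hX2 ⟨hone, hcon⟩
  obtain ⟨j, hj⟩ := h6
  have hj0 : 1 ≤ (j : ℕ) := by
    rcases Nat.eq_zero_or_pos (j : ℕ) with h7 | h7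
    · exfalso
      rw [slo_slN, h7, slN_lvl o (by omega), k0 hg] at hj
      linarith
    · exact h7
  rw [slo_slN] at hj
  have hjl : (j : ℕ) ≠ l := fun h7 => by
    rw [h7, l3] at hj
    exact lt_irrefl _ hj
  have hj2 := j.2
  have h8 : (a = j ∧ b = l) ∨ (a = l ∧ b = j) := by omega
  rcases h8 with ⟨rfl, rfl⟩ | ⟨rfl, rfl⟩
  · rw [l3]
    exact hj.ne'
  · rw [l3]
    exact hj.ne

/-- **The closed lower bound at the windows with a tie and a coordinate faster than the target**,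
at most four coordinates. -/
theorem lFc_le {n : ℕ} (hn4 : n ≤ 4) : LFc n := fun _ =>
  (Tol.le (1 / 2) (by norm_num)).mono fun η hη => by
  intro hn hZ hF hTop D hD hD1 hEx
  have e1 := hη D hD
  have hh : 0 < (1 - η D) * D := mul_pos (by linarith) hD
  have hh1 : (1 - η D) * D ≤ 1 := by nlinarith
  refine ⟨(1 + η D) * D + 1, by linarith, fun x hx _ S P r P' Λ PB H => ?_⟩
  have hx0 : 0 ≤ x := by
    have : 0 < (1 + η D) * D := mul_pos (by linarith) hD
    linarith
  have hq : FZQ n x := fzq_of (ftq_of_ext hn hZ hx0 (ext_mono hEx hx.le))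
  refine (fcB_KE H hTop hF (H.rle _) hn4 hZ hh hh1 hx0 hq).mono fun o => ?_
  filter_upwards [fast_one hn4 H hTop hF o, fast_diffS hn4 H hTop hF o] with g h1 h2 R hX
  exact ⟨h1 R.mem hX.1 hX.2, h2 R.mem hX.1 hX.2⟩

/-- **`LFc 4`.** -/
theorem lFc_four : LFc 4 := lFc_le le_rfl

end Pool.ORD65
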