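import Pool.Agent.H99.GEN.GrC
import Pool.Agent.H45.EXA.Dwn

/-!
# Closed labels with small gradients at the points

`LbS`: closed labels without velocities, with gradients at most `2 ^ e` at the points themselves.
`rz_fam`: if the coordinates are full in the cells of side `2 ^ (-u)`, the gradient is small on the
balls of radius `2 ^ (-u)`. `rz_cls`: closed labels (`LbOK`) from `LbS`, in a class.
-/

set_option autoImplicit false

namespace Pool.ORD65

open Finset Real MvPolynomial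
open Pool.Agent.H49.Ent Pool.Agent.H32.Dense Pool.STK Pool.KA Pool.KSAT Pool.K2S Pool.PB Pool.GEN
open Pool.S6C Pool.GRD
open Pool.FLF (Fam.sub)
open Pool.UNJ (ceI Tub)
open Pool.BFL (Pb)

variable {m J : ℕ}

/-- **Closed labels with small gradients at the points.** -/
structure LbS (F : Fam m J) (I : Finset (Fin m)) (k : Fin m) (K e r w P : ℕ) (A : F.Ω → Prop)
    {V : Type} (z : PtT F → V) (z' : LnT F → V) (G : V → MvPolynomial (Option (Fin m)) ℝ) :
    Prop where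
  lbp : LbP F I k K r w P A z z' G
  lip : ∀ ω, A ω → ∀ o, |eval (bt F ω) (pderiv o (G (z' (slam F w ω))))| ≤ 2 ^ e

theorem LbS.of {F : Fam m J} {I : Finset (Fin m)} {k : Fin m} {K e r w ρ P : ℕ}
    {A : F.Ω → Prop} {V : Type} {z : PtT F → V} {z' : LnT F → V}
    {G : V → MvPolynomial (Option (Fin m)) ℝ} (h : LbOK F I k K e r w ρ P A z z' G) :
    LbS F I k K e r w P A z z' G :=
  ⟨LbP.of h, fun ω hω o => h.lip ω hω _ (fun o' => by rw [sub_self, abs_zero]; positivity) o⟩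

theorem LbS.sub {F : Fam m J} {I : Finset (Fin m)} {k : Fin m} {K e r w P : ℕ}
    {A B : F.Ω → Prop} {V : Type} {z : PtT F → V} {z' : LnT F → V}
    {G : V → MvPolynomial (Option (Fin m)) ℝ} (h : LbS F I k K e r w P A z z' G)
    (hB : Sub B A) : LbS F I k K e r w P B z z' G :=
  ⟨h.lbp.sub hB, fun ω hω => h.lip ω (hB ω hω)⟩

theorem LbS.mono {F : Fam m J} {I I' : Finset (Fin m)} {k : Fin m} {K K' e e' r w P P' : ℕ}
    {A : F.Ω → Prop} {V : Type} {z : PtT F → V} {z' : LnT F → V}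
    {G : V → MvPolynomial (Option (Fin m)) ℝ} (h : LbS F I k K e r w P A z z' G)
    (hI : I ⊆ I') (hK : K ≤ K') (he : e ≤ e') (hP : P' ≤ P) :
    LbS F I' k K' e' r w P' A z z' G :=
  ⟨h.lbp.mono hI hK hP, fun ω hω o => (h.lip ω hω o).trans (pow_le_pow_right₀ (by norm_num) he)⟩

/-- The derivatives depend on the same coordinates. -/
theorem dep_pderiv {I : Finset (Fin m)} {G : MvPolynomial (Option (Fin m)) ℝ}
    (h : ∀ b b' : Option (Fin m) → ℝ, b none = b' none → (∀ i ∈ I, b (some i) = b' (some i)) →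
      eval b G = eval b' G) (o : Option (Fin m)) (b b' : Option (Fin m) → ℝ)
    (h0 : b none = b' none) (hb : ∀ i ∈ I, b (some i) = b' (some i)) :
    eval b (pderiv o G) = eval b' (pderiv o G) :=
  dep_pd G (fun o => o = none ∨ ∃ i ∈ I, o = some i)
    (fun b b' h' => h b b' (h' none (Or.inl rfl)) fun i hi => h' (some i) (Or.inr ⟨i, hi, rfl⟩))
    o b b' (by
      rintro o (rfl | ⟨i, hi, rfl⟩)
      · exact h0
      · exact hb i hi)

theorem Pb_union {Ω ι : Type} [Fintype Ω] [Fintype ι] {p : Ω → ℝ} (hp : ∀ ω, 0 ≤ p ω)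
    {B : Ω → Prop} {N : ι → Ω → Prop} (h : ∀ ω, B ω → ∃ i, N i ω) :
    Pb p B ≤ ∑ i, Pb p (N i) := by
  classical
  unfold Pb
  rw [Finset.sum_comm]
  refine Finset.sum_le_sum fun ω _ => ?_
  have h0 : ∀ i, 0 ≤ (if N i ω then p ω else 0) := fun i => by
    split_ifs
    · exact hp ω
    · exact le_rfl
  by_cases hB : B ω
  · obtain ⟨i, hi⟩ := h ω hB
    rw [if_pos hB]
    calc p ω = if N i ω then p ω else 0 := (if_pos hi).symm
      _ ≤ _ := Finset.single_le_sum (f := fun i => if N i ω then p ω else 0)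
        (fun i _ => h0 i) (Finset.mem_univ i)
  · rw [if_neg hB]
    exact Finset.sum_nonneg fun i _ => h0 i

/-- **Gradients** on the balls, from the gradients at the points. -/
theorem rz_fam (m K : ℕ) : ∃ C : ℝ, 1 ≤ C ∧
    ∀ (J : ℕ) (F : Fam m J) (q : F.Ω → ℝ) (I : Finset (Fin m)) (k : Fin m) (w u X : ℕ)
      (A : F.Ω → Prop) (r₁ P₁ e₁ : ℕ) (V₁ : Type)
      (z₁ : PtT F → V₁) (z₁' : LnT F → V₁) (G₁ : V₁ → MvPolynomial (Option (Fin m)) ℝ)
      (θ e η : ℝ), IsLaw q → (∀ ω, 0 < q ω → A ω) →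
      (J : ℝ) * Real.log 2 - e ≤ CH q F.T (fun ω => (F.l ω, F.Z ω)) → w + X ≤ J →
      LbS F I k K e₁ r₁ w P₁ A z₁ z₁' G₁ →
      w ≤ u → 0 ≤ θ → 0 ≤ e → 0 < η → η ≤ 1 →
      I.card * (X * Real.log 2) - θ ≤ CH q (fun ω => ceI I (fun _ => u + X) (F.x ω))
        (fun ω => (ceI I (fun _ => u) (F.x ω), z₁' (slam F w ω), F.W ω)) →
      C * (θ + e + 1) / η ≤ X * Real.log 2 →
      Pb q (fun ω => ¬ ∀ b : Option (Fin m) → ℝ, (∀ o, |b o - bt F ω o| ≤ 1 / 2 ^ u) → ∀ o,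
        |eval b (pderiv o (G₁ (z₁' (slam F w ω))))| ≤
          Real.exp (C * (θ + e + 1) / η) * 2 ^ e₁) ≤ η := by
  classical
  obtain ⟨C₁, hC₁, hU⟩ := Pool.UNJ.uni_dep m K 4 (by norm_num)
  refine ⟨(m + 1) * C₁, by nlinarith [(Nat.cast_nonneg m : (0 : ℝ) ≤ m)], ?_⟩
  intro J F q I k w u X A r₁ P₁ e₁ V₁ z₁ z₁' G₁ θ e η hq hA he hwX h₁ hwu hθ he0 hη hη1 hV hX
  have h0 := hq.nonneg
  have hm : (0 : ℝ) < (m : ℝ) + 1 := by positivity
  obtain ⟨η', hη'⟩ : ∃ η' : ℝ, η' = η / (m + 1) := ⟨_, rfl⟩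
  have hη'0 : 0 < η' := by rw [hη']; positivity
  have hη'1 : η' ≤ 1 := by
    rw [hη', div_le_one hm]
    linarith [(Nat.cast_nonneg m : (0 : ℝ) ≤ m)]
  have ey : C₁ * (θ + e + 1) / η' = (m + 1) * C₁ * (θ + e + 1) / η := by
    rw [hη']
    field_simp
  have key : ∀ o : Option (Fin m), Pb q (fun ω => ¬ ∀ b, Tub F I (fun _ => u) w 4 ω b →
      |eval b (pderiv o (G₁ (z₁' (slam F w ω))))| ≤
        Real.exp (C₁ * (θ + e + 1) / η') * 2 ^ e₁) ≤ η' := by
    intro o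
    refine hU J F q I (fun _ => u) w X V₁ (fun ω => z₁' (slam F w ω))
      (fun x => pderiv o (G₁ x)) A (fun _ => 2 ^ e₁) θ e η' hq he hwX
      (fun ω ω' _ _ h => by simp only [h])
      (fun x => totalDegree_pdσ (h₁.lbp.deg _) o)
      (fun x b b' hb hb' => dep_pderiv (h₁.lbp.dep x) o b b' hb hb') hθ he0 hη'0 hη'1
      (fun _ => by positivity) hV ?_ ?_ ?_
    · have h1 : Pb q (fun ω => ¬ A ω) = 0 := by
        unfold Pb
        refine Finset.sum_eq_zero fun ω _ => ?_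
        by_cases hω : A ω
        · rw [if_neg (not_not.2 hω)]
        · rw [if_pos hω]
          by_contra hne
          exact hω (hA ω (lt_of_le_of_ne (h0 ω) (Ne.symm hne)))
      rw [h1]
      positivity
    · rw [ey]
      exact hX
    · intro ω hω
      exact h₁.lip ω hω o
  have hsum : Pb q (fun ω => ¬ ∀ b : Option (Fin m) → ℝ, (∀ o, |b o - bt F ω o| ≤ 1 / 2 ^ u) →
      ∀ o, |eval b (pderiv o (G₁ (z₁' (slam F w ω))))| ≤
          Real.exp ((m + 1) * C₁ * (θ + e + 1) / η) * 2 ^ e₁) ≤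
      ∑ o : Option (Fin m), Pb q (fun ω => ¬ ∀ b, Tub F I (fun _ => u) w 4 ω b →
      |eval b (pderiv o (G₁ (z₁' (slam F w ω))))| ≤
        Real.exp (C₁ * (θ + e + 1) / η') * 2 ^ e₁) := by
    refine Pb_union h0 fun ω hω => ?_
    push Not at hω
    obtain ⟨b, hb, o, ho⟩ := hω
    refine ⟨o, fun hcon => ?_⟩
    have h2 := hcon b (by
      have hwu' : (1 : ℝ) / 2 ^ u ≤ 1 / 2 ^ w := inv_mono hwu
      refine ⟨?_, fun i _ => ?_⟩
      · have e1 := hb none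
        have e2 : bt F ω none = F.t ω := rfl
        rw [e2] at e1
        have e3 : (4 : ℝ) / 2 ^ w = 4 * (1 / 2 ^ w) := by ring
        have e4 : (0 : ℝ) < 1 / 2 ^ w := by positivity
        rw [e3]
        linarith
      · have e1 := hb none
        have e2 := hb (some i)
        have e3 : bt F ω none = F.t ω := rfl
        have e4 : bt F ω (some i) = F.u ω i + F.t ω * F.d ω i := rfl
        rw [e3] at e1
        rw [e4] at e2
        have e5 := F.dir ω i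
        have e6 : |(b none - F.t ω) * F.d ω i| ≤ 1 / 2 ^ u := by
          rw [abs_mul]
          exact (mul_le_of_le_one_right (abs_nonneg _) e5).trans e1
        have e7 : b (some i) - (F.u ω i + b none * F.d ω i) =
            (b (some i) - (F.u ω i + F.t ω * F.d ω i)) - (b none - F.t ω) * F.d ω i := by ring
        rw [e7]
        refine (abs_sub _ _).trans ?_
        have e8 : (4 : ℝ) / 2 ^ u = 4 * (1 / 2 ^ u) := by ring
        have e9 : (0 : ℝ) < 1 / 2 ^ u := by positivity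
        show _ ≤ (4 : ℝ) / 2 ^ u
        rw [e8]
        linarith)
    rw [ey] at h2
    exact absurd h2 (not_le.2 ho)
  refine hsum.trans ((Finset.sum_le_sum fun o _ => key o).trans (le_of_eq ?_))
  rw [Finset.sum_const, Finset.card_univ, Fintype.card_option, Fintype.card_fin, nsmul_eq_mul, hη']
  push_cast
  field_simp

/-- **Closed labels from labels with small gradients at the points**, if the coordinates are full
below the cells of side `2 ^ (-u)`, given the label. -/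
theorem rz_one (m K : ℕ) : ∃ C : ℝ, 1 ≤ C ∧
    ∀ (J : ℕ) (F : Fam m J) (A : F.Ω → Prop) (hA : 0 < Pe F.p A) (I : Finset (Fin m))
      (k : Fin m) (w u : ℕ) (r₁ P₁ P' e' e₁ c : ℕ) (V₁ : Type)
      (z₁ : PtT F → V₁) (z₁' : LnT F → V₁) (G₁ : V₁ → MvPolynomial (Option (Fin m)) ℝ)
      (θ t : ℝ), w ≤ u → u ≤ J → 0 ≤ θ → 0 ≤ t → (Fam.sub F A hA).Tm t →
      LbS F I k K e₁ r₁ w P₁ A z₁ z₁' G₁ →
      I.card * (((J - u : ℕ) : ℝ) * Real.log 2) - θ ≤
        CH (Pool.Agent.H49.Ent.cond F.p A True) (fun ω => ceI I (fun _ => J) (F.x ω))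
        (fun ω => (ceI I (fun _ => u) (F.x ω), z₁' (slam F w ω), F.W ω)) →
      C * (θ + t + 1) ≤ ((J - u : ℕ) : ℝ) * Real.log 2 →
      Real.exp (C * (θ + t + 1)) ≤ 2 ^ c → P' + c ≤ P₁ → e₁ + c ≤ e' →
      ∃ B : F.Ω → Prop, Sub B A ∧ Pe F.p A / 4 ≤ Pe F.p B ∧
        LbOK F I k K e' r₁ w u P' B z₁ z₁' G₁ := by
  classical
  obtain ⟨C₁, hC₁, hvel⟩ := vel_one m K
  obtain ⟨C₂, hC₂, hgr⟩ := rz_fam m K
  refine ⟨C₁ + 4 * C₂, by linarith, ?_⟩
  intro J F A hA I k w u r₁ P₁ P' e' e₁ c V₁ z₁ z₁' G₁ θ t hwu huJ hθ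
    ht hTm h₁ hV hX hc hP' he'
  have hq := isLaw_cond F.isLaw hA
  have hJu : ((J - u : ℕ) : ℝ) = (J : ℝ) - u := by
    rw [Nat.cast_sub huJ]
  have hl2 : 0 < Real.log 2 := Real.log_pos one_lt_two
  have hy0 : 0 ≤ θ + t + 1 := by linarith
  -- the velocities
  obtain ⟨B₁, hB₁A, hPB₁, hB₁⟩ := hvel J F A hA w (fun s => G₁ (z₁' s)) k (1 / 2 ^ P₁) t
    (hwu.trans huJ) (fun s => h₁.lbp.deg _) (by positivity) ht hTm (by
      have e1 : C₁ * (t + 1) ≤ (C₁ + 4 * C₂) * (θ + t + 1) := by nlinarith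
      refine (e1.trans hX).trans ?_
      refine mul_le_mul_of_nonneg_right ?_ hl2.le
      rw [hJu]
      have : (w : ℝ) ≤ u := by exact_mod_cast hwu
      linarith) h₁.lbp.pos
  -- the gradients
  have hgr' := hgr J F (Pool.Agent.H49.Ent.cond F.p A True) I k w u (J - u) A r₁ P₁ e₁
    V₁ z₁ z₁' G₁ θ t (1 / 4) hq
    (fun ω hω => by
      have := ((cond_pos_iff F.isLaw.nonneg A True ω).1 hω).2
      exact of_eq_true this)
    (by
      have h5 : CH (Fam.sub F A hA).p (Fam.sub F A hA).T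
        (fun ω => ((Fam.sub F A hA).l ω, (Fam.sub F A hA).Z ω)) =
        CH (Pool.Agent.H49.Ent.cond F.p A True) F.T (fun ω => (F.l ω, F.Z ω)) :=
        Pool.FLF.sub_CH F.T (fun ω => (F.l ω, F.Z ω))
      have h6 := hTm
      unfold Fam.Tm at h6
      rw [h5] at h6
      exact h6)
    (by omega) h₁ hwu hθ ht (by norm_num) (by norm_num)
    (by rw [Nat.add_sub_of_le huJ]; exact hV)
    (by
      refine le_trans ?_ hX
      have e1 : C₂ * (θ + t + 1) / (1 / 4) = 4 * C₂ * (θ + t + 1) := by ring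
      rw [e1]
      exact mul_le_mul_of_nonneg_right (by linarith) hy0)
  obtain ⟨N, hN⟩ : ∃ N : F.Ω → Prop, N = fun ω => ¬ ∀ b : Option (Fin m) → ℝ,
      (∀ o, |b o - bt F ω o| ≤ 1 / 2 ^ u) → ∀ o,
        |eval b (pderiv o (G₁ (z₁' (slam F w ω))))| ≤
          Real.exp (C₂ * (θ + t + 1) / (1 / 4)) * 2 ^ e₁ := ⟨_, rfl⟩
  rw [← hN, show Pb (Pool.Agent.H49.Ent.cond F.p A True) N =
    Pe (Pool.Agent.H49.Ent.cond F.p A True) N by rw [Pe_eq]; rfl, Pe_cond,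
    div_le_iff₀ hA] at hgr'
  have hexp : Real.exp (C₂ * (θ + t + 1) / (1 / 4)) ≤ 2 ^ c := by
    refine le_trans (Real.exp_le_exp.2 ?_) hc
    have e1 : C₂ * (θ + t + 1) / (1 / 4) = 4 * C₂ * (θ + t + 1) := by ring
    rw [e1]
    exact mul_le_mul_of_nonneg_right (by linarith) hy0
  have hexp1 : Real.exp (C₁ * (t + 1)) ≤ 2 ^ c := by
    refine le_trans (Real.exp_le_exp.2 ?_) hc
    nlinarith
  refine ⟨fun ω => B₁ ω ∧ ¬ N ω, fun ω hω => hB₁A ω hω.1, ?_, h₁.lbp.deg, h₁.lbp.dep,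
    fun ω hω => h₁.lbp.cls ω (hB₁A ω hω.1), fun ω hω => ?_, fun ω hω => ?_, fun ω hω b hb o => ?_⟩
  · have h3 := Pe_minus (A := A) (B := B₁) (N := N) F.isLaw.nonneg hB₁A
    linarith
  · exact (h₁.lbp.pos ω (hB₁A ω hω.1)).trans (inv_mono (by omega))
  · refine (hB₁ ω hω.1).trans ?_
    have e1 : Real.exp (C₁ * (t + 1)) * 2 ^ w * (1 / 2 ^ P₁) ≤ 2 ^ c * 2 ^ w * (1 / 2 ^ P₁) :=
      mul_le_mul_of_nonneg_right (mul_le_mul_of_nonneg_right hexp1 (by positivity))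
        (by positivity)
    refine e1.trans ?_
    have e2 : (2 : ℝ) ^ c * 2 ^ w * (1 / 2 ^ P₁) = 2 ^ w * (2 ^ c / 2 ^ P₁) := by ring
    have e3 : (2 : ℝ) ^ w / 2 ^ P' = 2 ^ w * (1 / 2 ^ P') := by ring
    rw [e2, e3]
    refine mul_le_mul_of_nonneg_left ?_ (by positivity)
    rw [div_le_div_iff₀ (by positivity) (by positivity), one_mul, ← pow_add]
    exact pow_le_pow_right₀ (by norm_num) (by omega)
  · have h3 := hω.2
    rw [hN] at h3
    have h4 := not_not.1 h3 b hb o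
    refine h4.trans ?_
    calc Real.exp (C₂ * (θ + t + 1) / (1 / 4)) * 2 ^ e₁ ≤ 2 ^ c * 2 ^ e₁ :=
          mul_le_mul_of_nonneg_right hexp (by positivity)
      _ = 2 ^ (e₁ + c) := by rw [pow_add, mul_comm]
      _ ≤ 2 ^ e' := pow_le_pow_right₀ (by norm_num) he'

/-- **Closed labels from labels with small gradients at the points, in a class.** `full`: the
coordinates in `I` are full below the cells of side `2 ^ (-u J)`, given every closed function at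
the window `w`, up to every error. -/
theorem rz_cls {S : PCl m} {C₀ : ℝ} (hC₀ : 0 ≤ C₀)
    (hpos : ∀ (τ : ℝ) (J : ℕ) (F : Fam m J) (A : F.Ω → Prop), S.St τ J F A → 0 < Pe F.p A)
    (htm : ∀ (τ : ℝ) (J : ℕ) (F : Fam m J) (A : F.Ω → Prop) (hA : 0 < Pe F.p A), 0 ≤ τ →
      S.St τ J F A → (Fam.sub F A hA).Tm (C₀ * τ * J))
    (I : Finset (Fin m)) (k : Fin m) {w u : ℝ} (hwu : w ≤ u) (hu0 : 0 ≤ u) (hu : u < 1)
    (full : ∀ ρ : ℝ, 0 < ρ → Bas S (fun J F A => ∀ (V : Type) (z : PtT F → V) (z' : LnT F → V),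
      (∀ ω, A ω → z (ptr F J ω) = z' (slam F ⌊w * J⌋₊ ω)) →
      I.card * (((J - ⌊u * J⌋₊ : ℕ) : ℝ) * Real.log 2) - ρ * J ≤
        CH (Pool.Agent.H49.Ent.cond F.p A True) (fun ω => ceI I (fun _ => J) (F.x ω))
          (fun ω => (ceI I (fun _ => ⌊u * J⌋₊) (F.x ω), z' (slam F ⌊w * J⌋₊ ω), F.W ω))))
    (K : ℕ) {h : ℝ} (hh : 0 < h) :
    Bas S (fun J F A => ∀ (P₁ P' e' e₁ : ℕ) (V₁ : Type)
      (z₁ : PtT F → V₁) (z₁' : LnT F → V₁) (G₁ : V₁ → MvPolynomial (Option (Fin m)) ℝ),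
      LbS F I k K e₁ J ⌊w * J⌋₊ P₁ A z₁ z₁' G₁ → (P' : ℝ) + h * J ≤ P₁ → e₁ + h * J ≤ e' →
      ∃ B : F.Ω → Prop, Sub B A ∧ Pe F.p A / 4 ≤ Pe F.p B ∧
        LbOK F I k K e' J ⌊w * J⌋₊ ⌊u * J⌋₊ P' B z₁ z₁' G₁) := by
  classical
  obtain ⟨C, hC, hlb⟩ := rz_one m K
  have hl2 : 0 < Real.log 2 := Real.log_pos one_lt_two
  obtain ⟨δ, hδ⟩ : ∃ δ : ℝ, δ = min (h * Real.log 2 / (4 * C)) ((1 - u) * Real.log 2 / C) :=
    ⟨_, rfl⟩
  have hC0 : 0 < C := by linarith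
  have hδ0 : 0 < δ := by
    rw [hδ]
    refine lt_min (by positivity) (div_pos (mul_pos (by linarith) hl2) hC0)
  have hδ1 : C * δ ≤ h / 4 * Real.log 2 := by
    have e1 : δ ≤ h * Real.log 2 / (4 * C) := by
      rw [hδ]
      exact min_le_left _ _
    have e2 : C * (h * Real.log 2 / (4 * C)) = h / 4 * Real.log 2 := by
      field_simp
    rw [← e2]
    exact mul_le_mul_of_nonneg_left e1 hC0.le
  have hδ2 : C * δ ≤ (1 - u) * Real.log 2 := by
    have e1 : δ ≤ (1 - u) * Real.log 2 / C := by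
      rw [hδ]
      exact min_le_right _ _
    have e2 : C * ((1 - u) * Real.log 2 / C) = (1 - u) * Real.log 2 := by
      field_simp
    rw [← e2]
    exact mul_le_mul_of_nonneg_left e1 hC0.le
  obtain ⟨τ₁, hτ₁, J₁, hF⟩ := full (δ / 3) (by linarith)
  obtain ⟨τ, hτ⟩ : ∃ τ : ℝ, τ = min τ₁ (δ / (3 * (C₀ + 1))) := ⟨_, rfl⟩
  have hτ0 : 0 < τ := by
    rw [hτ]
    exact lt_min hτ₁ (by positivity)
  have hτ2 : C₀ * τ ≤ δ / 3 := by
    have e1 : τ ≤ δ / (3 * (C₀ + 1)) := by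
      rw [hτ]
      exact min_le_right _ _
    have e2 : (C₀ + 1) * (δ / (3 * (C₀ + 1))) = δ / 3 := by
      field_simp
    have e3 : (C₀ + 1) * τ ≤ (C₀ + 1) * (δ / (3 * (C₀ + 1))) :=
      mul_le_mul_of_nonneg_left e1 (by linarith)
    rw [e2] at e3
    linarith
  obtain ⟨J₂, hJ₂⟩ := exists_nat_ge (3 / δ + 4 / h)
  refine ⟨τ, hτ0, max J₁ J₂, ?_⟩
  intro J hJ F A hA P₁ P' e' e₁ V₁ z₁ z₁' G₁ h₁ hP' he'
  have hJ1 : J₁ ≤ J := (le_max_left _ _).trans hJ
  have hJ2 : (J₂ : ℝ) ≤ J := by exact_mod_cast (le_max_right _ _).trans hJ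
  have hJ0 : (0 : ℝ) ≤ J := Nat.cast_nonneg J
  have f1 : 1 ≤ δ / 3 * J := by
    have e1 : 3 / δ ≤ J := by
      have : 0 < 4 / h := by positivity
      linarith
    rw [div_le_iff₀ hδ0] at e1
    linarith
  have f2 : 4 ≤ h * J := by
    have e1 : 4 / h ≤ J := by
      have : 0 < 3 / δ := by positivity
      linarith
    rw [div_le_iff₀ hh] at e1
    linarith
  have hpA := hpos τ J F A hA
  have hTm := htm τ J F A hpA hτ0.le hA
  obtain ⟨y, hy⟩ : ∃ y : ℝ, y = C * (δ / 3 * J + C₀ * τ * J + 1) := ⟨_, rfl⟩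
  have hy0 : 0 ≤ y := by
    rw [hy]
    positivity
  have hy1 : y ≤ C * δ * J := by
    rw [hy]
    have e1 : C₀ * τ * J ≤ δ / 3 * J := mul_le_mul_of_nonneg_right hτ2 hJ0
    have e2 : δ / 3 * J + C₀ * τ * J + 1 ≤ δ * J := by linarith
    calc C * (δ / 3 * J + C₀ * τ * J + 1) ≤ C * (δ * J) := mul_le_mul_of_nonneg_left e2 hC0.le
      _ = C * δ * J := by ring
  obtain ⟨c, hc⟩ : ∃ c : ℕ, c = ⌈y / Real.log 2⌉₊ := ⟨_, rfl⟩
  have hc1 : Real.exp y ≤ 2 ^ c := by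
    have e1 : y / Real.log 2 ≤ c := by
      rw [hc]
      exact Nat.le_ceil _
    rw [div_le_iff₀ hl2] at e1
    have e2 : (2 : ℝ) ^ c = Real.exp (c * Real.log 2) := by
      rw [mul_comm, Real.exp_mul, Real.exp_log (by norm_num), Real.rpow_natCast]
    rw [e2]
    exact Real.exp_le_exp.2 e1
  have hc2 : (c : ℝ) ≤ h / 4 * J + 1 := by
    have e1 : (c : ℝ) < y / Real.log 2 + 1 := by
      rw [hc]
      exact Nat.ceil_lt_add_one (div_nonneg hy0 hl2.le)
    have e2 : y / Real.log 2 ≤ h / 4 * J := by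
      rw [div_le_iff₀ hl2]
      calc y ≤ C * δ * J := hy1
        _ ≤ h / 4 * Real.log 2 * J := mul_le_mul_of_nonneg_right hδ1 hJ0
        _ = h / 4 * J * Real.log 2 := by ring
    linarith
  have huJ : ⌊u * J⌋₊ ≤ J := by
    refine Nat.floor_le_of_le ?_
    calc u * J ≤ 1 * J := mul_le_mul_of_nonneg_right hu.le hJ0
      _ = J := one_mul _
  have huf : ((⌊u * J⌋₊ : ℕ) : ℝ) ≤ u * J := Nat.floor_le (by positivity)
  refine hlb J F A hpA I k ⌊w * J⌋₊ ⌊u * J⌋₊ J P₁ P' e' e₁ c V₁ z₁ z₁' G₁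
    (δ / 3 * J) (C₀ * τ * J) (Nat.floor_le_floor (mul_le_mul_of_nonneg_right hwu hJ0)) huJ
    (by positivity) (by positivity) hTm h₁ ?_ ?_ ?_ ?_ ?_
  · exact hF J hJ1 F A (S.mono (by rw [hτ]; exact min_le_left _ _) hA) V₁ z₁ z₁' h₁.lbp.cls
  · rw [← hy]
    refine hy1.trans ?_
    rw [Nat.cast_sub huJ]
    calc C * δ * J ≤ (1 - u) * Real.log 2 * J := mul_le_mul_of_nonneg_right hδ2 hJ0
      _ = (J - u * J) * Real.log 2 := by ring
      _ ≤ ((J : ℝ) - (⌊u * J⌋₊ : ℕ)) * Real.log 2 :=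
        mul_le_mul_of_nonneg_right (by linarith) hl2.le
  · rw [← hy]
    exact hc1
  · have : ((P' + c : ℕ) : ℝ) ≤ P₁ := by
      push_cast
      linarith
    exact_mod_cast this
  · have : ((e₁ + c : ℕ) : ℝ) ≤ (e' : ℝ) := by
      push_cast
      linarith
    exact_mod_cast this

end Pool.ORD65
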