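import Pool.Agent.H65.ORD.Zpl
import Pool.Agent.H89.TGT.Ntk
import Pool.Agent.H33.SHF.Rty

/-!
# A zoom with a shrunk target, at the places of a kit

`ZmSQ`: a place of `ZmSG`. `zms_kit`: a place of `ZmSG` from the exactness of the base behind closed
values (`ZmQ`), the absence of closed labels of the target above its level (`NtQ` of helper89), the
bits of the label of the place (`LabFQ`) and an active coordinate (`ActF`).
-/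

set_option autoImplicit false

namespace Pool.ORD65

open Finset Real MvPolynomial Filter
open Pool.Agent.H49.Ent Pool.Agent.H32.Dense Pool.STK Pool.KA Pool.KSAT Pool.K2S Pool.PB
open Pool.STAT Pool.STAT.CLO Pool.GEN Pool.S6C Pool.TGT Pool.SHF33 Pool.MIC6 Pool.GRW Pool.REX
open Pool.EXC33 (ZmQ)
open Pool.SUPA (FF)

variable {m : ℕ} {Θ : Type*} {n₀ : ℕ}

/-- **The balls of a place**, for a class. -/
theorem blp_cls {K K' s₁ : ℕ} {sh : ℕ → ℕ} (hK' : 1 ≤ K') {S : PCl m} {c : ℕ → Fin m}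
    (hc : Inj c (n₀ + 1)) {Λ : ∀ J : ℕ, Fam m J → Type}
    {lab : ∀ (J : ℕ) (F : Fam m J), F.Ω → Λ J F} {α ϖ ζ : ℝ} {M : ℕ} {e : ℕ → ℕ → ℝ}
    {b : ℕ → ℕ → ℕ → ℝ} {i j : ℕ} (hi : i ≤ M) (hj : j ≤ M) {ρ : ℝ}
    {d : ∀ (J : ℕ) (F : Fam m J), GDat F}
    (hd : Bas S (fun J F A => (d J F).Ok c (n₀ + 1) K K' s₁ sh (up α J) (up ϖ J) (up ζ J) M
      (fun i j => ⌊e i j * J⌋₊) (fun i j l => ⌊b i j l * J⌋₊) A))
    (hl : Bas S (fun J F A => ∀ ω ω', A ω → A ω' → lab J F ω = lab J F ω' →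
      (d J F).zL i j (slam F (up ϖ J + j * up ζ J) ω) =
        (d J F).zL i j (slam F (up ϖ J + j * up ζ J) ω')))
    (hα : 0 ≤ α) (hζ : 0 ≤ ζ) (haρ : α + i * ζ < ρ) (hb : ∀ l < n₀ + 1, 0 < b i j l)
    (he : 0 ≤ e i j) (hbρ : ∀ l < n₀ + 1, b i j l + e i j < ρ) : BlP S c n₀ lab ρ (b i j) := by
  classical
  obtain ⟨C, s₂, hC, hball⟩ := ball_gdat (n₀ + 1) K K' s₁ sh hK'
  obtain ⟨D, hD⟩ : ∃ D : ℕ, D = (range (n₀ + 1)).sup fun l => sh (l + 1) := ⟨_, rfl⟩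
  have hDl : ∀ l < n₀ + 1, sh (l + 1) ≤ D := fun l hl => by
    rw [hD]
    exact Finset.le_sup (f := fun l => sh (l + 1)) (mem_range.2 hl)
  have hρ0 : 0 < ρ := by
    have : 0 ≤ (i : ℝ) * ζ := by positivity
    linarith
  -- the sizes
  have hbig : ∀ l < n₀ + 1, ∃ J₁ : ℕ, ∀ J ≥ J₁, sh (l + 1) ≤ ⌊b i j l * (J : ℝ)⌋₊ ∧
      ⌊b i j l * (J : ℝ)⌋₊ + ⌊e i j * (J : ℝ)⌋₊ + s₂ ≤ ⌊ρ * (J : ℝ)⌋₊ := by
    intro l hl
    obtain ⟨J₁, hJ₁⟩ := big (hb l hl) (sh (l + 1) : ℝ)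
    obtain ⟨J₂, hJ₂⟩ := big (a := ρ - (b i j l + e i j)) (by linarith [hbρ l hl]) (s₂ + 1 : ℝ)
    refine ⟨max J₁ J₂, fun J hJ => ⟨Nat.le_floor (hJ₁ J ((le_max_left _ _).trans hJ)), ?_⟩⟩
    have h2 := hJ₂ J ((le_max_right _ _).trans hJ)
    have hJ0 : (0 : ℝ) ≤ J := Nat.cast_nonneg J
    have f1 : (⌊b i j l * (J : ℝ)⌋₊ : ℝ) ≤ b i j l * J :=
      Nat.floor_le (mul_nonneg (hb l hl).le hJ0)
    have f2 : (⌊e i j * (J : ℝ)⌋₊ : ℝ) ≤ e i j * J := Nat.floor_le (mul_nonneg he hJ0)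
    refine Nat.le_floor ?_
    push_cast
    linarith
  have hbig' : ∃ J₁ : ℕ, ∀ J ≥ J₁, ∀ l < n₀ + 1, sh (l + 1) ≤ ⌊b i j l * (J : ℝ)⌋₊ ∧
      ⌊b i j l * (J : ℝ)⌋₊ + ⌊e i j * (J : ℝ)⌋₊ + s₂ ≤ ⌊ρ * (J : ℝ)⌋₊ := by
    have h1 : ∀ l, ∃ J₁ : ℕ, l < n₀ + 1 → ∀ J ≥ J₁, sh (l + 1) ≤ ⌊b i j l * (J : ℝ)⌋₊ ∧
        ⌊b i j l * (J : ℝ)⌋₊ + ⌊e i j * (J : ℝ)⌋₊ + s₂ ≤ ⌊ρ * (J : ℝ)⌋₊ := by
      intro l
      by_cases hl : l < n₀ + 1
      · obtain ⟨J₁, hJ₁⟩ := hbig l hl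
        exact ⟨J₁, fun _ => hJ₁⟩
      · exact ⟨0, fun h => absurd h hl⟩
    choose f hf using h1
    refine ⟨(range (n₀ + 1)).sup f, fun J hJ l hl => hf l hl J (le_trans ?_ hJ)⟩
    exact Finset.le_sup (f := f) (mem_range.2 hl)
  obtain ⟨J₁, hJ₁⟩ := hbig'
  obtain ⟨J₂, hJ₂⟩ := big (a := ρ - (α + i * ζ)) (by linarith) (i + 2 : ℝ)
  refine ⟨2 * C * 2 ^ D, ?_, (hd.and hl).mono (max J₁ J₂) ?_⟩
  · have h1 : (1 : ℝ) ≤ 2 ^ D := one_le_pow₀ (by norm_num)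
    nlinarith
  rintro J hJ F A ⟨hG, hlab⟩ ω ω' hω hω' hy hT l hl hk
  have h1 := hJ₁ J ((le_max_left _ _).trans hJ)
  have h2 := hJ₂ J ((le_max_right _ _).trans hJ)
  have hJ0 : (0 : ℝ) ≤ J := Nat.cast_nonneg J
  obtain ⟨R, hR⟩ : ∃ R : ℕ, R = ⌊ρ * (J : ℝ)⌋₊ := ⟨_, rfl⟩
  rw [← hR] at hk h1
  have haR : up α J + i * up ζ J ≤ R := by
    rw [hR]
    refine Nat.le_floor ?_
    have u1 := up_le hα J
    have u2 := up_le hζ J
    have u3 : (i : ℝ) * (up ζ J : ℝ) ≤ i * (ζ * J + 1) :=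
      mul_le_mul_of_nonneg_left u2 (Nat.cast_nonneg i)
    push_cast
    linarith
  -- the sizes of the gradients
  obtain ⟨g, hg⟩ : ∃ g : ℕ → ℕ, g = fun l => ⌊b i j l * (J : ℝ)⌋₊ := ⟨_, rfl⟩
  obtain ⟨ee, hee⟩ : ∃ ee : ℕ, ee = ⌊e i j * (J : ℝ)⌋₊ := ⟨_, rfl⟩
  obtain ⟨Nm, hNm⟩ : ∃ Nm, Nm = (range (n₀ + 1)).sup g := ⟨_, rfl⟩
  have hgN : ∀ l < n₀ + 1, g l ≤ Nm := fun l hl => by
    rw [hNm]
    exact Finset.le_sup (f := g) (mem_range.2 hl)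
  have hsiz : ∀ l < n₀ + 1, g l + ee + s₂ ≤ R := fun l hl => by
    rw [hg, hee]
    exact (h1 l hl).2
  have hNR : Nm + ee + s₂ ≤ R := by
    have h3 : Nm ≤ R - (ee + s₂) := by
      rw [hNm]
      refine Finset.sup_le fun l hl => ?_
      have := hsiz l (mem_range.1 hl)
      omega
    have h4 := hsiz 0 (by omega)
    omega
  have hb' := fun (ω : F.Ω) (hω : A ω) => hball hG hc i hi j hj
    (fun l => ee + (Nm - g l)) R haR (fun l hl => (h1 l hl).1)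
    (fun l hl k hk => by
      unfold nlp
      have h3 : (Finset.Icc k l).sup (fun l => ⌊b i j l * (J : ℝ)⌋₊) ≤ Nm := by
        refine Finset.sup_le fun l' hl' => ?_
        have h4 := hgN l' (by have := (Finset.mem_Icc.1 hl').2; omega)
        rw [hg] at h4
        exact h4
      rw [hg, hee]
      simp only
      omega) (fun l hl => by
      have h3 := hgN l hl
      rw [hg] at h3 ⊢
      simp only at h3 ⊢
      omega) ω hω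
  have e0 : F.t ω = F.t ω' := by
    unfold Fam.t
    rw [hT]
  have p1 := hb' ω hω (cx F (fun i => c (i - 1)) ω') (by rw [e0]; exact if_pos rfl) (l + 1)
    (by omega) (by omega) (fun k hk1 hk2 => by
      obtain ⟨k, rfl⟩ : ∃ k', k = k' + 1 := ⟨k - 1, by omega⟩
      rw [cx_succ, cx_succ, abs_sub_comm]
      exact hk k (by omega))
  have p2 := hb' ω' hω' (cx F (fun i => c (i - 1)) ω') (if_pos rfl) (l + 1)
    (by omega) (by omega) (fun k hk1 hk2 => by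
      rw [sub_self, abs_zero]
      positivity)
  rw [hlab ω ω' hω hω' hy] at p1
  rw [cx_succ, Nat.add_sub_cancel] at p1 p2
  have h5 : sh (l + 1) ≤ ⌊b i j l * (J : ℝ)⌋₊ := (h1 l (by omega)).1
  have h6 : (1 : ℝ) / 2 ^ (⌊b i j l * (J : ℝ)⌋₊ - sh (l + 1)) ≤
      2 ^ D / 2 ^ ⌊b i j l * (J : ℝ)⌋₊ := by
    have h7 : (2 : ℝ) ^ ⌊b i j l * (J : ℝ)⌋₊ =
        2 ^ (⌊b i j l * (J : ℝ)⌋₊ - sh (l + 1)) * 2 ^ sh (l + 1) := by
      rw [← pow_add]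
      congr 1
      omega
    rw [h7, div_le_div_iff₀ (by positivity) (by positivity), one_mul]
    have h8 : (2 : ℝ) ^ sh (l + 1) ≤ 2 ^ D := pow_le_pow_right₀ (by norm_num) (hDl l (by omega))
    have h9 : (0 : ℝ) ≤ 2 ^ (⌊b i j l * (J : ℝ)⌋₊ - sh (l + 1)) := by positivity
    nlinarith
  have h10 : C / 2 ^ (⌊b i j l * (J : ℝ)⌋₊ - sh (l + 1)) ≤
      C * (2 ^ D / 2 ^ ⌊b i j l * (J : ℝ)⌋₊) := by
    rw [div_eq_mul_one_div]
    exact mul_le_mul_of_nonneg_left h6 (by linarith)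
  have e7 : 2 * C * 2 ^ D / 2 ^ ⌊b i j l * (J : ℝ)⌋₊ =
      C * (2 ^ D / 2 ^ ⌊b i j l * (J : ℝ)⌋₊) + C * (2 ^ D / 2 ^ ⌊b i j l * (J : ℝ)⌋₊) := by
    ring
  rw [e7]
  have q1 := p1.trans h10
  have q2 := p2.trans h10
  rw [abs_le] at q1 q2 ⊢
  constructor <;> linarith [q1.1, q1.2, q2.1, q2.2]

/-- **A place of `ZmSG`**. -/
def ZmSQ (Kt : KitP m Θ n₀) (S : PCl m) (K' s₁ : ℕ) (sh : ℕ → ℕ) (k M N : ℕ) (θ : ℝ)
    (p : Θ) (b : ℕ → ℕ → ℕ → ℝ) (e : ℕ → ℕ → ℝ) (i j : ℕ) : Prop :=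
  ∀ S' : PCl m, S'.Ne →
    (∀ (τ : ℝ) (J : ℕ) (F : Fam m J) (A : F.Ω → Prop), S'.St τ J F A → S.St τ J F A) →
    ∀ d : ∀ (J : ℕ) (F : Fam m J), GDat F,
    (∀ (τ : ℝ) (J : ℕ) (F : Fam m J) (A : F.Ω → Prop), S'.St τ J F A →
      (Kt.grid K' s₁ sh p N M θ b e).Ok F (d J F) A) →
    ∃ S'' : PCl m, S''.Ne ∧ (∀ (τ : ℝ) (J : ℕ) (F : Fam m J) (A : F.Ω → Prop),
      S''.St τ J F A → S'.St τ J F A) ∧
      ZmS S'' k (Kt.cs p) (n₀ + 1) (1 - msh (Kt.X p) N M)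
        (Kt.L p n₀ ((Kt.y p).1 + (Kt.y p).2 + i * msh (Kt.X p) N M)
          ((Kt.y p).1 + j * msh (Kt.X p) N M) + (M + 1) * msh (Kt.X p) N M)
        (Kt.L p n₀ ((Kt.y p).1 + (Kt.y p).2 + i * msh (Kt.X p) N M)
          ((Kt.y p).1 + j * msh (Kt.X p) N M) + msh (Kt.X p) N M / 2)
        (fun J F ω => ((d J F).cd (n₀ + 1) (Kt.rc p N M θ J F (d J F))).lab2 (up (Kt.y p).1 J)
          (up (msh (Kt.X p) N M) J) i j ω)

/-- **A place of `ZmSG` at the places of a kit.** -/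
theorem zms_kit (hn₀ : 1 ≤ n₀) (hFZ : FZX n₀) {Kt : KitP m Θ n₀} {S : PCl m} {C₀ : ℝ}
    (hC₀ : 0 ≤ C₀) (htm : TmC S C₀) {p : Θ} (hinj : Inj (Kt.cs p) (n₀ + 1))
    {N M : ℕ} {θ ε T : ℝ} {K' s₁ : ℕ} {sh : ℕ → ℕ} (hK' : 1 ≤ K')
    (hcell : CellL (n₀ + 1) (Kt.L p) ε T (Kt.y p) (Kt.X p) (Kt.la p) (Kt.ml p))
    (hN : 4 ≤ N) (hNT : 4 * (T + 2) ≤ N) (hε0 : 0 ≤ ε) (hε : ε * (64 * (N * (M + 4))) ≤ 1)
    (hθ : 0 < θ) (hθ1 : θ ≤ 1 / 16)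
    (hro : (Kt.y p).1 + 2 * (Kt.y p).2 + 2 * Kt.X p < 1) {ka ξ : ℝ} (hka0 : 0 ≤ ka)
    (hka : ka + (n₀ + 1) * θ ≤ 1) (hξ : 0 < ξ) (hξ1 : ξ ≤ msh (Kt.X p) N M)
    {b : ℕ → ℕ → ℕ → ℝ} {e : ℕ → ℕ → ℝ} (hb : Kt.Near p N M θ b e) {i j : ℕ} (hi : i ≤ M)
    (hj : j ≤ M) (hzm : ZmQ Kt S K' s₁ sh N M θ p ka ξ b e i j)
    (hnt : NtQ Kt S K' s₁ sh N M θ p ξ b e i j) {h₁ : ℝ}
    (hlab : LabFQ Kt S K' s₁ sh N M θ p b e i j
      ((Kt.y p).2 + i * msh (Kt.X p) N M - j * msh (Kt.X p) N M + ξ / 4) h₁) (κ : Fin n₀)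
    (hact : ActF S (Kt.cs p κ)
      ((Kt.y p).2 + i * msh (Kt.X p) N M - j * msh (Kt.X p) N M + ξ / 4)
      ((Kt.y p).2 + i * msh (Kt.X p) N M - j * msh (Kt.X p) N M + ξ / 2) h₁) :
    ZmSQ Kt S K' s₁ sh (n₀ + 1) M N θ p b e i j := by
  classical
  intro S' hne hsub d hd
  have hN1 : 1 ≤ N := by omega
  have hX := hcell.pos
  have hs := hcell.sideE (B := 1) (by omega) hN1 hNT (by omega) le_rfl hε0 hε hθ hθ1 hb
  obtain ⟨S₂, hne₂, hsub₂, hbit⟩ := hlab S' hne hsub d hd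
  obtain ⟨S₃, Ns, hne₃, hsub₃, hNs, hFF⟩ := hact S₂ hne₂
    (fun τ J F A h => hsub τ J F A (hsub₂ τ J F A h))
  have hs₃' : ∀ (τ : ℝ) (J : ℕ) (F : Fam m J) (A : F.Ω → Prop), S₃.St τ J F A →
      S'.St τ J F A := fun τ J F A h => hsub₂ τ J F A (hsub₃ τ J F A h)
  have hs₃ : ∀ (τ : ℝ) (J : ℕ) (F : Fam m J) (A : F.Ω → Prop), S₃.St τ J F A → S.St τ J F A :=
    fun τ J F A h => hsub τ J F A (hs₃' τ J F A h)
  have hd₃ : ∀ (τ : ℝ) (J : ℕ) (F : Fam m J) (A : F.Ω → Prop), S₃.St τ J F A →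
      (Kt.grid K' s₁ sh p N M θ b e).Ok F (d J F) A := fun τ J F A h => hd τ J F A (hs₃' τ J F A h)
  have hpl := placeD_kit hd₃ hi hj
  have hNζ : N * ((M + 4) * msh (Kt.X p) N M) = Kt.X p := msh_mul hN1
  have hζ0 := hs.ζ0
  have hwin := hs.win
  have htop := hs.top
  have hdep := hcell.dep
  have hXw := hcell.win
  have hln := hcell.lt n₀ (by omega)
  have hct := hcell.top
  have hup := fun l (hl : l < n₀ + 1) => hb.up i hi j hj l hl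
  have hlw := fun l (hl : l < n₀ + 1) => hb.lo i hi j hj l hl
  have hposb := fun l (hl : l < n₀ + 1) => hs.pos i hi j hj l hl
  have he1 := fun l (hl : l < n₀ + 1) => hb.e1 i hi j hj l hl
  have hlev := hs.lev i hi j hj
  rw [Nat.add_sub_cancel] at hlev
  have he0 := hb.e0 i hi j hj
  have hzx := zmx_of (w₁ := (Kt.y p).1 + j * msh (Kt.X p) N M + ξ) hzm hs₃ hd₃ le_rfl
  have hir : (i : ℝ) ≤ M := by exact_mod_cast hi
  have hjr : (j : ℝ) ≤ M := by exact_mod_cast hj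
  have hi0 : (0 : ℝ) ≤ i := Nat.cast_nonneg i
  have hj0 : (0 : ℝ) ≤ j := Nat.cast_nonneg j
  have hNr : (4 : ℝ) ≤ N := by exact_mod_cast hN
  have hM0 : (0 : ℝ) ≤ M := Nat.cast_nonneg M
  have hMX : 4 * ((M + 4) * msh (Kt.X p) N M) ≤ Kt.X p := by
    have h1 : 0 ≤ (M + 4) * msh (Kt.X p) N M := by positivity
    have h2 := mul_le_mul_of_nonneg_right hNr h1
    linarith
  have hiζ : (i : ℝ) * msh (Kt.X p) N M ≤ M * msh (Kt.X p) N M :=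
    mul_le_mul_of_nonneg_right hir hζ0.le
  have hjζ : (j : ℝ) * msh (Kt.X p) N M ≤ M * msh (Kt.X p) N M :=
    mul_le_mul_of_nonneg_right hjr hζ0.le
  have hMζ0 : 0 ≤ (M : ℝ) * msh (Kt.X p) N M := by positivity
  have hiζ0 : 0 ≤ (i : ℝ) * msh (Kt.X p) N M := mul_nonneg hi0 hζ0.le
  have hjζ0 : 0 ≤ (j : ℝ) * msh (Kt.X p) N M := mul_nonneg hj0 hζ0.le
  have hθζ : θ * msh (Kt.X p) N M ≤ 1 / 16 * msh (Kt.X p) N M :=
    mul_le_mul_of_nonneg_right hθ1 hζ0.le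
  have hMX' : 4 * ((M : ℝ) * msh (Kt.X p) N M) + 16 * msh (Kt.X p) N M ≤ Kt.X p := by
    linarith
  have hbN0 := hposb n₀ (by omega)
  have hupN := hup n₀ (by omega)
  have hlwN := hlw n₀ (by omega)
  have hbitS : Bas S₃ (fun J F A => CH (Pool.Agent.H49.Ent.cond F.p A True)
        (((d J F).cd (n₀ + 1) (Kt.rc p N M θ J F (d J F))).lab2 (up (Kt.y p).1 J)
          (up (msh (Kt.X p) N M) J) i j)
        (fun ω => (F.D ⌊((Kt.y p).2 + i * msh (Kt.X p) N M - j * msh (Kt.X p) N M + ξ / 4) * J⌋₊ ω,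
          (F.X J ω, F.W ω))) ≤ h₁ * J) := Bas.sub hsub₃ hbit
  have hwJ := upd (Kt.y p).1 (msh (Kt.X p) N M) hwin hζ0.le j
  have hOk : Bas S₃ (fun J F A => (d J F).Ok (Kt.cs p) (n₀ + 1) Kt.K K' s₁ sh
      (up ((Kt.y p).1 + (Kt.y p).2) J) (up (Kt.y p).1 J) (up (msh (Kt.X p) N M) J) M
      (fun i j => ⌊e i j * J⌋₊) (fun i j l => ⌊b i j l * J⌋₊) A) :=
    ⟨1, one_pos, 0, fun J _ F A hA => (hd₃ 1 J F A hA).1⟩
  have hbl : BlP S₃ (Kt.cs p) n₀ (fun J F =>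
      ((d J F).cd (n₀ + 1) (Kt.rc p N M θ J F (d J F))).lab2 (up (Kt.y p).1 J)
        (up (msh (Kt.X p) N M) J) i j) (1 - Kt.X p / 2) (b i j) := by
    refine blp_cls hK' hinj (α := (Kt.y p).1 + (Kt.y p).2) (ϖ := (Kt.y p).1)
      (ζ := msh (Kt.X p) N M) (e := e) hi hj hOk
      ⟨1, one_pos, 0, fun J _ F A hA => (hpl.2 1 J F A hA).1⟩ (by linarith) hζ0.le
      (by linarith) hposb he0 (fun l hl => by
        have := he1 l hl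
        linarith)
  obtain ⟨sN, hsN⟩ : ∃ sN, sN = 1 - Kt.L p n₀ ((Kt.y p).1 + (Kt.y p).2 + i * msh (Kt.X p) N M)
    ((Kt.y p).1 + j * msh (Kt.X p) N M) - Kt.X p / 4 := ⟨_, rfl⟩
  have hnum : (∑ l ∈ range n₀, ((1 - Kt.X p / 2) - b i j l)) +
      ((n₀ : ℝ) - 1) * (1 - (1 - Kt.X p / 2)) + (1 - (b i j n₀ + sN)) <
      ∑ l ∈ range n₀, (1 - Kt.L p l ((Kt.y p).1 + (Kt.y p).2 + i * msh (Kt.X p) N M)
          ((Kt.y p).1 + j * msh (Kt.X p) N M)) - ka * msh (Kt.X p) N M := by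
    have h1 : ∑ l ∈ range n₀, ((1 - Kt.X p / 2) - b i j l) ≤
        ∑ l ∈ range n₀, ((1 - Kt.L p l ((Kt.y p).1 + (Kt.y p).2 + i * msh (Kt.X p) N M)
          ((Kt.y p).1 + j * msh (Kt.X p) N M)) + (θ * msh (Kt.X p) N M - Kt.X p / 2)) :=
      Finset.sum_le_sum fun l hl => by
        have := hlw l (by
          have := Finset.mem_range.1 hl
          omega)
        linarith
    rw [Finset.sum_add_distrib, Finset.sum_const, Finset.card_range, nsmul_eq_mul] at h1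
    have h2 : (ka + (n₀ + 1) * θ) * msh (Kt.X p) N M ≤ 1 * msh (Kt.X p) N M :=
      mul_le_mul_of_nonneg_right hka hζ0.le
    rw [hsN]
    have e1 : ((n₀ : ℝ) - 1) * (1 - (1 - Kt.X p / 2)) = n₀ * (Kt.X p / 2) - Kt.X p / 2 := by ring
    have e2 : (n₀ : ℝ) * (θ * msh (Kt.X p) N M - Kt.X p / 2) =
      n₀ * θ * msh (Kt.X p) N M - n₀ * (Kt.X p / 2) := by ring
    have e3 : (ka + (n₀ + 1) * θ) * msh (Kt.X p) N M =
      ka * msh (Kt.X p) N M + n₀ * θ * msh (Kt.X p) N M + θ * msh (Kt.X p) N M := by ring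
    rw [e1]
    rw [e2] at h1
    rw [e3] at h2
    linarith
  obtain ⟨S₄, hne₄, hsub₄, hZ⟩ := zms_core hFZ hne₃ hC₀
    (fun τ J F A hτ h => htm τ J F A hτ (hs₃ τ J F A h)) hinj
    (lab := fun J F => ((d J F).cd (n₀ + 1) (Kt.rc p N M θ J F (d J F))).lab2 (up (Kt.y p).1 J)
      (up (msh (Kt.X p) N M) J) i j)
    (wJ := fun J => up (Kt.y p).1 J + j * up (msh (Kt.X p) N M) J)
    (w := (Kt.y p).1 + j * msh (Kt.X p) N M) hwJ hpl.1 (ρR := 1 - Kt.X p / 2) (bN := b i j n₀)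
    (b := b i j) hbl (fun S₅ hs₅ v hv => by
      obtain ⟨J₁, hJ₁⟩ := hv
      refine ylg_cls hK' hinj (α := (Kt.y p).1 + (Kt.y p).2) (ϖ := (Kt.y p).1)
        (ζ := msh (Kt.X p) N M) (e := e) hi hj (hOk.sub hs₅) ?_ (by linarith) hζ0.le
        (by linarith) hposb he0 (fun l hl => by
          have := he1 l hl
          linarith)
      refine ⟨1, one_pos, J₁, fun J hJ F A hA => ?_⟩
      have h1 := (hpl.2 1 J F A (hs₅ 1 J F A hA)).1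
      refine ⟨fun y => if h : ∃ ω, A ω ∧ v.y J F ω = y then
        (d J F).zL i j (slam F (up (Kt.y p).1 J + j * up (msh (Kt.X p) N M) J) h.choose) else 0,
        fun ω hω => ?_⟩
      have h2 : ∃ ω', A ω' ∧ v.y J F ω' = v.y J F ω := ⟨ω, hω, rfl⟩
      refine (dif_pos h2).trans ?_
      exact h1 _ _ h2.choose_spec.1 hω (hJ₁ J hJ F _ _ h2.choose_spec.2))
    hzx hNs κ hbitS (P := (Kt.y p).2 + i * msh (Kt.X p) N M - j * msh (Kt.X p) N M + ξ / 4)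
    (Q := (Kt.y p).2 + i * msh (Kt.X p) N M - j * msh (Kt.X p) N M + ξ / 2)
    (by linarith) le_rfl (by linarith) (by linarith) (by linarith) hFF
    (PN := Kt.L p n₀ ((Kt.y p).1 + (Kt.y p).2 + i * msh (Kt.X p) N M)
        ((Kt.y p).1 + j * msh (Kt.X p) N M) + msh (Kt.X p) N M / 4)
    (fun S₅ hne₅ hs₅ KQ wp q h1 h2 _ h4 hlb => hnt S₅ hne₅
      (fun τ J F A h => hs₃ τ J F A (hs₅ τ J F A h)) d
      (fun τ J F A h => hd₃ τ J F A (hs₅ τ J F A h)) wp h1 h2 q h4 KQ hlb)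
    (by linarith) (by linarith) (by linarith) (sN := sN) (y := 1 - msh (Kt.X p) N M)
    (R' := Kt.L p n₀ ((Kt.y p).1 + (Kt.y p).2 + i * msh (Kt.X p) N M)
          ((Kt.y p).1 + j * msh (Kt.X p) N M) + (M + 1) * msh (Kt.X p) N M)
    (R₀ := Kt.L p n₀ ((Kt.y p).1 + (Kt.y p).2 + i * msh (Kt.X p) N M)
          ((Kt.y p).1 + j * msh (Kt.X p) N M) + msh (Kt.X p) N M / 2)
    (by rw [hsN]; linarith) hbN0.le (by linarith) (by linarith)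
    (fun l hl => by
      have := he1 l (by omega)
      linarith) (by rw [hsN]; linarith) (by rw [hsN]; linarith) (by rw [hsN]; linarith) hnum
    (by linarith) (by linarith) (by rw [hsN]; linarith) (by linarith)
  exact ⟨S₄, hne₄, fun τ J F A h => hs₃' τ J F A (hsub₄ τ J F A h), hZ⟩

end Pool.ORD65
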