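import Pool.Agent.H65.ORD.Nyl
import Pool.Agent.H89.TGT.Sgv

/-!
# The entropy of the base, given a label of one coordinate over the others

`cnt_up`: upper bound of the entropy of the base, if one coordinate is known to `P` digits given the
others.
-/

set_option autoImplicit false

namespace Pool.ORD65

open Finset Real MvPolynomial
open Pool.Agent.H49.Ent Pool.Agent.H32.Dense Pool.STK Pool.KA Pool.KSAT Pool.K2S Pool.PB Pool.GEN
open Pool.S6C Pool.GRD Pool.GRW Pool.TGT
open Pool.TUB (lo lo_eq lo_ext seq_up CH_le_dig)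

variable {m n J : ℕ}

theorem x_near (F : Fam m J) {R : ℕ} {ω ω' : F.Ω} {i : Fin m} (h : F.X R ω i = F.X R ω' i) :
    |F.x ω i - F.x ω' i| ≤ 1 / 2 ^ R := by
  have p : (0 : ℝ) < 2 ^ R := by positivity
  have a1 : ((F.X R ω i : ℤ) : ℝ) ≤ 2 ^ R * F.x ω i := Int.floor_le _
  have a2 : (2 : ℝ) ^ R * F.x ω i < (F.X R ω i : ℤ) + 1 := Int.lt_floor_add_one _
  have b1 : ((F.X R ω' i : ℤ) : ℝ) ≤ 2 ^ R * F.x ω' i := Int.floor_le _
  have b2 : (2 : ℝ) ^ R * F.x ω' i < (F.X R ω' i : ℤ) + 1 := Int.lt_floor_add_one _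
  rw [h] at a1 a2
  have e1 : F.x ω i - F.x ω' i = (2 ^ R * F.x ω i - 2 ^ R * F.x ω' i) / 2 ^ R := by
    field_simp
  rw [e1, abs_div, abs_of_pos p]
  refine div_le_div_of_nonneg_right ?_ p.le
  rw [abs_le]
  constructor <;> linarith

theorem X_near (F : Fam m J) {R P : ℕ} (hP : P ≤ R) {ω ω' : F.Ω} {i : Fin m} {C : ℝ}
    (h : |F.x ω i - F.x ω' i| ≤ C / 2 ^ P) :
    |((F.X R ω i - F.X R ω' i : ℤ) : ℝ)| ≤ C * 2 ^ (R - P) + 1 := by
  have p : (0 : ℝ) < 2 ^ R := by positivity
  have h1 : |(2 : ℝ) ^ R * F.x ω i - 2 ^ R * F.x ω' i| ≤ C * 2 ^ (R - P) := by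
    rw [← mul_sub, abs_mul, abs_of_pos p]
    refine (mul_le_mul_of_nonneg_left h p.le).trans (le_of_eq ?_)
    obtain ⟨d, hd⟩ : ∃ d, R = P + d := ⟨R - P, by omega⟩
    have e8 : R - P = d := by omega
    rw [e8, hd, pow_add]
    field_simp
  exact Pool.TUB.floor_dist h1

/-- **The entropy of the base**, with a label of the coordinate `l₀` over the others. -/
theorem cnt_up {F : Fam m J} {c : ℕ → Fin m} {n₀ R : ℕ} {g : ℕ → ℕ} {C : ℝ} (hC : 1 ≤ C)
    {Γ : Type} (Y : F.Ω → Γ) {q : F.Ω → ℝ} (hq : IsLaw q) {A : F.Ω → Prop}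
    (hA : ∀ ω, 0 < q ω → A ω) (hR : R ≤ J) (hg : ∀ l < n₀, g l ≤ R) {l₀ : ℕ} (hl₀ : l₀ < n₀)
    {P : ℕ} (hP : P ≤ J)
    (hball : ∀ ω ω', A ω → A ω' → Y ω = Y ω' → ∀ l < n₀,
      (∀ k < l, |F.x ω (c k) - F.x ω' (c k)| ≤ 1 / 2 ^ R) →
      |F.x ω (c l) - F.x ω' (c l)| ≤ C / 2 ^ g l)
    (hlab : ∀ ω ω', A ω → A ω' → Y ω = Y ω' →
      (∀ l < n₀, l ≠ l₀ → F.X J ω (c l) = F.X J ω' (c l)) →
      |F.x ω (c l₀) - F.x ω' (c l₀)| ≤ 2 / 2 ^ P) :
    CH q (fun ω (l : Fin n₀) => F.X J ω (c l)) Y ≤
      ((∑ l ∈ range n₀, ((R : ℝ) - g l)) + (n₀ - 1) * ((J : ℝ) - R) + ((J : ℝ) - P)) *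
        Real.log 2 + (2 * n₀ + 1) * Real.log (2 * C + 7) := by
  classical
  obtain ⟨K, hK⟩ : ∃ K, K = Real.log (2 * C + 7) := ⟨_, rfl⟩
  have hK0 : 0 ≤ K := by
    rw [hK]
    exact Real.log_nonneg (by linarith)
  have hl2 : 0 < Real.log 2 := Real.log_pos one_lt_two
  obtain ⟨X, hX⟩ : ∃ X : F.Ω → ℕ → ℤ, X = fun ω l => if l < n₀ then F.X R ω (c l) else
    if l < 2 * n₀ then (if l - n₀ = l₀ then 0 else F.X J ω (c (l - n₀))) else F.X J ω (c l₀) :=
    ⟨_, rfl⟩
  obtain ⟨e, he⟩ : ∃ e : ℕ → ℝ, e = fun l => if l < n₀ then ((R : ℝ) - g l) * Real.log 2 + K else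
    if l < 2 * n₀ then (if l - n₀ = l₀ then 0 else ((J : ℝ) - R) * Real.log 2) + K else
      ((J : ℝ) - P) * Real.log 2 + K := ⟨_, rfl⟩
  have hlog : ∀ (x D : ℝ) (d : ℕ), x ≤ D * 2 ^ d → 0 < x → 0 < D → D ≤ 2 * C + 7 →
      Real.log x ≤ (d : ℝ) * Real.log 2 + K := by
    intro x D d h1 h2 h3 h4
    refine (Real.log_le_log h2 h1).trans ?_
    rw [Real.log_mul h3.ne' (by positivity), Real.log_pow, hK]
    have := Real.log_le_log h3 h4
    linarith
  have h1 := seq_up hq X Y 0 e (2 * n₀ + 1) (Nat.zero_le _) fun l _ hl => by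
    obtain ⟨W, hW⟩ : ∃ W : F.Ω → (ℕ → ℤ) × Γ, W = fun ω => (lo l X ω, Y ω) := ⟨_, rfl⟩
    rw [← hW]
    by_cases hln : l < n₀
    · have key : CH q (fun ω => X ω l) W ≤ Real.log (2 * (C * 2 ^ (R - g l) + 1) + 1) := by
        refine CH_le_dig hq _ _ fun ω ω' h1 h2 hWe => ?_
        rw [hW] at hWe
        have e1 := Prod.ext_iff.1 hWe
        have e2 : ∀ k < l, F.X R ω (c k) = F.X R ω' (c k) := fun k hk => by
          have e3 := lo_eq e1.1 hk
          rw [hX] at e3
          simp only at e3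
          rwa [if_pos (by omega), if_pos (by omega)] at e3
        rw [hX]
        simp only
        rw [if_pos hln, if_pos hln]
        exact X_near F (hg l hln) (hball ω ω' (hA ω h1) (hA ω' h2) e1.2 l hln fun k hk =>
          x_near F (e2 k hk))
      refine key.trans ?_
      rw [he]
      simp only
      rw [if_pos hln]
      have p1 : (1 : ℝ) ≤ 2 ^ (R - g l) := one_le_pow₀ (by norm_num)
      have h2 := hlog (2 * (C * 2 ^ (R - g l) + 1) + 1) (2 * C + 3) (R - g l) (by nlinarith)
        (by positivity) (by linarith) (by linarith)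
      rw [Nat.cast_sub (hg l hln)] at h2
      exact h2
    · by_cases hln2 : l < 2 * n₀
      · by_cases hll : l - n₀ = l₀
        · have key : CH q (fun ω => X ω l) W ≤ Real.log (2 * 0 + 1) := by
            refine CH_le_dig hq _ _ fun ω ω' h1 h2 hWe => ?_
            rw [hX]
            simp only
            rw [if_neg hln, if_pos hln2, if_pos hll, if_neg hln, if_pos hln2, if_pos hll]
            simp
          refine key.trans ?_
          rw [he]
          simp only
          rw [if_neg hln, if_pos hln2, if_pos hll]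
          simp only [mul_zero, zero_add, Real.log_one]
          exact hK0
        · have key : CH q (fun ω => X ω l) W ≤ Real.log (2 * (1 * 2 ^ (J - R) + 1) + 1) := by
            refine CH_le_dig hq _ _ fun ω ω' h1 h2 hWe => ?_
            rw [hW] at hWe
            have e1 := Prod.ext_iff.1 hWe
            have e2 : F.X R ω (c (l - n₀)) = F.X R ω' (c (l - n₀)) := by
              have e3 := lo_eq e1.1 (show l - n₀ < l by omega)
              rw [hX] at e3
              simp only at e3
              rwa [if_pos (by omega), if_pos (by omega)] at e3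
            rw [hX]
            simp only
            rw [if_neg hln, if_pos hln2, if_neg hll, if_neg hln, if_pos hln2, if_neg hll]
            exact X_near F hR (x_near F e2)
          refine key.trans ?_
          rw [he]
          simp only
          rw [if_neg hln, if_pos hln2, if_neg hll]
          have p1 : (1 : ℝ) ≤ 2 ^ (J - R) := one_le_pow₀ (by norm_num)
          have h2 := hlog (2 * (1 * 2 ^ (J - R) + 1) + 1) 5 (J - R) (by nlinarith)
            (by positivity) (by norm_num) (by linarith)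
          rw [Nat.cast_sub hR] at h2
          exact h2
      · have key : CH q (fun ω => X ω l) W ≤ Real.log (2 * (2 * 2 ^ (J - P) + 1) + 1) := by
          refine CH_le_dig hq _ _ fun ω ω' h1 h2 hWe => ?_
          rw [hW] at hWe
          have e1 := Prod.ext_iff.1 hWe
          have e2 : ∀ k < n₀, k ≠ l₀ → F.X J ω (c k) = F.X J ω' (c k) := fun k hk hkl => by
            have e3 := lo_eq e1.1 (show n₀ + k < l by omega)
            rw [hX] at e3
            simp only at e3
            rw [if_neg (by omega), if_pos (by omega), if_neg (by omega), if_neg (by omega),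
              if_pos (by omega), if_neg (by omega)] at e3
            have e4 : n₀ + k - n₀ = k := by omega
            rwa [e4] at e3
          rw [hX]
          simp only
          rw [if_neg hln, if_neg hln2, if_neg hln, if_neg hln2]
          exact X_near F hP (hlab ω ω' (hA ω h1) (hA ω' h2) e1.2 e2)
        refine key.trans ?_
        rw [he]
        simp only
        rw [if_neg hln, if_neg hln2]
        have p1 : (1 : ℝ) ≤ 2 ^ (J - P) := one_le_pow₀ (by norm_num)
        have h2 := hlog (2 * (2 * 2 ^ (J - P) + 1) + 1) 7 (J - P) (by nlinarith)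
          (by positivity) (by norm_num) (by linarith)
        rw [Nat.cast_sub hP] at h2
        exact h2
  have h2 : CH q (fun ω (l : Fin n₀) => F.X J ω (c l)) Y ≤
      CH q (lo (2 * n₀ + 1) X) (fun ω => (lo 0 X ω, Y ω)) := by
    refine le_trans (CH_mono_cond hq.nonneg (W' := Y) (W := fun ω => (lo 0 X ω, Y ω))
      fun ω ω' _ _ e => ?_) (CH_mono_left hq.nonneg fun ω ω' _ _ e => ?_)
    · have e0 : lo 0 X ω = lo 0 X ω' := lo_ext fun l hl => absurd hl (Nat.not_lt_zero l)
      exact Prod.ext e0 e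
    · have e1 := (Prod.ext_iff.1 e).1
      funext l
      have hl := l.2
      by_cases hll : (l : ℕ) = l₀
      · have e3 := lo_eq e1 (show 2 * n₀ < 2 * n₀ + 1 by omega)
        rw [hX] at e3
        simp only at e3
        rw [if_neg (by omega), if_neg (by omega), if_neg (by omega), if_neg (by omega)] at e3
        rw [hll]
        exact e3
      · have e3 := lo_eq e1 (show n₀ + l < 2 * n₀ + 1 by omega)
        rw [hX] at e3
        simp only at e3
        rw [if_neg (by omega), if_pos (by omega), if_neg (by omega), if_neg (by omega),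
          if_pos (by omega), if_neg (by omega)] at e3
        have e4 : n₀ + (l : ℕ) - n₀ = l := by omega
        rwa [e4] at e3
  refine h2.trans (h1.trans (le_of_eq ?_))
  have hs1 : ∑ l ∈ range n₀, e l = (∑ l ∈ range n₀, ((R : ℝ) - g l)) * Real.log 2 + n₀ * K := by
    have : ∀ l ∈ range n₀, e l = ((R : ℝ) - g l) * Real.log 2 + K := fun l hl => by
      rw [he]
      simp only
      rw [if_pos (mem_range.1 hl)]
    rw [Finset.sum_congr rfl this, Finset.sum_add_distrib, Finset.sum_const, Finset.card_range,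
      nsmul_eq_mul, Finset.sum_mul]
  have hs2 : ∑ l ∈ range n₀, e (n₀ + l) = (n₀ - 1) * (((J : ℝ) - R) * Real.log 2) + n₀ * K := by
    have : ∀ l ∈ range n₀, e (n₀ + l) = (((J : ℝ) - R) * Real.log 2 -
        (if l = l₀ then ((J : ℝ) - R) * Real.log 2 else 0)) + K := fun l hl => by
      have hl' := mem_range.1 hl
      rw [he]
      simp only
      rw [if_neg (by omega), if_pos (by omega)]
      have e4 : n₀ + l - n₀ = l := by omega
      rw [e4]
      split_ifs <;> ring
    rw [Finset.sum_congr rfl this, Finset.sum_add_distrib, Finset.sum_sub_distrib,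
      Finset.sum_const, Finset.sum_const, Finset.card_range, nsmul_eq_mul, nsmul_eq_mul,
      Finset.sum_ite_eq' (range n₀) l₀, if_pos (mem_range.2 hl₀)]
    ring
  rw [← Finset.range_eq_Ico, Finset.sum_range_succ, two_mul, Finset.sum_range_add, hs1, hs2, ← hK]
  have hs3 : e (n₀ + n₀) = ((J : ℝ) - P) * Real.log 2 + K := by
    rw [he]
    simp only
    rw [if_neg (by omega), if_neg (by omega)]
  rw [hs3]
  ring

end Pool.ORD65
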