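import Pool.Agent.H65.ORD.Zkt
import Pool.Agent.H89.TGT.NtI
import Pool.Agent.H65.NFC.Kit
import Pool.Agent.H33.EXC.Yre

/-!
# The closed lower bound of the rows of the target, from the facts of the boxes

`RtQ`: a place of `ZmP`. `zmP_of_supY`: the rates at the places of the grids of a class, from the
facts `SupY` of the boxes and the rates `FZQ`. `nfcI_of_supY`: `NfcI` (helper78) from the facts
`SupY` of the boxes; `nfcI_of_supE`: from the chains at the boxes (helper72, helper33).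
-/

set_option autoImplicit false

namespace Pool.ORD65

open Finset Real MvPolynomial Filter
open Pool.Agent.H49.Ent Pool.Agent.H32.Dense Pool.STK Pool.KA Pool.KSAT Pool.K2S Pool.PB
open Pool.STAT Pool.STAT.CLO Pool.GEN Pool.S6C Pool.TGT Pool.SHF33 Pool.MIC6 Pool.GRW Pool.REX
open Pool.REX83 Pool.FRX Pool.NFC65
open Pool.EXC33 Pool.PKG Pool.STA
open Pool.SUPA (FF)
open Pool.OWN72 (RecExh)
open Pool.TOP (TopS)
open Pool.RTS (iso)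
open Pool.STR (NfB Nw NumI Rle)
open Pool.P4 (NFc1)

/-! ### Places -/

section place

variable {m : ℕ} {Θ : Type*} {n₀ : ℕ}

/-- Smaller bounds of the windows and of the tubes. -/
theorem ntq_mono {Kt : KitP m Θ n₀} {S : PCl m} {K' s₁ : ℕ} {sh : ℕ → ℕ} {N M : ℕ} {θ : ℝ} {p : Θ}
    {ξ ξ' : ℝ} {b : ℕ → ℕ → ℕ → ℝ} {e : ℕ → ℕ → ℝ} {i j : ℕ}
    (h : NtQ Kt S K' s₁ sh N M θ p ξ b e i j) (hξ : ξ' ≤ ξ) :
    NtQ Kt S K' s₁ sh N M θ p ξ' b e i j :=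
  fun S' hne hsub d hd wp h1 h2 q h3 KQ hb =>
    h S' hne hsub d hd wp h1 (by linarith) q (by linarith) KQ hb

theorem ntq_sub {Kt : KitP m Θ n₀} {S S₁ : PCl m} {K' s₁ : ℕ} {sh : ℕ → ℕ} {N M : ℕ} {θ : ℝ}
    {p : Θ} {ξ : ℝ} {b : ℕ → ℕ → ℕ → ℝ} {e : ℕ → ℕ → ℝ} {i j : ℕ}
    (H : NtQ Kt S K' s₁ sh N M θ p ξ b e i j)
    (hs : ∀ (τ : ℝ) (J : ℕ) (F : Fam m J) (A : F.Ω → Prop), S₁.St τ J F A → S.St τ J F A) :
    NtQ Kt S₁ K' s₁ sh N M θ p ξ b e i j :=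
  fun S' hne hsub => H S' hne fun τ J F A hA => hs τ J F A (hsub τ J F A hA)

/-- `ZmSQ` from subclasses. -/
theorem zmsq_of_sub {Kt : KitP m Θ n₀} {S : PCl m} {K' s₁ : ℕ} {sh : ℕ → ℕ} {k M N : ℕ} {θ : ℝ}
    {p : Θ} {b : ℕ → ℕ → ℕ → ℝ} {e : ℕ → ℕ → ℝ} {i j : ℕ}
    (h : ∀ S' : PCl m, S'.Ne →
      (∀ (τ : ℝ) (J : ℕ) (F : Fam m J) (A : F.Ω → Prop), S'.St τ J F A → S.St τ J F A) →
      ∃ S₁ : PCl m, S₁.Ne ∧
        (∀ (τ : ℝ) (J : ℕ) (F : Fam m J) (A : F.Ω → Prop), S₁.St τ J F A → S'.St τ J F A) ∧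
        ZmSQ Kt S₁ K' s₁ sh k M N θ p b e i j) :
    ZmSQ Kt S K' s₁ sh k M N θ p b e i j := by
  intro S' hne hsub d hd
  obtain ⟨S₁, hne₁, hsub₁, h4⟩ := h S' hne hsub
  obtain ⟨S₂, hne₂, hsub₂, h5⟩ := h4 S₁ hne₁ (fun _ _ _ _ hA => hA) d
    (fun τ J F A hA => hd τ J F A (hsub₁ τ J F A hA))
  exact ⟨S₂, hne₂, fun τ J F A hA => hsub₁ τ J F A (hsub₂ τ J F A hA), h5⟩

/-- **A place of `ZmP`**: the rate of the target given the context of the place. -/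
def RtQ (Kt : KitP m Θ n₀) (S : PCl m) (K' s₁ : ℕ) (sh : ℕ → ℕ) (x : ℝ) (M N : ℕ) (θ : ℝ)
    (p : Θ) (b : ℕ → ℕ → ℕ → ℝ) (e : ℕ → ℕ → ℝ) (i j : ℕ) : Prop :=
  ∀ S' : PCl m, S'.Ne →
    (∀ (τ : ℝ) (J : ℕ) (F : Fam m J) (A : F.Ω → Prop), S'.St τ J F A → S.St τ J F A) →
    ∀ d : ∀ (J : ℕ) (F : Fam m J), GDat F,
    (∀ (τ : ℝ) (J : ℕ) (F : Fam m J) (A : F.Ω → Prop), S'.St τ J F A →
      (Kt.grid K' s₁ sh p N M θ b e).Ok F (d J F) A) →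
    ∃ S'' : PCl m, S''.Ne ∧ (∀ (τ : ℝ) (J : ℕ) (F : Fam m J) (A : F.Ω → Prop),
      S''.St τ J F A → S'.St τ J F A) ∧
      RtY S'' (Kt.cs p) (n₀ + 1) x (1 - msh (Kt.X p) N M)
        (Kt.L p n₀ ((Kt.y p).1 + (Kt.y p).2 + i * msh (Kt.X p) N M)
          ((Kt.y p).1 + j * msh (Kt.X p) N M) + (M + 1) * msh (Kt.X p) N M)
        (Kt.L p n₀ ((Kt.y p).1 + (Kt.y p).2 + i * msh (Kt.X p) N M)
          ((Kt.y p).1 + j * msh (Kt.X p) N M) + msh (Kt.X p) N M / 2)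
        (fun J F ω => ((d J F).cd (n₀ + 1) (Kt.rc p N M θ J F (d J F))).lab2 (up (Kt.y p).1 J)
          (up (msh (Kt.X p) N M) J) i j ω)

/-- `RtQ` from subclasses. -/
theorem rtq_of_sub {Kt : KitP m Θ n₀} {S : PCl m} {K' s₁ : ℕ} {sh : ℕ → ℕ} {x : ℝ} {M N : ℕ}
    {θ : ℝ} {p : Θ} {b : ℕ → ℕ → ℕ → ℝ} {e : ℕ → ℕ → ℝ} {i j : ℕ}
    (h : ∀ S' : PCl m, S'.Ne →
      (∀ (τ : ℝ) (J : ℕ) (F : Fam m J) (A : F.Ω → Prop), S'.St τ J F A → S.St τ J F A) →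
      ∃ S₁ : PCl m, S₁.Ne ∧
        (∀ (τ : ℝ) (J : ℕ) (F : Fam m J) (A : F.Ω → Prop), S₁.St τ J F A → S'.St τ J F A) ∧
        RtQ Kt S₁ K' s₁ sh x M N θ p b e i j) :
    RtQ Kt S K' s₁ sh x M N θ p b e i j := by
  intro S' hne hsub d hd
  obtain ⟨S₁, hne₁, hsub₁, h4⟩ := h S' hne hsub
  obtain ⟨S₂, hne₂, hsub₂, h5⟩ := h4 S₁ hne₁ (fun _ _ _ _ hA => hA) d
    (fun τ J F A hA => hd τ J F A (hsub₁ τ J F A hA))
  exact ⟨S₂, hne₂, fun τ J F A hA => hsub₁ τ J F A (hsub₂ τ J F A hA), h5⟩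

/-- The rate at a place from the zoom with a shrunk target. -/
theorem ZmSQ.rtq {Kt : KitP m Θ n₀} {S : PCl m} {K' s₁ : ℕ} {sh : ℕ → ℕ} {k M N : ℕ} {θ : ℝ}
    {p : Θ} {b : ℕ → ℕ → ℕ → ℝ} {e : ℕ → ℕ → ℝ} {i j : ℕ}
    (h : ZmSQ Kt S K' s₁ sh k M N θ p b e i j) (hX : 0 ≤ Kt.X p)
    (hL : 0 ≤ Kt.L p n₀ ((Kt.y p).1 + (Kt.y p).2 + i * msh (Kt.X p) N M)
      ((Kt.y p).1 + j * msh (Kt.X p) N M))
    {C₀ : ℝ} (hC₀ : 0 ≤ C₀) (htm : TmC S C₀) {x : ℝ} (hF : FZQ k x) :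
    RtQ Kt S K' s₁ sh x M N θ p b e i j := by
  intro S' hne hsub d hd
  obtain ⟨S'', hne'', hsub'', hZ⟩ := h S' hne hsub d hd
  have hm : 0 ≤ msh (Kt.X p) N M := by
    unfold msh
    positivity
  exact ⟨S'', hne'', hsub'', hZ.rty (by linarith) (by linarith) hne'' hC₀
    (fun τ J F A hτ h => htm τ J F A hτ (hsub τ J F A (hsub'' τ J F A h))) hF⟩

end place

/-! ### The class -/

section cls

variable {n : ℕ} {hn : 2 ≤ n} {S : PCl n} {P : ℝ → ℝ → ℝ} {rr : ℝ → ℝ}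
  {P' : ℕ → List (Fin n) × Fin n → ℝ → ℝ → ℝ} {Λ : Finset (Fin n) → Fin n → ℝ → ℝ → ℝ}
  {PB : ℕ → List (Fin n) × Fin n → ℝ → ℝ → ℝ}
  (H : PkT hn S P rr P' Λ PB) {hTop : TopS n} {hF : FZX (n - 1)}
  {ρ' : ℝ → ℝ} {hρ : Rle rr ρ'}

/-- **The rates of the target at the places of the grids of a class**, from the facts of the
boxes. -/
theorem zmP_of_supY {p : ((H.nk hTop hF).chg hρ H.up).Par} {I : ℝ → BS p.cell → Prop}
    (hI : MonoI I) {c β h' Mr : ℝ} (hbs : ∀ ε q, I ε q → IsBS p.cell c β h' Mr ε q)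
    (hc : 0 < c) (hβ : 0 < β)
    (hpI : ∀ c (k : p.α × Od n) Q g ρ, p.Ad' c k Q g ρ → AdI hn S P P' c k.2 g ρ)
    (hR : RecExh n (n - 1)) (hFk : ∀ k ≤ n - 1, FZX k) {al : ℝ} {g₀ : ℝ → ℝ} (hal : 0 < al)
    (hg₀ : ∀ e, 0 < e → 0 < g₀ e) {be co : ℝ} (hbe : 0 < be) (hbe1 : be ≤ 1) (hco : 0 < co)
    (hs : SupY H p I al g₀ be co) {c₀ : ℝ} (hc₀ : 0 < c₀) (hnt : NtI H p I c₀) {x₁ : ℝ}
    (hq : FZQ (n - 1 + 1) x₁) (K K' s₁ : ℕ) (sh : ℕ → ℕ) (hK : 1 ≤ K) (hK' : 1 ≤ K') (M : ℕ) :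
    EvQ I fun N θ q => ZmP (kitN H p K).kit S K' s₁ sh x₁ M N θ q := by
  obtain ⟨T, hT⟩ : ∃ T : ℝ, T = 1 / c + 1 := ⟨_, rfl⟩
  have hT0 : 1 ≤ T := by
    rw [hT]
    have : 0 < 1 / c := by positivity
    linarith
  have hn0 : (0 : ℝ) < ((n - 1 : ℕ) : ℝ) + 1 := by positivity
  obtain ⟨x, hx⟩ : ∃ x : ℝ, x = min (be * min (1 / 2) 1 / (16 * ((n - 1 : ℕ) + 1)))
    (min (1 / 8) c₀) := ⟨_, rfl⟩
  have hx0 : 0 < x := by
    rw [hx]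
    exact lt_min (by positivity) (lt_min (by norm_num) hc₀)
  have hx1 : x ≤ be * min (1 / 2) 1 / (16 * ((n - 1 : ℕ) + 1)) := by
    rw [hx]
    exact min_le_left _ _
  have hx2 : x ≤ 1 / 8 := by rw [hx]; exact (min_le_right _ _).trans (min_le_left _ _)
  have hx3 : x ≤ c₀ := by rw [hx]; exact (min_le_right _ _).trans (min_le_right _ _)
  have hM0 : (0 : ℝ) ≤ M := Nat.cast_nonneg M
  have q1 := zmIe_of_supY H hI hbs hR hFk hal hg₀ hbe hbe1 hco hs K K' s₁ sh hK hK'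
    (show (0 : ℝ) < 1 / 2 by norm_num) M
  have q2 := labI_of_supY H hI hbs hco hs K K' s₁ sh hK hK' M (x := x / 4)
    (h₁ := al * x / 256) (by linarith) (by linarith) (by positivity)
  have q3 := actI_of_supY H hI hbs hal hg₀ hs K M (x := x / 4) (h₁ := al * x / 256) (by linarith)
    (by linarith) (by
      have : 0 < al * x := by positivity
      linarith)
  have q4 : EvQ I fun N θ q => ∀ S' : PCl n, S'.Ne →
      (∀ (τ : ℝ) (J : ℕ) (F : Fam n J) (A : F.Ω → Prop), S'.St τ J F A → S.St τ J F A) →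
      ∃ (S₁ : PCl n) (C₀ : ℝ), S₁.Ne ∧ (∀ (τ : ℝ) (J : ℕ) (F : Fam n J) (A : F.Ω → Prop),
        S₁.St τ J F A → S'.St τ J F A) ∧ 0 ≤ C₀ ∧ TmC S₁ C₀ := by
    refine ⟨1, fun N hN => ⟨1, one_pos, fun θ _ _ => (hs 1 1 one_pos one_pos N M hN).mono ?_⟩⟩
    intro q h1 S' hne hsub
    obtain ⟨S₁, C₀, L, Na, E, a1, a2, a3, a4, -⟩ := h1 S' hne hsub
    exact ⟨S₁, C₀, a1, a2, a3, a4⟩
  obtain ⟨ε, hε⟩ : ∃ ε : ℕ → ℝ, ∀ N : ℕ, ε N = 1 / (64 * (((N : ℝ) + 1) * (M + 4))) :=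
    ⟨fun N => 1 / (64 * (((N : ℝ) + 1) * (M + 4))), fun _ => rfl⟩
  have hε0 : ∀ N, 0 < ε N := fun N => by rw [hε N]; positivity
  have hεN : ∀ N : ℕ, ε N * (64 * (((N : ℝ) + 1) * (M + 4))) = 1 := fun N => by
    rw [hε N]
    exact div_mul_cancel₀ 1 (by positivity)
  have q5 : EvQ I fun N _ q => CellL (n - 1 + 1) ((kitN H p K).kit.L q) (ε N) T
      ((kitN H p K).kit.y q) ((kitN H p K).kit.X q) ((kitN H p K).kit.la q)
      ((kitN H p K).kit.ml q) := EvQ.of_evP fun N => by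
    rw [hT]
    exact (KitS.cel (Kt := kitN H p K) (M := Mr) (h := h') hc hβ (cls_hP H) (cls_hD H)
      (KitS.hlt_of hc (cls_hlt H hpI)) (ε N) (hε0 N)).sub hbs
  have q6 := hnt K K' s₁ sh hK hK' M
  have q8 := EvQ.self I (max 4 ⌈4 * (T + 2)⌉₊)
    (θ₀ := min (1 / 16) (1 / (2 * (((n - 1 : ℕ) : ℝ) + 1))))
    (ε := fun _ _ => 1) (lt_min (by norm_num) (by positivity))
    (fun _ _ _ => one_pos)
  refine ((((((q1.and hI q2).and hI q3).and hI q4).and hI q5).and hI q6).and hI q8).mono ?_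
  rintro N θ q ⟨⟨⟨⟨⟨⟨r1, r2⟩, r3⟩, r4⟩, r5⟩, r6⟩, hN, hθ, hθθ, r8⟩ b e hnear i hi1 hi j hj
  have hqq := hbs _ _ r8
  have hr := hqq.r0
  have hg0 := hqq.g0
  have hg1 := hqq.g1
  have hN4 : 4 ≤ N := (le_max_left _ _).trans hN
  have hNr : (4 : ℝ) ≤ N := by exact_mod_cast hN4
  have hNT : 4 * (T + 2) ≤ N := (Nat.le_ceil _).trans (by
    exact_mod_cast (le_max_right 4 ⌈4 * (T + 2)⌉₊).trans hN)
  have hθ1 : θ ≤ 1 / 16 := hθθ.trans (min_le_left _ _)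
  have hθ2 : θ ≤ 1 / (2 * (((n - 1 : ℕ) : ℝ) + 1)) := hθθ.trans (min_le_right _ _)
  have hζ0 : 0 < msh q.r N M := by
    unfold msh
    positivity
  have hNN : (N : ℝ) * (M + 4) ≤ (N + 1) * (M + 4) :=
    mul_le_mul_of_nonneg_right (by linarith) (by positivity)
  have hε64 : ε N * (64 * (N * (M + 4))) ≤ 1 := by
    have h1 := mul_le_mul_of_nonneg_left hNN (show 0 ≤ ε N * 64 by
      have := hε0 N
      positivity)
    have h2 := hεN N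
    linarith
  have hLpos : 0 ≤ (kitN H p K).kit.L q (n - 1)
      (((kitN H p K).kit.y q).1 + ((kitN H p K).kit.y q).2 + i * msh ((kitN H p K).kit.X q) N M)
      (((kitN H p K).kit.y q).1 + j * msh ((kitN H p K).kit.X q) N M) := by
    have hs := r5.sideE (B := 1) (by omega) (by omega) hNT (by omega) le_rfl (hε0 N).le hε64 hθ hθ1
      hnear
    have h1 := hs.pos i hi j hj (n - 1) (by omega)
    have h2 := hnear.up i hi j hj (n - 1) (by omega)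
    linarith
  refine rtq_of_sub fun S' hne hsub => ?_
  obtain ⟨S₁, C₀, a1, a2, a3, a4⟩ := r4 S' hne hsub
  have hs₁ : ∀ (τ : ℝ) (J : ℕ) (F : Fam n J) (A : F.Ω → Prop), S₁.St τ J F A → S.St τ J F A :=
    fun τ J F A hA => hsub τ J F A (a2 τ J F A hA)
  refine ⟨S₁, a1, a2, ?_⟩
  have e1 : x / 4 * msh q.r N M = x * msh q.r N M / 4 := by ring
  have hz := zmq_sub (r1 b e hnear i hi j hj) hs₁
  have hz' := zmq_mono hz (ξ' := x * msh q.r N M) (mul_le_mul_of_nonneg_right hx1 hζ0.le)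
  have hl := labfq_sub (r2 b e hnear i hi j hj) hs₁
  have ha := actF_sub (r3 i hi j hj) hs₁
  rw [e1] at hl ha
  have e2 : 2 * (x / 4) * msh q.r N M = x * msh q.r N M / 2 := by ring
  rw [e2] at ha
  have ht := ntq_mono (ntq_sub (r6 b e hnear i hi j hj) hs₁) (ξ' := x * msh q.r N M)
    (mul_le_mul_of_nonneg_right hx3 hζ0.le)
  refine ZmSQ.rtq (zms_kit (Kt := (kitN H p K).kit) (S := S₁) (p := q) (by omega)
    (hFk (n - 1) le_rfl) a3 a4 (kit_inj H p K q.k) hK' r5 hN4 hNT (hε0 N).le hε64 hθ hθ1 ?c2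
    (ka := 1 / 2) (by norm_num) ?c3 (ξ := x * msh q.r N M) (by positivity) ?c4 hnear hi hj hz' ht
    hl ⟨0, by omega⟩ ha) r5.pos.le hLpos a3 a4 hq
  case c2 =>
    show q.g + 2 * q.r + 2 * q.r < 1
    linarith
  case c3 =>
    rw [le_div_iff₀ (by positivity)] at hθ2
    linarith
  case c4 =>
    show x * msh q.r N M ≤ msh q.r N M
    have : x * msh q.r N M ≤ 1 * msh q.r N M := mul_le_mul_of_nonneg_right (by linarith) hζ0.le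
    linarith

/-- **The closed lower bound of the rows**, from the facts of the boxes. -/
theorem nfcI_of_supY {p : ((H.nk hTop hF).chg hρ H.up).Par} {I : ℝ → BS p.cell → Prop}
    (hI : MonoI I) {c β h' Mr : ℝ} (hbs : ∀ ε q, I ε q → IsBS p.cell c β h' Mr ε q)
    (hc : 0 < c) (hβ : 0 < β)
    (hpI : ∀ c (k : p.α × Od n) Q g ρ, p.Ad' c k Q g ρ → AdI hn S P P' c k.2 g ρ)
    (hR : RecExh n (n - 1)) (hFk : ∀ k ≤ n - 1, FZX k) {al : ℝ} {g₀ : ℝ → ℝ} (hal : 0 < al)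
    (hg₀ : ∀ e, 0 < e → 0 < g₀ e) {be co : ℝ} (hbe : 0 < be) (hbe1 : be ≤ 1) (hco : 0 < co)
    (hs : SupY H p I al g₀ be co) {h : ℝ} (hh : 0 < h) (hh1 : h ≤ 1)
    (hrow : ∀ ε' : ℝ, 0 < ε' → EvP I fun q =>
      NfB rr h (ε' * q.r) (P q.g q.g - q.r) (P q.g q.g + 3 * q.r)) {x : ℝ} (hx : 0 ≤ x)
    (hq : FZQ (n - 1 + 1) x) : NfcI H p x I := by
  obtain ⟨c₀, hc₀, hnt⟩ := ntI_of_supY H hI hbs hc hβ hpI hR hFk hal hg₀ hbe hbe1 hco hs hh hh1 hrow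
  intro K K' s₁ sh hK hK'
  obtain ⟨C₄, h1⟩ := hnfc_zoom (S := S) hI H.tmh.1 (kitN H p K).kit (fun q => kit_inj H p K q.k)
    (T' := 1 / c + 1) (fun ε' hε' => (KitS.cel (Kt := kitN H p K) (M := Mr) (h := h') hc hβ
      (cls_hP H) (cls_hD H) (KitS.hlt_of hc (cls_hlt H hpI)) ε' hε').sub hbs)
    (s₁ := s₁) (sh := sh) hK' (PB := fun _ => True) hx
    (zmP_of_supY H hI hbs hc hβ hpI hR hFk hal hg₀ hbe hbe1 hco hs hc₀ hnt hq K K' s₁ sh hK hK')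
  exact ⟨C₄, fun C₁ hC₁ M' => h1 C₁ hC₁ (n + 2) (by omega) trivial M'⟩

/-- **The closed lower bound of the rows**, from the facts of the boxes, at most four
coordinates. -/
theorem nfcI_supY (hn4 : n ≤ 4) {p : ((H.nk hTop hF).chg hρ H.up).Par}
    {I : ℝ → BS p.cell → Prop}
    (hI : MonoI I) {c β h' Mr : ℝ} (hbs : ∀ ε q, I ε q → IsBS p.cell c β h' Mr ε q)
    (hc : 0 < c) (hβ : 0 < β)
    (hpI : ∀ c (k : p.α × Od n) Q g ρ, p.Ad' c k Q g ρ → AdI hn S P P' c k.2 g ρ)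
    (hFk : ∀ k ≤ n - 1, FZX k) {al : ℝ} {g₀ : ℝ → ℝ} (hal : 0 < al)
    (hg₀ : ∀ e, 0 < e → 0 < g₀ e) {be co : ℝ} (hbe : 0 < be) (hbe1 : be ≤ 1) (hco : 0 < co)
    (hs : SupY H p I al g₀ be co) {h : ℝ} (hh : 0 < h) (hh1 : h ≤ 1)
    (hrow : ∀ ε' : ℝ, 0 < ε' → EvP I fun q =>
      NfB rr h (ε' * q.r) (P q.g q.g - q.r) (P q.g q.g + 3 * q.r)) {x : ℝ} (hx : 0 ≤ x)
    (hq : FZQ (n - 1 + 1) x) : NfcI H p x I :=
  nfcI_of_supY H hI hbs hc hβ hpI (Pool.OWN72.rec_exh n (n - 1) (by omega) (by omega)) hFk hal hg₀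
    hbe hbe1 hco hs hh hh1 hrow hx hq

/-- **The closed lower bound of the rows**, from the chains at the boxes, at most four
coordinates. -/
theorem nfcI_supE (hn4 : n ≤ 4) {p : ((H.nk hTop hF).chg hρ H.up).Par}
    {I : ℝ → BS p.cell → Prop}
    (hI : MonoI I) {c β h' Mr : ℝ} (hbs : ∀ ε q, I ε q → IsBS p.cell c β h' Mr ε q)
    (hc : 0 < c) (hβ : 0 < β)
    (hpI : ∀ c (k : p.α × Od n) Q g ρ, p.Ad' c k Q g ρ → AdI hn S P P' c k.2 g ρ)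
    (hFk : ∀ k ≤ n - 1, FZX k) {al : ℝ} {g₀ : ℝ → ℝ} (hal : 0 < al)
    (hg₀ : ∀ e, 0 < e → 0 < g₀ e) {be co : ℝ} (hbe : 0 < be) (hbe1 : be ≤ 1) (hco : 0 < co)
    (hE : SupE H p I al g₀ be co) (hX : ExwB H p I) {h : ℝ} (hh : 0 < h) (hh1 : h ≤ 1)
    (hrow : ∀ ε' : ℝ, 0 < ε' → EvP I fun q =>
      NfB rr h (ε' * q.r) (P q.g q.g - q.r) (P q.g q.g + 3 * q.r)) {x : ℝ} (hx : 0 ≤ x)
    (hq : FZQ (n - 1 + 1) x) : NfcI H p x I :=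
  nfcI_supY H hn4 hI hbs hc hβ hpI hFk hal hg₀ hbe hbe1 hco
    (supY_of_supE H hI hbs hbe hco hE hX) hh hh1 hrow hx hq

end cls

end Pool.ORD65
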