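import Pool.Agent.H65.ORD.Last
import Pool.Agent.H45.REC.Tch
import Pool.Agent.H6.OWN.AfcF
import Pool.Agent.H6.OWN.NgD

/-!
# Labels of the zooms from labels which are functions of the record

`rem_lab`: the position and the gradients of a label which is a function of the line are controlled
at all times of the window. `zlg`: the label of the family in the coordinates of the zoom.
`zlb_one`: a label which is a function of the visible variable gives a label of the zoom, with small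
gradients at the points (`LbS`).
-/

set_option autoImplicit false

namespace Pool.ORD65

open Finset Real MvPolynomial
open Pool.Agent.H49.Ent Pool.Agent.H32.Dense Pool.STK Pool.KA Pool.KSAT Pool.K2S Pool.PB Pool.GEN
open Pool.S6C Pool.GRD Pool.REX Pool.MIC6
open Pool.GRW (big sc_units)
open Pool.FLF (Fam.sub)
open Pool.PB.Trl (rt rt_mem t_rt)

variable {m n J : ℕ}

/-! ### Remez in the time -/

theorem eval_lcw (F : Fam m J) (w : ℕ) (ω : F.Ω) (o : Option (Fin m)) (σ : ℝ) :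
    (lc w (slam F w ω) o).eval σ = wpt F w ω σ o := by
  cases o with
  | none =>
    simp only [lc, Polynomial.eval_add, Polynomial.eval_mul, Polynomial.eval_C, Polynomial.eval_X]
    rfl
  | some j =>
    simp only [lc, Polynomial.eval_add, Polynomial.eval_mul, Polynomial.eval_C, Polynomial.eval_X]
    rfl

theorem wpt_rt (F : Fam m J) {w : ℕ} (hw : w ≤ J) (ω : F.Ω) (o : Option (Fin m)) :
    wpt F w ω (rt F w ω) o = bt F ω o := by
  rw [← eval_lcw, eval_lc F hw]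

/-- **Remez inequality for a label**, with its gradients. -/
theorem rem_lab (m n K : ℕ) : ∃ C : ℝ, 1 ≤ C ∧ ∀ {J : ℕ} (F : Fam m J) (A : F.Ω → Prop)
    (hA : 0 < Pe F.p A) {w : ℕ} (ε : Fin n → Fin m) (G : LnT F → MvPolynomial (Option (Fin n)) ℝ)
    (k : Fin n) {S₀ S₁ θ : ℝ}, w ≤ J → (∀ s, (G s).totalDegree ≤ K) → 0 < S₀ → 0 < S₁ → 0 ≤ θ →
    (Fam.sub F A hA).Tm θ → C * (θ + 1) ≤ ((J : ℝ) - w) * Real.log 2 →
    (∀ ω, A ω → |F.x ω (ε k) - eval (fun o => bt F ω (o.map ε)) (G (slam F w ω))| ≤ S₀) →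
    (∀ ω, A ω → ∀ i, |eval (fun o => bt F ω (o.map ε)) (pderiv (some i) (G (slam F w ω)))| ≤ S₁) →
    ∃ B : F.Ω → Prop, Sub B A ∧ Pe F.p A / 2 ≤ Pe F.p B ∧ ∀ ω, B ω → ∀ σ ∈ Set.Icc (0 : ℝ) 1,
      |wp F w ω σ (ε k) - eval (fun o => wpt F w ω σ (o.map ε)) (G (slam F w ω))| ≤
        Real.exp (C * (θ + 1)) * S₀ ∧
      ∀ i, |eval (fun o => wpt F w ω σ (o.map ε)) (pderiv (some i) (G (slam F w ω)))| ≤
        Real.exp (C * (θ + 1)) * S₁ := by
  classical
  obtain ⟨C₁, hC₁, hrem⟩ := Pool.PZ.Zrt.rem_ev (m := m) (2 * (K + 1))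
  have hn1 : (1 : ℝ) ≤ (n : ℝ) + 1 := by
    have : (0 : ℝ) ≤ n := Nat.cast_nonneg n
    linarith
  have hlog : 0 ≤ Real.log ((n : ℝ) + 1) := Real.log_nonneg hn1
  refine ⟨C₁ + Real.log ((n : ℝ) + 1), by linarith, ?_⟩
  intro J F A hA w ε G k S₀ S₁ θ hw hG hS₀ hS₁ hθ hTm hJ hpos hgr
  obtain ⟨p₀, hp₀⟩ : ∃ p₀ : LnT F → Polynomial ℝ, p₀ = fun s => lc w s (some (ε k)) -
    aeval (fun o => lc w s (o.map ε)) (G s) := ⟨_, rfl⟩
  obtain ⟨p₁, hp₁⟩ : ∃ p₁ : LnT F → Fin n → Polynomial ℝ, p₁ = fun s i =>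
    aeval (fun o => lc w s (o.map ε)) (pderiv (some i) (G s)) := ⟨_, rfl⟩
  obtain ⟨q, hq⟩ : ∃ q : LnT F → Polynomial ℝ, q = fun s => (Polynomial.C (1 / S₀) * p₀ s) ^ 2 +
    ∑ i, (Polynomial.C (1 / S₁) * p₁ s i) ^ 2 := ⟨_, rfl⟩
  have d0 : ∀ s, (p₀ s).natDegree ≤ K + 1 := by
    intro s
    rw [hp₀]
    refine (Polynomial.natDegree_sub_le _ _).trans (max_le ((natDegree_lc w s _).trans
      (by omega)) ?_)
    exact (Pool.KBX.natDegree_aeval_le _ _ (fun o => natDegree_lc w s _) (hG s)).trans (by omega)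
  have d1 : ∀ s i, (p₁ s i).natDegree ≤ K + 1 := by
    intro s i
    rw [hp₁]
    exact (Pool.KBX.natDegree_aeval_le _ _ (fun o => natDegree_lc w s _)
      ((Pool.Agent.H50.PW.totalDegree_pderiv_le _ _).trans (hG s))).trans (by omega)
  have e0 : ∀ ω σ, (p₀ (slam F w ω)).eval σ = wp F w ω σ (ε k) -
      eval (fun o => wpt F w ω σ (o.map ε)) (G (slam F w ω)) := by
    intro ω σ
    rw [hp₀]
    show (lc w (slam F w ω) (some (ε k)) - aeval (fun o => lc w (slam F w ω) (o.map ε))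
      (G (slam F w ω))).eval σ = _
    rw [Polynomial.eval_sub, Pool.KBX.eval_aeval_poly, eval_lcw]
    have : (fun i : Option (Fin n) => (lc w (slam F w ω) (i.map ε)).eval σ) =
        fun o => wpt F w ω σ (o.map ε) := by
      funext o
      exact eval_lcw F w ω _ σ
    rw [this]
    rfl
  have e1 : ∀ ω σ i, (p₁ (slam F w ω) i).eval σ =
      eval (fun o => wpt F w ω σ (o.map ε)) (pderiv (some i) (G (slam F w ω))) := by
    intro ω σ i
    rw [hp₁]
    show (aeval (fun o => lc w (slam F w ω) (o.map ε)) (pderiv (some i)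
      (G (slam F w ω)))).eval σ = _
    rw [Pool.KBX.eval_aeval_poly]
    have : (fun i : Option (Fin n) => (lc w (slam F w ω) (i.map ε)).eval σ) =
        fun o => wpt F w ω σ (o.map ε) := by
      funext o
      exact eval_lcw F w ω _ σ
    rw [this]
  have ert : ∀ ω, (fun o : Option (Fin n) => wpt F w ω (rt F w ω) (o.map ε)) =
      fun o => bt F ω (o.map ε) := by
    intro ω
    funext o
    exact wpt_rt F hw ω _
  have eq0 : ∀ s σ, (q s).eval σ = (1 / S₀ * (p₀ s).eval σ) ^ 2 +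
      ∑ i, (1 / S₁ * (p₁ s i).eval σ) ^ 2 := by
    intro s σ
    rw [hq]
    simp only [Polynomial.eval_add, Polynomial.eval_pow, Polynomial.eval_mul, Polynomial.eval_C,
      Polynomial.eval_finsetSum]
  obtain ⟨B, hBA, hPB, hB⟩ := hrem J F A hA w q ((n : ℝ) + 1) θ hw (fun s => by
      rw [hq]
      refine (Polynomial.natDegree_add_le _ _).trans (max_le ?_ ?_)
      · refine Polynomial.natDegree_pow_le.trans (Nat.mul_le_mul_left 2 ?_)
        exact (Polynomial.natDegree_C_mul_le _ _).trans (d0 s)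
      · refine Polynomial.natDegree_sum_le_of_forall_le _ _ fun i _ => ?_
        refine Polynomial.natDegree_pow_le.trans (Nat.mul_le_mul_left 2 ?_)
        exact (Polynomial.natDegree_C_mul_le _ _).trans (d1 s i)) (by linarith) hθ hTm (by
      refine le_trans ?_ hJ
      exact mul_le_mul_of_nonneg_right (by linarith) (by linarith)) (by
      intro ω hω
      have a0 : |1 / S₀ * (p₀ (slam F w ω)).eval (rt F w ω)| ≤ 1 := by
        rw [abs_mul, abs_of_pos (by positivity : (0 : ℝ) < 1 / S₀), one_div, inv_mul_le_iff₀ hS₀,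
          mul_one, e0, ert]
        have h1 := hpos ω hω
        have h2 : wp F w ω (rt F w ω) (ε k) = F.x ω (ε k) := wpt_rt F hw ω (some (ε k))
        rw [h2]
        exact h1
      have a1 : ∀ i, |1 / S₁ * (p₁ (slam F w ω) i).eval (rt F w ω)| ≤ 1 := by
        intro i
        rw [abs_mul, abs_of_pos (by positivity : (0 : ℝ) < 1 / S₁), one_div, inv_mul_le_iff₀ hS₁,
          mul_one, e1, ert]
        exact hgr ω hω i
      have a2 : ∀ x : ℝ, |x| ≤ 1 → x ^ 2 ≤ 1 := by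
        intro x hx
        rw [← sq_abs]
        exact pow_le_one₀ (abs_nonneg _) hx
      rw [eq0, abs_of_nonneg (add_nonneg (sq_nonneg _) (Finset.sum_nonneg fun i _ => sq_nonneg _))]
      have a3 : ∑ i, (1 / S₁ * (p₁ (slam F w ω) i).eval (rt F w ω)) ^ 2 ≤ (n : ℝ) := by
        refine (Finset.sum_le_sum fun i _ => a2 _ (a1 i)).trans (le_of_eq ?_)
        rw [Finset.sum_const, Finset.card_univ, Fintype.card_fin, nsmul_eq_mul, mul_one]
      linarith [a2 _ a0])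
  refine ⟨B, hBA, hPB, fun ω hω σ hσ => ?_⟩
  have h1 := hB ω hω σ hσ
  rw [eq0, abs_of_nonneg (add_nonneg (sq_nonneg _) (Finset.sum_nonneg fun i _ => sq_nonneg _))] at h1
  obtain ⟨E, hE⟩ : ∃ E, E = Real.exp ((C₁ + Real.log ((n : ℝ) + 1)) * (θ + 1)) := ⟨_, rfl⟩
  have hE1 : Real.exp (C₁ * (θ + 1)) * ((n : ℝ) + 1) ≤ E := by
    have h2 : (n : ℝ) + 1 ≤ Real.exp (Real.log ((n : ℝ) + 1) * (θ + 1)) := by
      calc (n : ℝ) + 1 = Real.exp (Real.log ((n : ℝ) + 1)) := (Real.exp_log (by linarith)).symm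
        _ ≤ _ := Real.exp_le_exp.2 (by nlinarith)
    rw [hE, add_mul, Real.exp_add]
    exact mul_le_mul_of_nonneg_left h2 (Real.exp_pos _).le
  have hE2 : 1 ≤ E := by
    rw [hE]
    exact Real.one_le_exp (by positivity)
  have key : ∀ x S : ℝ, 0 < S → (1 / S * x) ^ 2 ≤ E → |x| ≤ E * S := by
    intro x S hS hx
    have h2 : |1 / S * x| ≤ E := by
      by_contra hcon
      push Not at hcon
      have h3 : E * E < (1 / S * x) ^ 2 := by
        rw [← sq_abs, sq]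
        exact mul_lt_mul'' hcon hcon (by linarith) (by linarith)
      nlinarith
    rwa [abs_mul, abs_of_pos (by positivity : (0 : ℝ) < 1 / S), one_div, inv_mul_le_iff₀ hS,
      mul_comm] at h2
  rw [← hE]
  have hs0 : 0 ≤ ∑ i, (1 / S₁ * (p₁ (slam F w ω) i).eval σ) ^ 2 :=
    Finset.sum_nonneg fun i _ => sq_nonneg _
  constructor
  · rw [← e0]
    exact key _ _ hS₀ (by linarith)
  · intro i
    rw [← e1]
    refine key _ _ hS₁ ?_
    have h2 := Finset.single_le_sum (f := fun i => (1 / S₁ * (p₁ (slam F w ω) i).eval σ) ^ 2)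
      (fun i _ => sq_nonneg _) (Finset.mem_univ i)
    have h3 := sq_nonneg (1 / S₀ * (p₀ (slam F w ω)).eval σ)
    linarith

/-! ### The label in the coordinates of the zoom -/

section zoom

variable (F : Fam m J) {B P : ℕ} (hP : P ≤ J - B) {Y : Type} (yy : F.Ω → Y) (ε : Fin n → Fin m)

/-- The change of the coordinates. -/
noncomputable def zsb (v : (zmV F hP yy ε).ζ) : Option (Fin n) → MvPolynomial (Option (Fin n)) ℝ
  | none => C ((v.2.2.1.1 : ℝ) / 2 ^ B) + C (1 / 2 ^ B) * X none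
  | some j => C ((2 ^ P * (v.2.2.1.2 (ε j) : ℝ) + (v.1.1 j : ℝ)) / 2 ^ (B + P)) +
      C ((v.1.2 j : ℝ) / 2 ^ (B + P)) * X none + C (1 / 2 ^ (B + P)) * X (some j)

/-- **The label in the coordinates of the zoom.** -/
noncomputable def zlg (G : Y → MvPolynomial (Option (Fin n)) ℝ) (k : Fin n)
    (v : (zmV F hP yy ε).ζ) : MvPolynomial (Option (Fin n)) ℝ :=
  C (2 ^ (B + P)) * aeval (zsb F hP yy ε v) (G v.2.1) -
    (C (2 ^ P * (v.2.2.1.2 (ε k) : ℝ) + (v.1.1 k : ℝ)) + C (v.1.2 k : ℝ) * X none)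

theorem zsb_deg (v : (zmV F hP yy ε).ζ) (o : Option (Fin n)) :
    (zsb F hP yy ε v o).totalDegree ≤ 1 := by
  have h1 : ∀ (a : ℝ) (o' : Option (Fin n)),
      (C a * X o' : MvPolynomial (Option (Fin n)) ℝ).totalDegree ≤ 1 := by
    intro a o'
    refine (totalDegree_mul _ _).trans ?_
    rw [totalDegree_C, totalDegree_X]
  have h2 : ∀ a : ℝ, (C a : MvPolynomial (Option (Fin n)) ℝ).totalDegree ≤ 1 := by
    intro a
    rw [totalDegree_C]
    omega
  cases o with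
  | none => exact (totalDegree_add _ _).trans (max_le (h2 _) (h1 _ _))
  | some j =>
    exact (totalDegree_add _ _).trans (max_le ((totalDegree_add _ _).trans
      (max_le (h2 _) (h1 _ _))) (h1 _ _))

theorem zlg_deg {K : ℕ} {G : Y → MvPolynomial (Option (Fin n)) ℝ} (hG : ∀ y, (G y).totalDegree ≤ K)
    (k : Fin n) (v : (zmV F hP yy ε).ζ) : (zlg F hP yy ε G k v).totalDegree ≤ max K 1 := by
  unfold zlg
  refine (totalDegree_sub _ _).trans (max_le ?_ ?_)
  · refine (totalDegree_mul _ _).trans ?_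
    rw [totalDegree_C, zero_add]
    refine (totalDegree_aevalσ (d := 1) (zsb_deg F hP yy ε v) (hG _)).trans ?_
    rw [one_mul]
    exact le_max_left _ _
  · refine le_trans ?_ (le_max_right _ _)
    refine (totalDegree_add _ _).trans (max_le ?_ ?_)
    · rw [totalDegree_C]
      omega
    · refine (totalDegree_mul _ _).trans ?_
      rw [totalDegree_C, totalDegree_X]

theorem eval_zlg (G : Y → MvPolynomial (Option (Fin n)) ℝ) (k : Fin n) (v : (zmV F hP yy ε).ζ)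
    (b : Option (Fin n) → ℝ) : eval b (zlg F hP yy ε G k v) =
      2 ^ (B + P) * eval (fun o => eval b (zsb F hP yy ε v o)) (G v.2.1) -
        ((2 ^ P * (v.2.2.1.2 (ε k) : ℝ) + (v.1.1 k : ℝ)) + (v.1.2 k : ℝ) * b none) := by
  unfold zlg
  rw [map_sub, map_add, map_mul, map_mul, eval_C, eval_C, eval_C, eval_X, eval_aevalσ]

theorem zlg_dep {I : Finset (Fin n)} {G : Y → MvPolynomial (Option (Fin n)) ℝ}
    (hG : ∀ y, ∀ b b' : Option (Fin n) → ℝ, b none = b' none →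
      (∀ i ∈ I, b (some i) = b' (some i)) → eval b (G y) = eval b' (G y)) (k : Fin n)
    (v : (zmV F hP yy ε).ζ) (b b' : Option (Fin n) → ℝ) (h0 : b none = b' none)
    (hb : ∀ i ∈ I, b (some i) = b' (some i)) :
    eval b (zlg F hP yy ε G k v) = eval b' (zlg F hP yy ε G k v) := by
  rw [eval_zlg, eval_zlg, h0]
  congr 2
  refine hG _ _ _ ?_ fun i hi => ?_
  · show eval b (C _ + C _ * X none) = eval b' (C _ + C _ * X none)
    simp only [map_add, map_mul, eval_C, eval_X]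
    rw [h0]
  · show eval b (C _ + C _ * X none + C _ * X (some i)) =
      eval b' (C _ + C _ * X none + C _ * X (some i))
    simp only [map_add, map_mul, eval_C, eval_X]
    rw [h0, hb i hi]

/-- The gradient in a coordinate. -/
theorem pd_zlg (G : Y → MvPolynomial (Option (Fin n)) ℝ) (k i : Fin n) (v : (zmV F hP yy ε).ζ)
    (b : Option (Fin n) → ℝ) : eval b (pderiv (some i) (zlg F hP yy ε G k v)) =
      eval (fun o => eval b (zsb F hP yy ε v o)) (pderiv (some i) (G v.2.1)) := by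
  classical
  unfold zlg
  have e1 : pderiv (some i) (C (2 ^ P * (v.2.2.1.2 (ε k) : ℝ) + (v.1.1 k : ℝ)) +
      C (v.1.2 k : ℝ) * X none : MvPolynomial (Option (Fin n)) ℝ) = 0 := by
    rw [map_add, pderiv_C, zero_add, pderiv_C_mul, pderiv_X_of_ne (by simp), mul_zero]
  rw [map_sub, e1, sub_zero, pderiv_C_mul, map_mul, eval_C, pd_aeval, map_sum]
  rw [Finset.sum_eq_single (some i)]
  · rw [map_mul, eval_aevalσ]
    have e2 : eval b (pderiv (some i) (zsb F hP yy ε v (some i))) = 1 / 2 ^ (B + P) := by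
      show eval b (pderiv (some i) (C _ + C _ * X none + C _ * X (some i))) = _
      rw [map_add, map_add, map_add, map_add, pderiv_C, map_zero, zero_add, pderiv_C_mul,
        pderiv_C_mul, pderiv_X_of_ne (by simp), pderiv_X_self, mul_zero, map_zero, zero_add,
        mul_one, eval_C]
    rw [e2]
    have p1 : (0 : ℝ) < 2 ^ (B + P) := by positivity
    field_simp
  · intro o _ ho
    rw [map_mul]
    have e2 : pderiv (some i) (zsb F hP yy ε v o) = 0 := by
      cases o with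
      | none =>
        show pderiv (some i) (C _ + C _ * X none) = _
        rw [map_add, pderiv_C, zero_add, pderiv_C_mul, pderiv_X_of_ne (by simp), mul_zero]
      | some j =>
        show pderiv (some i) (C _ + C _ * X none + C _ * X (some j)) = _
        rw [map_add, map_add, pderiv_C, zero_add, pderiv_C_mul, pderiv_C_mul,
          pderiv_X_of_ne (by simp), pderiv_X_of_ne ho, mul_zero, mul_zero, zero_add]
    rw [e2, map_zero, mul_zero]
  · intro h
    exact absurd (Finset.mem_univ _) h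

/-- The point of the family. -/
theorem eval_zsb (hB : B ≤ J) {w : ℕ} (hw : w ≤ J - B - P) (ω : F.Ω) (σ : ℝ) :
    (fun o => eval (wpt (zmV F hP yy ε) w ω σ) (zsb F hP yy ε ((zmV F hP yy ε).Z ω) o)) =
      fun o => wpt F (B + w) ω σ (o.map ε) := by
  have pB : (0 : ℝ) < 2 ^ B := by positivity
  have pBP : (0 : ℝ) < 2 ^ (B + P) := by positivity
  have ht := zmV_wt F hP yy ε hB hw ω σ
  funext o
  cases o with
  | none =>
    show eval (wpt (zmV F hP yy ε) w ω σ) (C ((F.T1 B ω : ℝ) / 2 ^ B) + C (1 / 2 ^ B) * X none) =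
      wt F (B + w) ω σ
    rw [map_add, map_mul, eval_C, eval_C, eval_X]
    show (F.T1 B ω : ℝ) / 2 ^ B + 1 / 2 ^ B * wt (zmV F hP yy ε) w ω σ = _
    rw [ht]
    field_simp
    ring
  | some j =>
    show eval (wpt (zmV F hP yy ε) w ω σ) (C ((2 ^ P * (fl B (F.x1 B ω) (ε j) : ℝ) +
      (((F.win B).L P ω).1 (ε j) : ℝ)) / 2 ^ (B + P)) +
      C ((((F.win B).L P ω).2 (ε j) : ℝ) / 2 ^ (B + P)) * X none +
        C (1 / 2 ^ (B + P)) * X (some j)) = wp F (B + w) ω σ (ε j)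
    rw [map_add, map_add, map_mul, map_mul, eval_C, eval_C, eval_C, eval_X, eval_X]
    show (2 ^ P * (fl B (F.x1 B ω) (ε j) : ℝ) + (((F.win B).L P ω).1 (ε j) : ℝ)) / 2 ^ (B + P) +
      (((F.win B).L P ω).2 (ε j) : ℝ) / 2 ^ (B + P) * wt (zmV F hP yy ε) w ω σ +
        1 / 2 ^ (B + P) * wp (zmV F hP yy ε) w ω σ j = _
    rw [zmV_wp F hP yy ε hB hw ω σ j]
    field_simp
    ring

/-- The deviation in the zoom. -/
theorem zlg_pos (hB : B ≤ J) {w : ℕ} (hw : w ≤ J - B - P)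
    (G : Y → MvPolynomial (Option (Fin n)) ℝ) (k : Fin n) (ω : F.Ω) (σ : ℝ) :
    wp (zmV F hP yy ε) w ω σ k - eval (wpt (zmV F hP yy ε) w ω σ)
      (zlg F hP yy ε G k ((zmV F hP yy ε).Z ω)) =
      2 ^ (B + P) * (wp F (B + w) ω σ (ε k) -
        eval (fun o => wpt F (B + w) ω σ (o.map ε)) (G (yy ω))) := by
  have ht := zmV_wt F hP yy ε hB hw ω σ
  rw [eval_zlg, eval_zsb F hP yy ε hB hw ω σ, zmV_wp F hP yy ε hB hw ω σ k]
  show 2 ^ (B + P) * wp F (B + w) ω σ (ε k) -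
    (2 ^ P * (fl B (F.x1 B ω) (ε k) : ℝ) + (((F.win B).L P ω).1 (ε k) : ℝ) +
      (((F.win B).L P ω).2 (ε k) : ℝ) * wt (zmV F hP yy ε) w ω σ) -
    (2 ^ (B + P) * eval (fun o => wpt F (B + w) ω σ (o.map ε)) (G (yy ω)) -
      ((2 ^ P * (fl B (F.x1 B ω) (ε k) : ℝ) + (((F.win B).L P ω).1 (ε k) : ℝ)) +
        (((F.win B).L P ω).2 (ε k) : ℝ) * wt (zmV F hP yy ε) w ω σ)) = _
  ring

end zoom

/-- **A label which is a function of the visible variable is a label of the zoom.** -/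
theorem zlb_one (m n K : ℕ) : ∃ C : ℝ, 1 ≤ C ∧ ∀ {J : ℕ} (F : Fam m J) {B P wz : ℕ}
    (hP : P ≤ J - B) {Y : Type} (yy : F.Ω → Y) (ε : Fin n → Fin m) {I : Finset (Fin n)}
    {k : Fin n} {G : Y → MvPolynomial (Option (Fin n)) ℝ} {A : F.Ω → Prop} {P₁ q r Q : ℕ} {θ : ℝ},
    B ≤ J → wz ≤ J - B - P → 0 < Pe F.p A →
    (∀ ω ω', slam F B ω = slam F B ω' → yy ω = yy ω') → (∀ y, (G y).totalDegree ≤ K) →
    (∀ y, ∀ b b' : Option (Fin n) → ℝ, b none = b' none →
      (∀ i ∈ I, b (some i) = b' (some i)) → eval b (G y) = eval b' (G y)) →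
    (∀ ω, A ω → |F.x ω (ε k) - eval (fun o => bt F ω (o.map ε)) (G (yy ω))| ≤ 2 ^ q / 2 ^ P₁) →
    (∀ ω, A ω → ∀ i, |eval (fun o => bt F ω (o.map ε)) (pderiv (some i) (G (yy ω)))| ≤ 2 ^ q) →
    0 ≤ θ → (∀ A' : F.Ω → Prop, Sub A' A → Pe F.p A ≤ 2 * Pe F.p A' → ∀ h : 0 < Pe F.p A',
      (Fam.sub F A' h).Tm θ ∧ (Fam.sub (zmV F hP yy ε) A' h).Tm θ) →
    C * (θ + 1) ≤ (((J - B - P : ℕ) : ℝ) - wz) * Real.log 2 → C * (θ + 1) ≤ q * Real.log 2 →
    B + P + Q + 2 * q ≤ P₁ → wz ≤ Q + r →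
    ∃ A' : F.Ω → Prop, Sub A' A ∧ Pe F.p A ≤ 4 * Pe F.p A' ∧ ∃ (V : Type)
      (z : PtT (zmV F hP yy ε) → V) (z' : LnT (zmV F hP yy ε) → V)
      (G' : V → MvPolynomial (Option (Fin n)) ℝ),
      LbS (zmV F hP yy ε) I k (max K 1) (2 * q + r + n + 2) (J - B - P) wz Q A' z z' G' := by
  classical
  obtain ⟨C₁, hC₁, hrem⟩ := rem_lab m n K
  obtain ⟨C₂, hC₂, hvel⟩ := vel_one n (max K 1)
  refine ⟨C₁ + C₂, by linarith, ?_⟩
  intro J F B P wz hP Y yy ε I k G A P₁ q r Q θ hB hwz hA hy hdeg hdep hpos hgr hθ hTm hJ hq hPQ hwQ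
  have hθ1 : 0 ≤ θ + 1 := by linarith
  have hl2 : 0 < Real.log 2 := Real.log_pos one_lt_two
  have hW : B + wz ≤ J := by omega
  -- the label as a function of the line
  obtain ⟨Gs, hGs⟩ : ∃ Gs : LnT F → MvPolynomial (Option (Fin n)) ℝ, Gs = fun s =>
      if h : ∃ ω, slam F (B + wz) ω = s then G (yy h.choose) else 0 := ⟨_, rfl⟩
  have eGs : ∀ ω, Gs (slam F (B + wz) ω) = G (yy ω) := by
    intro ω
    have h : ∃ ω', slam F (B + wz) ω' = slam F (B + wz) ω := ⟨ω, rfl⟩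
    rw [hGs]
    show (if h : ∃ ω', slam F (B + wz) ω' = slam F (B + wz) ω then G (yy h.choose) else 0) = _
    rw [dif_pos h]
    congr 1
    refine hy _ _ ?_
    rw [Pool.PB.slam_coarse F (Nat.le_add_right B wz) hW h.choose,
      Pool.PB.slam_coarse F (Nat.le_add_right B wz) hW ω, h.choose_spec]
  have hGsd : ∀ s, (Gs s).totalDegree ≤ K := by
    intro s
    rw [hGs]
    show (if h : ∃ ω, slam F (B + wz) ω = s then G (yy h.choose) else 0).totalDegree ≤ K
    split_ifs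
    · exact hdeg _
    · rw [totalDegree_zero]
      exact Nat.zero_le _
  have hexp : ∀ C' : ℝ, 0 ≤ C' → C' ≤ C₁ + C₂ → Real.exp (C' * (θ + 1)) ≤ 2 ^ q := by
    intro C' _ hC'
    have h1 : C' * (θ + 1) ≤ q * Real.log 2 :=
      (mul_le_mul_of_nonneg_right hC' hθ1).trans hq
    calc Real.exp (C' * (θ + 1)) ≤ Real.exp (q * Real.log 2) := Real.exp_le_exp.2 h1
      _ = 2 ^ q := by rw [mul_comm, Real.exp_mul, Real.exp_log two_pos, Real.rpow_natCast]
  have hE₁ := hexp C₁ (by linarith) (by linarith)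
  have hE₂ := hexp C₂ (by linarith) (by linarith)
  have hJ' : (((J - B - P : ℕ) : ℝ) - wz) ≤ (J : ℝ) - (B + wz : ℕ) := by
    have h1 : J - B - P + (B + wz) ≤ J + wz := by omega
    have h2 : ((J - B - P : ℕ) : ℝ) + ((B + wz : ℕ) : ℝ) ≤ (J : ℝ) + wz := by exact_mod_cast h1
    linarith
  obtain ⟨B₁, hB₁A, hPB₁, hB₁⟩ := hrem F A hA (w := B + wz) ε Gs k (S₀ := 2 ^ q / 2 ^ P₁)
    (S₁ := 2 ^ q) hW hGsd (by positivity) (by positivity) hθ
    (hTm A (fun _ h => h) (by linarith) hA).1 (by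
      refine le_trans ?_ (mul_le_mul_of_nonneg_right hJ' hl2.le)
      refine le_trans ?_ hJ
      exact mul_le_mul_of_nonneg_right (by linarith) hθ1) (fun ω hω => by
      rw [eGs]
      exact hpos ω hω) (fun ω hω i => by
      rw [eGs]
      exact hgr ω hω i)
  have hB₁0 : 0 < Pe F.p B₁ := by linarith
  -- the deviation in the zoom
  have hrt : ∀ ω o, wpt (zmV F hP yy ε) wz ω (rt (zmV F hP yy ε) wz ω) o =
      bt (zmV F hP yy ε) ω o := fun ω o => wpt_rt (zmV F hP yy ε) hwz ω o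
  have hpos' : ∀ ω, B₁ ω → |(zmV F hP yy ε).x ω k - eval (bt (zmV F hP yy ε) ω)
      (zlg F hP yy ε G k ((zmV F hP yy ε).Z ω))| ≤ 1 / 2 ^ Q := by
    intro ω hω
    have h1 := zlg_pos F hP yy ε hB hwz G k ω (rt (zmV F hP yy ε) wz ω)
    have h2 : wp (zmV F hP yy ε) wz ω (rt (zmV F hP yy ε) wz ω) k = (zmV F hP yy ε).x ω k :=
      hrt ω (some k)
    have h3 : wpt (zmV F hP yy ε) wz ω (rt (zmV F hP yy ε) wz ω) = bt (zmV F hP yy ε) ω :=
      funext (hrt ω)
    rw [h2, h3] at h1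
    have h4 := (hB₁ ω hω (rt (zmV F hP yy ε) wz ω) (rt_mem (zmV F hP yy ε) wz ω)).1
    rw [eGs] at h4
    rw [h1, abs_mul, abs_of_pos (by positivity : (0 : ℝ) < 2 ^ (B + P))]
    calc 2 ^ (B + P) * |wp F (B + wz) ω (rt (zmV F hP yy ε) wz ω) (ε k) -
          eval (fun o => wpt F (B + wz) ω (rt (zmV F hP yy ε) wz ω) (o.map ε)) (G (yy ω))| ≤
        2 ^ (B + P) * (2 ^ q * (2 ^ q / 2 ^ P₁)) := by
          refine mul_le_mul_of_nonneg_left (h4.trans ?_) (by positivity)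
          exact mul_le_mul_of_nonneg_right hE₁ (by positivity)
      _ = 2 ^ (B + P + 2 * q) / 2 ^ P₁ := by
          rw [pow_add _ (B + P) (2 * q), two_mul, pow_add _ q q]
          ring
      _ ≤ 1 / 2 ^ Q := by
          rw [div_le_div_iff₀ (by positivity) (by positivity), one_mul, ← pow_add]
          exact pow_le_pow_right₀ (by norm_num) (by omega)
  have hsp' : ∀ ω : F.Ω, B₁ ω → ∀ i, |eval (bt (zmV F hP yy ε) ω) (pderiv (some i)
      (zlg F hP yy ε G k ((zmV F hP yy ε).Z ω)))| ≤ 2 ^ (2 * q + r) := by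
    intro ω hω i
    have h3 : wpt (zmV F hP yy ε) wz ω (rt (zmV F hP yy ε) wz ω) = bt (zmV F hP yy ε) ω :=
      funext (hrt ω)
    have h4 := (hB₁ ω hω (rt (zmV F hP yy ε) wz ω) (rt_mem (zmV F hP yy ε) wz ω)).2 i
    rw [eGs] at h4
    rw [pd_zlg, ← h3, eval_zsb F hP yy ε hB hwz ω]
    refine h4.trans ?_
    have h5 : (1 : ℝ) ≤ 2 ^ r := one_le_pow₀ (by norm_num)
    have h6 : (0 : ℝ) < 2 ^ q := by positivity
    rw [two_mul, pow_add, pow_add]
    calc Real.exp (C₁ * (θ + 1)) * 2 ^ q ≤ 2 ^ q * 2 ^ q :=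
          mul_le_mul_of_nonneg_right hE₁ h6.le
      _ ≤ 2 ^ q * 2 ^ q * 2 ^ r := le_mul_of_one_le_right (by positivity) h5
  obtain ⟨B₂, hB₂B₁, hPB₂, hB₂⟩ := hvel (J - B - P) (zmV F hP yy ε) B₁ hB₁0 wz
    (fun s => zlg F hP yy ε G k s.2.1) k (1 / 2 ^ Q) θ hwz
    (fun s => zlg_deg F hP yy ε hdeg k s.2.1) (by positivity) hθ
    (hTm B₁ hB₁A (by linarith) hB₁0).2 (by
      refine le_trans ?_ hJ
      exact mul_le_mul_of_nonneg_right (by linarith) hθ1) (fun ω hω => hpos' ω hω)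
  refine ⟨B₂, fun ω hω => hB₁A ω (hB₂B₁ ω hω), ?_, (zmV F hP yy ε).ζ, fun p => p.2.2,
    fun s => s.2.1, zlg F hP yy ε G k, ⟨⟨zlg_deg F hP yy ε hdeg k, zlg_dep F hP yy ε hdep k,
      fun ω _ => rfl, fun ω hω => hpos' ω (hB₂B₁ ω hω)⟩, fun ω hω o => ?_⟩⟩
  · have h1 : Pe F.p B₁ / 2 ≤ Pe F.p B₂ := hPB₂
    linarith
  -- the gradients
  have hsp := hsp' ω (hB₂B₁ ω hω)
  have hn : ((n : ℝ) + 2) ≤ 2 ^ (n + 2) := by
    have := (Nat.lt_two_pow_self (n := n + 2)).le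
    exact_mod_cast this
  have p2q : (1 : ℝ) ≤ 2 ^ (2 * q + r) := one_le_pow₀ (by norm_num)
  have hfin : ((n : ℝ) + 2) * 2 ^ (2 * q + r) ≤ 2 ^ (2 * q + r + n + 2) := by
    have e1 : (2 : ℝ) ^ (2 * q + r + n + 2) = 2 ^ (n + 2) * 2 ^ (2 * q + r) := by
      rw [← pow_add]
      congr 1
      ring
    rw [e1]
    exact mul_le_mul_of_nonneg_right hn (by positivity)
  have hn0 : (0 : ℝ) ≤ n := Nat.cast_nonneg n
  cases o with
  | some i =>
    refine (hsp i).trans (le_trans ?_ hfin)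
    nlinarith
  | none =>
    have h1 := hB₂ ω hω
    have h2 : Real.exp (C₂ * (θ + 1)) * 2 ^ wz * (1 / 2 ^ Q) ≤ 2 ^ (2 * q + r) := by
      have h3 : (2 : ℝ) ^ wz * (1 / 2 ^ Q) ≤ 2 ^ (q + r) := by
        rw [mul_one_div, div_le_iff₀ (by positivity), ← pow_add]
        exact pow_le_pow_right₀ (by norm_num) (by omega)
      have e1 : (2 : ℝ) ^ (2 * q + r) = 2 ^ q * 2 ^ (q + r) := by
        rw [← pow_add]
        congr 1
        ring
      rw [mul_assoc, e1]
      exact mul_le_mul hE₂ h3 (by positivity) (by positivity)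
    rw [Fintype.sum_option] at h1
    have h4 : ∀ i, |bd (zmV F hP yy ε) ω (some i) * eval (bt (zmV F hP yy ε) ω)
        (pderiv (some i) (zlg F hP yy ε G k (slam (zmV F hP yy ε) wz ω).2.1))| ≤
        2 ^ (2 * q + r) := by
      intro i
      rw [abs_mul]
      calc |bd (zmV F hP yy ε) ω (some i)| * _ ≤ 1 * 2 ^ (2 * q + r) :=
            mul_le_mul ((zmV F hP yy ε).dir ω i) (hsp i) (abs_nonneg _) zero_le_one
        _ = _ := one_mul _
    have h5 : |∑ i, bd (zmV F hP yy ε) ω (some i) * eval (bt (zmV F hP yy ε) ω)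
        (pderiv (some i) (zlg F hP yy ε G k (slam (zmV F hP yy ε) wz ω).2.1))| ≤
        n * 2 ^ (2 * q + r) := by
      refine (Finset.abs_sum_le_sum_abs _ _).trans ((Finset.sum_le_sum fun i _ => h4 i).trans ?_)
      rw [Finset.sum_const, Finset.card_univ, Fintype.card_fin, nsmul_eq_mul]
    have h6 := (zmV F hP yy ε).dir ω k
    have h7 : bd (zmV F hP yy ε) ω none = 1 := rfl
    rw [h7, one_mul] at h1
    have h8 := h1.trans h2
    refine le_trans ?_ hfin
    show |eval (bt (zmV F hP yy ε) ω) (pderiv none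
      (zlg F hP yy ε G k (slam (zmV F hP yy ε) wz ω).2.1))| ≤ _
    obtain ⟨x, hx⟩ : ∃ x, x = eval (bt (zmV F hP yy ε) ω) (pderiv none
      (zlg F hP yy ε G k (slam (zmV F hP yy ε) wz ω).2.1)) := ⟨_, rfl⟩
    obtain ⟨y, hyy⟩ : ∃ y, y = ∑ i, bd (zmV F hP yy ε) ω (some i) * eval (bt (zmV F hP yy ε) ω)
        (pderiv (some i) (zlg F hP yy ε G k (slam (zmV F hP yy ε) wz ω).2.1)) := ⟨_, rfl⟩
    rw [← hx, ← hyy] at h8
    rw [← hyy] at h5
    rw [← hx]
    rw [abs_le] at h5 h6 h8 ⊢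
    constructor <;> nlinarith [h5.1, h5.2, h6.1, h6.2, h8.1, h8.2]

/-- A statement about all zooms of the families of a class. -/
theorem bas_to_rec {S : PCl m} {v : Vz m} {ε : Fin n → Fin m} {Φ : Stat n}
    (h : Bas S (fun J F A => ∀ hP : v.P J ≤ J - v.B J, Φ (v.R J) (v.famV ε F hP) A)) :
    Bas (RecV S v ε) Φ := by
  obtain ⟨τ, hτ, J₁, h⟩ := h
  refine ⟨τ, hτ, J₁, fun J' hJ' F' A' hA' => ?_⟩
  refine recV_cases (S := S) (v := v) (ε := ε) (τ := τ) (Φ := fun J' F' A' => J₁ ≤ J' →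
    Φ J' F' A') (fun J F A hP hS hJ => h J ?_ F A hS hP) hA' hJ'
  refine hJ.trans ?_
  unfold Vz.R
  omega

/-- **Labels which are functions of the visible variable**, with bounded gradients. -/
def YLb (S : PCl m) (v : Vz m) (ε : Fin n → Fin m) (I : Finset (Fin n)) (k : Fin n)
    (Q : ℝ) : Prop :=
  ∃ (K : ℕ) (C : ℝ), Bas S (fun J F A => ∃ G : v.κ J F → MvPolynomial (Option (Fin n)) ℝ,
    (∀ y, (G y).totalDegree ≤ K) ∧
    (∀ y, ∀ b b' : Option (Fin n) → ℝ, b none = b' none →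
      (∀ i ∈ I, b (some i) = b' (some i)) → eval b (G y) = eval b' (G y)) ∧
    (∀ ω, A ω → |F.x ω (ε k) - eval (fun o => bt F ω (o.map ε)) (G (v.y J F ω))| ≤
      C / 2 ^ ⌊Q * J⌋₊) ∧
    ∀ ω, A ω → ∀ i, |eval (fun o => bt F ω (o.map ε)) (pderiv (some i) (G (v.y J F ω)))| ≤ C)

/-- **Labels which are functions of the visible variable are labels of the zooms.** -/
theorem YLb.lbc {S : PCl m} {C₀ : ℝ} (hC₀ : 0 ≤ C₀) (htm : TmC S C₀) {v : Vz m}
    {ε : Fin n → Fin m} {I : Finset (Fin n)} {k : Fin n} {Q w : ℝ} (h : YLb S v ε I k (v.sc Q))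
    (hw0 : 0 < w) (hw1 : w < 1) (hwQ : w ≤ Q) (hQ1 : Q ≤ 1) : LbC (RecV S v ε) I k w Q := by
  classical
  have hb1 := v.b1
  have hp1 := v.p1
  obtain ⟨c, hc⟩ : ∃ c, c = (1 - v.b) * (1 - v.p) := ⟨_, rfl⟩
  have hc0 : 0 < c := by rw [hc]; exact mul_pos (by linarith) (by linarith)
  have hc1 : c ≤ 1 := by
    rw [hc]
    exact mul_le_one₀ (by linarith [v.b0]) (by linarith) (by linarith [v.p0])
  have hQ0 : 0 < Q := by linarith
  obtain ⟨K, C, hB⟩ := h
  obtain ⟨C₁, hC₁, hone⟩ := zlb_one m n K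
  refine LbC.small (h₁ := Q) hQ0 fun h hh hhQ => ⟨max K 1, 4, by norm_num, bas_to_rec ?_⟩
  have hl2 : 0 < Real.log 2 := Real.log_pos one_lt_two
  obtain ⟨κ, hκ⟩ : ∃ κ : ℝ, κ = min (h / 32) ((1 - w) / 2) := ⟨_, rfl⟩
  have hκ0 : 0 < κ := by rw [hκ]; exact lt_min (by positivity) (by linarith)
  have hκ1 : κ ≤ h / 32 := by rw [hκ]; exact min_le_left _ _
  have hκ2 : κ ≤ (1 - w) / 2 := by rw [hκ]; exact min_le_right _ _
  obtain ⟨D, hD⟩ : ∃ D : ℝ, D = C₀ / (c * c) := ⟨_, rfl⟩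
  have hD0 : 0 ≤ D := by rw [hD]; positivity
  have hD1 : C₀ ≤ D := by
    rw [hD, le_div_iff₀ (by positivity)]
    exact mul_le_of_le_one_right hC₀ (mul_le_one₀ hc1 hc0.le hc1)
  obtain ⟨τ₀, hτ₀⟩ : ∃ τ₀ : ℝ, τ₀ = κ * Real.log 2 * c / (C₁ * (2 * D + 1)) := ⟨_, rfl⟩
  have hden : 0 < C₁ * (2 * D + 1) := by positivity
  have hτ₀0 : 0 < τ₀ := by rw [hτ₀]; positivity
  obtain ⟨τ₁, hτ₁, J₁, hall⟩ := hB
  obtain ⟨τ, hτ⟩ : ∃ τ, τ = min τ₀ τ₁ := ⟨_, rfl⟩
  have hτ0 : 0 < τ := by rw [hτ]; exact lt_min hτ₀0 hτ₁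
  have ht0 : τ ≤ τ₀ := by rw [hτ]; exact min_le_left _ _
  have ht1 : τ ≤ τ₁ := by rw [hτ]; exact min_le_right _ _
  obtain ⟨J₂, hJ₂⟩ := big (a := τ) hτ0 (Real.log 2)
  obtain ⟨J₃, hJ₃⟩ := big (a := κ * Real.log 2 * c) (by positivity) C₁
  obtain ⟨J₄, hJ₄⟩ := big (a := h / 16 * c) (by positivity) (|C| + n + 10)
  refine ⟨τ, hτ0, max (max J₁ J₂) (max J₃ J₄), fun J hJ F A hA hP => ?_⟩
  have j1 : J₁ ≤ J := ((le_max_left _ _).trans (le_max_left _ _)).trans hJ
  have j2 := hJ₂ J (((le_max_right _ _).trans (le_max_left _ _)).trans hJ)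
  have j3 := hJ₃ J (((le_max_left _ _).trans (le_max_right _ _)).trans hJ)
  have j4 := hJ₄ J (((le_max_right _ _).trans (le_max_right _ _)).trans hJ)
  have hJ0 : (0 : ℝ) ≤ J := Nat.cast_nonneg J
  obtain ⟨G, g1, g2, g3, g4⟩ := hall J j1 F A (S.mono ht1 hA)
  obtain ⟨hA0, -⟩ := htm τ J F A hτ0 hA
  obtain ⟨k1, k2, k3⟩ := v.floor_le J
  obtain ⟨u1, u2, -, u4, u5⟩ := sc_units v J (s := Q) hQ0.le hQ1
  rw [← hc] at u4
  have hR0 : (0 : ℝ) ≤ v.R J := Nat.cast_nonneg _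
  have hRJ : (v.R J : ℝ) ≤ J := by
    have : v.R J ≤ J := by unfold Vz.R; omega
    exact_mod_cast this
  obtain ⟨θ, hθ⟩ : ∃ θ : ℝ, θ = 2 * D * τ * J := ⟨_, rfl⟩
  have hθ0 : 0 ≤ θ := by rw [hθ]; positivity
  obtain ⟨q, hq⟩ : ∃ q : ℕ, q = ⌊h / 8 * (v.R J : ℝ)⌋₊ := ⟨_, rfl⟩
  have hhR : 0 ≤ h / 8 * (v.R J : ℝ) := by positivity
  have q1 : (q : ℝ) ≤ h / 8 * v.R J := by rw [hq]; exact Nat.floor_le hhR
  have q2 : h / 8 * (v.R J : ℝ) < q + 1 := by rw [hq]; exact Nat.lt_floor_add_one _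
  have hcR : ∀ x : ℝ, 0 ≤ x → x * c * J ≤ x * v.R J := by
    intro x hx
    have := mul_le_mul_of_nonneg_left u4 hx
    linarith
  have r4 : |C| + n + 10 ≤ h / 16 * v.R J := j4.trans (hcR _ (by positivity))
  have hC0 := abs_nonneg C
  have hn0 : (0 : ℝ) ≤ n := Nat.cast_nonneg n
  -- the deficit of the time
  have hdef : C₁ * (θ + 1) ≤ 2 * κ * Real.log 2 * v.R J := by
    have h1 : C₁ * θ ≤ κ * Real.log 2 * v.R J := by
      have h2 : C₁ * (2 * D * τ₀) ≤ κ * Real.log 2 * c := by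
        rw [hτ₀]
        have h3 : C₁ * (2 * D) ≤ C₁ * (2 * D + 1) :=
          mul_le_mul_of_nonneg_left (by linarith) (by linarith)
        calc C₁ * (2 * D * (κ * Real.log 2 * c / (C₁ * (2 * D + 1)))) =
            C₁ * (2 * D) * (κ * Real.log 2 * c / (C₁ * (2 * D + 1))) := by ring
          _ ≤ C₁ * (2 * D + 1) * (κ * Real.log 2 * c / (C₁ * (2 * D + 1))) :=
            mul_le_mul_of_nonneg_right h3 (by positivity)
          _ = κ * Real.log 2 * c := by field_simp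
      have h4 : C₁ * θ ≤ C₁ * (2 * D * τ₀) * J := by
        rw [hθ]
        have h5 : 2 * D * τ ≤ 2 * D * τ₀ :=
          mul_le_mul_of_nonneg_left ht0 (by positivity)
        have h6 := mul_le_mul_of_nonneg_right h5 hJ0
        have h7 := mul_le_mul_of_nonneg_left h6 (by linarith : (0 : ℝ) ≤ C₁)
        linarith
      have h8 := mul_le_mul_of_nonneg_right h2 hJ0
      have h9 := hcR (κ * Real.log 2) (by positivity)
      linarith
    have h2 := hcR (κ * Real.log 2) (by positivity)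
    linarith
  have hdef1 : C₁ * (θ + 1) ≤ q * Real.log 2 := by
    refine hdef.trans ?_
    have h1 : 2 * κ * v.R J ≤ q := by
      have h2 : κ * v.R J ≤ h / 32 * v.R J := mul_le_mul_of_nonneg_right hκ1 hR0
      linarith
    calc 2 * κ * Real.log 2 * v.R J = 2 * κ * v.R J * Real.log 2 := by ring
      _ ≤ _ := mul_le_mul_of_nonneg_right h1 hl2.le
  obtain ⟨wz, hwz⟩ : ∃ wz : ℕ, wz = ⌊w * (v.R J : ℝ)⌋₊ := ⟨_, rfl⟩
  have w1 : (wz : ℝ) ≤ w * v.R J := by rw [hwz]; exact Nat.floor_le (by positivity)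
  have hdef2 : C₁ * (θ + 1) ≤ (((J - v.B J - v.P J : ℕ) : ℝ) - wz) * Real.log 2 := by
    refine hdef.trans ?_
    have h1 : 2 * κ * v.R J ≤ (v.R J : ℝ) - wz := by
      have h2 : κ * v.R J ≤ (1 - w) / 2 * v.R J := mul_le_mul_of_nonneg_right hκ2 hR0
      linarith
    calc 2 * κ * Real.log 2 * v.R J = 2 * κ * v.R J * Real.log 2 := by ring
      _ ≤ _ := mul_le_mul_of_nonneg_right h1 hl2.le
  -- the constants of the label
  have hCq : C ≤ 2 ^ q := by
    have h1 : (|C| : ℝ) ≤ q := by linarith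
    have h2 : (q : ℝ) ≤ 2 ^ q := by exact_mod_cast (Nat.lt_two_pow_self (n := q)).le
    exact (le_abs_self C).trans (h1.trans h2)
  obtain ⟨P₁, hP₁⟩ : ∃ P₁ : ℕ, P₁ = ⌊v.sc Q * (J : ℝ)⌋₊ := ⟨_, rfl⟩
  have p1 : v.sc Q * (J : ℝ) < P₁ + 1 := by rw [hP₁]; exact Nat.lt_floor_add_one _
  obtain ⟨Q', hQ'⟩ : ∃ Q' : ℕ, Q' = P₁ - (v.B J + v.P J + 2 * q) := ⟨_, rfl⟩
  have hle : v.B J + v.P J + 2 * q ≤ P₁ := by
    have h1 : ((v.B J + v.P J + 2 * q : ℕ) : ℝ) ≤ (P₁ : ℝ) := by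
      push_cast
      have h2 : h * v.R J ≤ Q * v.R J := mul_le_mul_of_nonneg_right hhQ hR0
      linarith
    exact_mod_cast h1
  have hQe : (Q' : ℝ) = P₁ - (v.B J + v.P J + 2 * q) := by
    rw [hQ', Nat.cast_sub hle]
    push_cast
    ring
  have htmR := recV_tm hC₀ htm v ε
  rw [← hc] at htmR
  obtain ⟨A', hA'A, hPA', V, z, z', G', hG'⟩ := hone F (wz := wz) hP (v.y J F) ε (I := I) (k := k)
    (G := G) (A := A) (P₁ := P₁) (q := q) (r := 2 * q + 3) (Q := Q') (θ := θ) k1 (by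
      have h1 : (wz : ℝ) ≤ (v.R J : ℝ) := by
        have := mul_le_mul_of_nonneg_right hw1.le hR0
        linarith
      exact_mod_cast h1) hA0 (v.line J F) g1 g2 (fun ω hω => (g3 ω hω).trans (by
        rw [← hP₁]
        exact div_le_div_of_nonneg_right hCq (by positivity))) (fun ω hω i =>
      (g4 ω hω i).trans hCq) hθ0 (fun A' hA' hP' h0 => by
      have e1 : Real.exp (-(τ * J)) * Pe F.p A ≤ Pe F.p A' := by
        have e2 : Real.exp (-(τ * J)) ≤ 1 / 2 := by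
          have e3 : Real.exp (-(τ * J)) ≤ Real.exp (-Real.log 2) :=
            Real.exp_le_exp.2 (by linarith)
          rw [Real.exp_neg (Real.log 2), Real.exp_log two_pos] at e3
          rw [one_div]
          exact e3
        have e4 : 0 ≤ Pe F.p A := hA0.le
        calc Real.exp (-(τ * J)) * Pe F.p A ≤ 1 / 2 * Pe F.p A :=
              mul_le_mul_of_nonneg_right e2 e4
          _ ≤ Pe F.p A' := by linarith
      have e5 : Real.exp (-(τ * (1 / c) * (v.R J : ℝ))) * Pe F.p A ≤ Pe F.p A' := by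
        refine le_trans (mul_le_mul_of_nonneg_right (Real.exp_le_exp.2 (neg_le_neg ?_)) hA0.le) e1
        have e6 : (J : ℝ) ≤ 1 / c * v.R J := by rw [hc]; exact k3
        have := mul_le_mul_of_nonneg_left e6 hτ0.le
        linarith
      constructor
      · have a1 := htm.sub hτ0 hτ0.le hA hA' e1 h0
        unfold Fam.Tm at a1 ⊢
        refine le_trans ?_ a1
        have a2 : C₀ * (τ + τ) * J ≤ θ := by
          rw [hθ]
          have a4 : C₀ * (2 * τ * J) ≤ D * (2 * τ * J) :=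
            mul_le_mul_of_nonneg_right hD1 (by positivity)
          linarith
        linarith
      · have a1 := htmR.sub hτ0 (by positivity : 0 ≤ τ * (1 / c)) (recV_mk hA hP) hA' e5 h0
        unfold Fam.Tm at a1 ⊢
        refine le_trans ?_ a1
        have a2 : C₀ * (1 / c) * (τ + τ * (1 / c)) * (v.R J : ℝ) ≤ θ := by
          have a3 : C₀ * (1 / c) * (τ + τ * (1 / c)) ≤ 2 * D * τ := by
            have a4 : C₀ * (1 / c) * (τ * (1 / c)) = D * τ := by
              rw [hD]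
              field_simp
            have a5 : C₀ * (1 / c) * τ ≤ D * τ := by
              refine mul_le_mul_of_nonneg_right ?_ hτ0.le
              rw [hD, mul_one_div]
              refine div_le_div_of_nonneg_left hC₀ (by positivity) ?_
              exact mul_le_of_le_one_right hc0.le hc1
            rw [mul_add]
            linarith
          rw [hθ]
          refine (mul_le_mul_of_nonneg_right a3 hR0).trans ?_
          exact mul_le_mul_of_nonneg_left hRJ (by positivity)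
        have a6 : ((v.R J : ℕ) : ℝ) * Real.log 2 - θ ≤ (v.R J : ℝ) * Real.log 2 -
            C₀ * (1 / c) * (τ + τ * (1 / c)) * (v.R J : ℝ) := by linarith
        exact a6) hdef2 hdef1 (by omega) (by
      have h1 : ((wz : ℕ) : ℝ) ≤ ((Q' + (2 * q + 3) : ℕ) : ℝ) := by
        push_cast
        rw [hQe]
        have h2 : w * v.R J ≤ Q * v.R J := mul_le_mul_of_nonneg_right hwQ hR0
        linarith
      exact_mod_cast h1)
  refine ⟨A', hA'A, hPA', V, z, z', G', ?_⟩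
  rw [← hwz]
  refine hG'.mono (Finset.Subset.refl _) le_rfl ?_ ?_
  · refine Nat.le_floor ?_
    push_cast
    linarith
  · refine Nat.floor_le_of_le ?_
    rw [hQe]
    linarith

end Pool.ORD65
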