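import Pool.Agent.H65.ORD.Rz
import Pool.Agent.H71.GEN.Gro

/-!
# Composition of closed labels

`comp_lbs`: a closed label of the coordinate `k` over `I` and `i`, and a closed label of `i` over
`I`, give a closed label of `k` over `I` with small gradients at the points.
-/

set_option autoImplicit false

namespace Pool.ORD65

open Finset Real MvPolynomial
open Pool.Agent.H49.Ent Pool.Agent.H32.Dense Pool.STK Pool.KA Pool.KSAT Pool.K2S Pool.PB Pool.GEN
open Pool.S6C Pool.GRD

variable {m J : ℕ}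

/-- **Larger balls**, with a constant for all factors. -/
theorem grow_n (K : ℕ) : ∃ c : ℕ, ∀ (m J : ℕ) (F : Fam m J) (I : Finset (Fin m)) (k : Fin m)
    (q e r w ρ P : ℕ) (A : F.Ω → Prop) (V : Type) (z : PtT F → V) (z' : LnT F → V)
    (G : V → MvPolynomial (Option (Fin m)) ℝ), LbOK F I k K e r w ρ P A z z' G →
    LbOK F I k K (e + q * c) r w (ρ - q) P A z z' G := by
  obtain ⟨c, hc⟩ := LbOK.grow K
  refine ⟨c, fun m J F I k q e r w ρ P A V z z' G => ?_⟩
  induction q with
  | zero =>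
    intro h
    rw [zero_mul, add_zero, Nat.sub_zero]
    exact h
  | succ q ih =>
    intro h
    have h1 := hc m J F I k (e + q * c) r w (ρ - q) P A V z z' G (ih h)
    have e2 : e + (q + 1) * c = e + q * c + c := by ring
    rw [e2]
    exact h1.mono (Finset.Subset.refl _) le_rfl le_rfl (by omega) le_rfl

/-- The substitution of a label. -/
noncomputable def sbs (i : Fin m) (G : MvPolynomial (Option (Fin m)) ℝ)
    (o : Option (Fin m)) : MvPolynomial (Option (Fin m)) ℝ :=
  if o = some i then G else X o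

theorem eval_sbs (i : Fin m) (G : MvPolynomial (Option (Fin m)) ℝ) (b : Option (Fin m) → ℝ) :
    (fun o => eval b (sbs i G o)) = Function.update b (some i) (eval b G) := by
  funext o
  unfold sbs
  by_cases h : o = some i
  · rw [if_pos h, h, Function.update_self]
  · rw [if_neg h, Function.update_of_ne h, eval_X]

/-- **Composition of closed labels.** -/
theorem comp_lbs (m K₁ : ℕ) : ∃ c : ℕ, ∀ (K₂ J : ℕ) (F : Fam m J) (I : Finset (Fin m))
    (i k : Fin m) (w e₁ ρ₁ P₁ e₂ P₂ t P : ℕ) (A : F.Ω → Prop) (V₁ V₂ : Type)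
    (z₁ : PtT F → V₁) (z₁' : LnT F → V₁) (G₁ : V₁ → MvPolynomial (Option (Fin m)) ℝ)
    (z₂ : PtT F → V₂) (z₂' : LnT F → V₂) (G₂ : V₂ → MvPolynomial (Option (Fin m)) ℝ),
    LbOK F (insert i I) k K₁ e₁ J w ρ₁ P₁ A z₁ z₁' G₁ →
    LbS F I i K₂ e₂ J w P₂ A z₂ z₂' G₂ → ρ₁ ≤ P₂ + t → P + 1 ≤ P₁ →
    P + e₁ + t * c + 1 ≤ P₂ →
    LbS F I k (max K₂ 1 * K₁) (e₁ + e₂ + (t + 1) * c) J w P A (fun x => (z₁ x, z₂ x)) (fun s => (z₁' s, z₂' s))
      (fun v => aeval (sbs i (G₂ v.2)) (G₁ v.1)) := by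
  classical
  obtain ⟨c, hc⟩ := grow_n K₁
  refine ⟨c + m + 1, ?_⟩
  intro K₂ J F I i k w e₁ ρ₁ P₁ e₂ P₂ t P A V₁ V₂ z₁ z₁' G₁ z₂ z₂' G₂ h₁ h₂ hρ hP1 hP2
  have h₁' := hc m J F (insert i I) k t e₁ J w ρ₁ P₁ A V₁ z₁ z₁' G₁ h₁
  obtain ⟨M, hM⟩ : ∃ M : ℝ, M = 2 ^ (e₁ + t * c) := ⟨_, rfl⟩
  have hM0 : 0 < M := by rw [hM]; positivity
  -- the second point
  have hy : ∀ ω, A ω → |eval (bt F ω) (G₂ (z₂' (slam F w ω))) - F.x ω i| ≤ 1 / 2 ^ P₂ := by
    intro ω hω
    rw [abs_sub_comm]
    exact h₂.lbp.pos ω hω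
  have hball : ∀ ω, A ω → ∀ y : Option (Fin m) → ℝ,
      (∀ j, |y j - bt F ω j| ≤ |Function.update (bt F ω) (some i)
        (eval (bt F ω) (G₂ (z₂' (slam F w ω)))) j - bt F ω j|) →
      ∀ o, |eval y (pderiv o (G₁ (z₁' (slam F w ω))))| ≤ M := by
    intro ω hω y hb o
    rw [hM]
    refine h₁'.lip ω hω y (fun j => (hb j).trans ?_) o
    by_cases hj : j = some i
    · rw [hj, Function.update_self]
      have e1 : bt F ω (some i) = F.x ω i := rfl
      rw [e1]
      exact (hy ω hω).trans (inv_mono (by omega))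
    · rw [Function.update_of_ne hj, sub_self, abs_zero]
      positivity
  refine ⟨⟨fun v => ?_, fun v b b' h0 hb => ?_, fun ω hω => ?_, fun ω hω => ?_⟩,
    fun ω hω o => ?_⟩
  · refine totalDegree_aevalσ (fun o => ?_) (h₁.deg _)
    unfold sbs
    split_ifs
    · exact (h₂.lbp.deg _).trans (le_max_left _ _)
    · exact (totalDegree_X _).le.trans (le_max_right _ _)
  · rw [eval_aevalσ, eval_aevalσ, eval_sbs, eval_sbs]
    refine h₁.dep _ _ _ ?_ fun j hj => ?_
    · rw [Function.update_of_ne (by simp), Function.update_of_ne (by simp)]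
      exact h0
    · by_cases hji : j = i
      · subst hji
        rw [Function.update_self, Function.update_self]
        exact h₂.lbp.dep _ _ _ h0 hb
      · rw [Function.update_of_ne (by simpa using hji), Function.update_of_ne (by simpa using hji)]
        exact hb j (Finset.mem_of_mem_insert_of_ne hj hji)
  · exact Prod.ext (h₁.cls ω hω) (h₂.lbp.cls ω hω)
  · show |F.x ω k - eval (bt F ω) (aeval (sbs i (G₂ (z₂' (slam F w ω))))
      (G₁ (z₁' (slam F w ω))))| ≤ 1 / 2 ^ P
    rw [eval_aevalσ, eval_sbs]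
    have k1 := mvσ (G₁ (z₁' (slam F w ω))) (bt F ω) (Function.update (bt F ω) (some i)
      (eval (bt F ω) (G₂ (z₂' (slam F w ω))))) M (fun y hb o => hball ω hω y hb o)
    have k2 : ∑ j, |Function.update (bt F ω) (some i)
        (eval (bt F ω) (G₂ (z₂' (slam F w ω)))) j - bt F ω j| ≤ 1 / 2 ^ P₂ := by
      rw [Finset.sum_eq_single (some i)]
      · rw [Function.update_self]
        exact hy ω hω
      · intro j _ hj
        rw [Function.update_of_ne hj, sub_self, abs_zero]
      · intro h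
        exact absurd (Finset.mem_univ _) h
    have k3 := h₁.pos ω hω
    have k4 : M * (1 / 2 ^ P₂) ≤ 1 / 2 ^ (P + 1) := by
      rw [hM, mul_one_div, div_le_div_iff₀ (by positivity) (by positivity), one_mul, ← pow_add]
      refine pow_le_pow_right₀ (by norm_num) ?_
      have : t * c ≤ t * (c + m + 1) := Nat.mul_le_mul_left t (by omega)
      omega
    have k5 : (1 : ℝ) / 2 ^ P₁ ≤ 1 / 2 ^ (P + 1) := inv_mono (by omega)
    have k6 : (1 : ℝ) / 2 ^ P = 1 / 2 ^ (P + 1) + 1 / 2 ^ (P + 1) := by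
      rw [pow_succ]
      field_simp
      norm_num
    have k7 := mul_le_mul_of_nonneg_left k2 hM0.le
    rw [k6]
    rw [abs_le] at k1 k3 ⊢
    constructor <;> linarith [k1.1, k1.2, k3.1, k3.2]
  · show |eval (bt F ω) (pderiv o (aeval (sbs i (G₂ (z₂' (slam F w ω))))
      (G₁ (z₁' (slam F w ω)))))| ≤ 2 ^ (e₁ + e₂ + (t + 1) * (c + m + 1))
    rw [pd_aeval, map_sum]
    have k1 : ∀ j : Option (Fin m), |eval (bt F ω) (aeval (sbs i (G₂ (z₂' (slam F w ω))))
        (pderiv j (G₁ (z₁' (slam F w ω)))) * pderiv o (sbs i (G₂ (z₂' (slam F w ω))) j))| ≤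
        M * 2 ^ e₂ := by
      intro j
      rw [map_mul, abs_mul, eval_aevalσ, eval_sbs]
      refine mul_le_mul (hball ω hω _ (fun _ => le_rfl) j) ?_ (abs_nonneg _) hM0.le
      unfold sbs
      split_ifs
      · exact h₂.lip ω hω o
      · rw [pderiv_X]
        have h1 : (1 : ℝ) ≤ 2 ^ e₂ := one_le_pow₀ (by norm_num)
        by_cases hoj : o = j
        · subst hoj
          rw [Pi.single_eq_same, map_one, abs_one]
          exact h1
        · rw [Pi.single_eq_of_ne (Ne.symm hoj), map_zero, abs_zero]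
          linarith
    refine (Finset.abs_sum_le_sum_abs _ _).trans ((Finset.sum_le_sum fun j _ => k1 j).trans ?_)
    rw [Finset.sum_const, Finset.card_univ, Fintype.card_option, Fintype.card_fin, nsmul_eq_mul,
      hM, ← pow_add]
    have k2 : ((m + 1 : ℕ) : ℝ) ≤ 2 ^ (m + 1) := by
      exact_mod_cast (Nat.lt_two_pow_self (n := m + 1)).le
    refine (mul_le_mul_of_nonneg_right k2 (by positivity)).trans ?_
    rw [← pow_add]
    refine pow_le_pow_right₀ (by norm_num) ?_
    have : (t + 1) * (c + m + 1) = t * c + t * (m + 1) + (c + m + 1) := by ring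
    omega

end Pool.ORD65
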