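import Pool.Agent.H65.ORD.Comp
import Pool.Agent.H45.EXA.ExvB

/-!
# A coordinate behind a greedy list

`ord_down`: a coordinate with a closed label over a greedy list, with small gradients at the points,
has such labels over the initial segments of the list, of the precisions of the list.
`ord_num`: its numbers are at least the numbers of the list. `wv_snoc`: the list with the further
coordinate is greedy.
-/

set_option autoImplicit false

namespace Pool.ORD65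

open Finset Real MvPolynomial
open Pool.Agent.H49.Ent Pool.Agent.H32.Dense Pool.STK Pool.KA Pool.KSAT Pool.K2S Pool.PB Pool.GEN
open Pool.S6C Pool.GRD Pool.GRW
open Pool.FLF (Fam.sub)

variable {m n J : ℕ}

/-- **Labels with small gradients at the points, in a class**, up to every error. -/
def LbC (S : PCl m) (I : Finset (Fin m)) (k : Fin m) (w Q : ℝ) : Prop :=
  ∀ h : ℝ, 0 < h → ∃ (K : ℕ) (c₁ : ℝ), 0 < c₁ ∧ Bas S (fun J F A => ∃ B : F.Ω → Prop, Sub B A ∧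
    Pe F.p A ≤ c₁ * Pe F.p B ∧ ∃ (V : Type) (z : PtT F → V) (z' : LnT F → V)
      (G : V → MvPolynomial (Option (Fin m)) ℝ),
      LbS F I k K ⌊h * J⌋₊ J ⌊w * J⌋₊ ⌊(Q - h) * J⌋₊ B z z' G)

/-- It is enough to consider small errors. -/
theorem LbC.small {S : PCl m} {I : Finset (Fin m)} {k : Fin m} {w Q h₁ : ℝ} (h₁0 : 0 < h₁)
    (H : ∀ h : ℝ, 0 < h → h ≤ h₁ → ∃ (K : ℕ) (c₁ : ℝ), 0 < c₁ ∧ Bas S (fun J F A =>
      ∃ B : F.Ω → Prop, Sub B A ∧ Pe F.p A ≤ c₁ * Pe F.p B ∧ ∃ (V : Type) (z : PtT F → V)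
        (z' : LnT F → V) (G : V → MvPolynomial (Option (Fin m)) ℝ),
        LbS F I k K ⌊h * J⌋₊ J ⌊w * J⌋₊ ⌊(Q - h) * J⌋₊ B z z' G)) : LbC S I k w Q := by
  intro h hh
  obtain ⟨K, c₁, hc₁, hB⟩ := H (min h h₁) (lt_min hh h₁0) (min_le_right _ _)
  refine ⟨K, c₁, hc₁, hB.mono 0 ?_⟩
  rintro J - F A ⟨B, hBA, hPe, V, z, z', G, hG⟩
  have hJ0 : (0 : ℝ) ≤ J := Nat.cast_nonneg J
  exact ⟨B, hBA, hPe, V, z, z', G, hG.mono (Finset.Subset.refl _) le_rfl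
    (Nat.floor_le_floor (mul_le_mul_of_nonneg_right (min_le_left _ _) hJ0))
    (Nat.floor_le_floor (mul_le_mul_of_nonneg_right (by linarith [min_le_left h h₁]) hJ0))⟩

/-- The initial segments of a greedy list are full behind their radii. -/
theorem seg_full {S : PCl m} {C₀ : ℝ} (htm : TmC S C₀)
    {L : Finset (Fin m) → Fin m → ℝ → ℝ → ℝ} (hL : LamW S L) {ε : Fin n → Fin m} {c : ℕ → Fin m}
    (hcε : ∀ i : Fin n, c i = ε i) {w : ℝ} (hw : w ∈ Wv L ε) (hex : VExa S L ε w) {i : ℕ}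
    (hi : i ≤ n) {u : ℝ} (hu : vs L ε w i ≤ u) :
    ∀ ρ : ℝ, 0 < ρ → Bas S (fun J F A => ∀ (V : Type) (z : PtT F → V) (z' : LnT F → V),
      (∀ ω, A ω → z (ptr F J ω) = z' (slam F ⌊w * J⌋₊ ω)) →
      ((range i).image c).card * (((J - ⌊u * J⌋₊ : ℕ) : ℝ) * Real.log 2) - ρ * J ≤
        CH (Pool.Agent.H49.Ent.cond F.p A True)
          (fun ω => Pool.UNJ.ceI ((range i).image c) (fun _ => J) (F.x ω))
          (fun ω => (Pool.UNJ.ceI ((range i).image c) (fun _ => ⌊u * J⌋₊) (F.x ω),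
            z' (slam F ⌊w * J⌋₊ ω), F.W ω))) := by
  classical
  obtain ⟨hw0, hw1, hg, hct⟩ := hw
  have hs0 : ∀ l, w ≤ vs L ε w l := le_vs hL ε hw1.le
  have hmono := hg.mono hL hw1.le
  have hpos : Bas S (fun _ F A => 0 < Pe F.p A) := (tmc_bas htm one_pos).mono 0
    fun _ _ _ _ h => h.1
  have hposA : ∀ (τ : ℝ) (J : ℕ) (F : Fam m J) (A : F.Ω → Prop), S.St τ J F A → 0 < Pe F.p A :=
    fun τ J F A hA => (htm (max τ 1) J F A (lt_of_lt_of_le one_pos (le_max_right _ _))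
      (S.mono (le_max_left _ _) hA)).1
  have hwu : w ≤ u := (hs0 i).trans hu
  obtain ⟨εi, hεi⟩ : ∃ εi : Fin i → Fin m, εi = fun j : Fin i => c j := ⟨_, rfl⟩
  have hfull := Pool.EXW.full_cls (S := S) (ε := εi) (w := w) (u := u)
    (s := fun j => vs L ε w (j + 1)) (r := fun j => vs L ε w j)
    (fun τ J F A _ hA => hposA τ J F A hA) (hw0.le.trans hwu)
    (fun j => by
      have : vs L ε w (j + 1) ≤ vs L ε w i := hmono (by omega)
      linarith)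
    (fun j => by
      have : vs L ε w j ≤ vs L ε w i := hmono (by omega)
      linarith)
    (fun ρ hρ => by
      rw [hεi]
      exact vst_ini hpos hL hcε hw0 hw1 hg hct hex hi hρ)
    (fun e he => by
      obtain ⟨K₃, hK₃⟩ := vst_att hL hw0 hw1 hg hct he
      refine ⟨K₃, fun j => ?_⟩
      have h1 := hK₃ ⟨j, by omega⟩ ⟨j, by omega⟩ le_rfl
      have h2 : (Iio (⟨j, by omega⟩ : Fin n)).image ε = (Iio j).image εi := by
        rw [img_eq hcε, hεi]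
        exact (img_eq (n := i) (ε := fun j : Fin i => c j) (c := c) (fun _ => rfl) j).symm
      rw [h2, ← hcε ⟨j, by omega⟩] at h1
      rw [hεi] at h1 ⊢
      exact h1)
  have hIm : (univ : Finset (Fin i)).image εi = (range i).image c := by
    ext x
    simp only [mem_image, mem_univ, true_and, mem_range, hεi]
    constructor
    · rintro ⟨j, rfl⟩
      exact ⟨j, j.2, rfl⟩
    · rintro ⟨j, hj, rfl⟩
      exact ⟨⟨j, hj⟩, rfl⟩
  rw [hIm] at hfull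
  exact hfull

/-- **Small gradients on the balls** of the radius of an initial segment, in a class. -/
theorem seg_rz {S : PCl m} {C₀ : ℝ} (hC₀ : 0 ≤ C₀) (htm : TmC S C₀)
    {L : Finset (Fin m) → Fin m → ℝ → ℝ → ℝ} (hL : LamW S L) {ε : Fin n → Fin m} {c : ℕ → Fin m}
    (hcε : ∀ i : Fin n, c i = ε i) {w : ℝ} (hw : w ∈ Wv L ε) (hex : VExa S L ε w) {i : ℕ}
    (hi : i ≤ n) {u : ℝ} (hu : vs L ε w i ≤ u) (hu1 : u < 1) (k : Fin m) (K : ℕ) {h : ℝ}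
    (hh : 0 < h) :
    Bas S (fun J F A => ∀ (P₁ P' e' e₁ : ℕ) (V₁ : Type)
      (z₁ : PtT F → V₁) (z₁' : LnT F → V₁) (G₁ : V₁ → MvPolynomial (Option (Fin m)) ℝ),
      LbS F ((range i).image c) k K e₁ J ⌊w * J⌋₊ P₁ A z₁ z₁' G₁ → (P' : ℝ) + h * J ≤ P₁ →
      e₁ + h * J ≤ e' → ∃ B : F.Ω → Prop, Sub B A ∧ Pe F.p A / 4 ≤ Pe F.p B ∧
        LbOK F ((range i).image c) k K e' J ⌊w * J⌋₊ ⌊u * J⌋₊ P' B z₁ z₁' G₁) := by
  have hposA : ∀ (τ : ℝ) (J : ℕ) (F : Fam m J) (A : F.Ω → Prop), S.St τ J F A → 0 < Pe F.p A :=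
    fun τ J F A hA => (htm (max τ 1) J F A (lt_of_lt_of_le one_pos (le_max_right _ _))
      (S.mono (le_max_left _ _) hA)).1
  have hwu : w ≤ u := (le_vs hL ε hw.2.1.le i).trans hu
  exact rz_cls hC₀ hposA (Pool.GEN.N34.tm_sub34 hC₀ htm) _ k hwu (hw.1.le.trans hwu) hu1
    (seg_full htm hL hcε hw hex hi hu) K hh

/-- One step downwards. -/
theorem ord_step {S : PCl m} {C₀ : ℝ} (hC₀ : 0 ≤ C₀) (htm : TmC S C₀)
    {L : Finset (Fin m) → Fin m → ℝ → ℝ → ℝ} (hL : LamW S L) {ε : Fin n → Fin m} {c : ℕ → Fin m}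
    (hcε : ∀ i : Fin n, c i = ε i) {w : ℝ} (hw : w ∈ Wv L ε) (hex : VExa S L ε w) {j : ℕ}
    (hj : j < n) (hv1 : vs L ε w (j + 1) < 1) {k : Fin m} {Q : ℝ} (hQ : vs L ε w (j + 1) ≤ Q)
    (h : LbC S ((range (j + 1)).image c) k w Q) :
    LbC S ((range j).image c) k w (vs L ε w (j + 1)) := by
  classical
  obtain ⟨v, hv⟩ : ∃ v, v = vs L ε w (j + 1) := ⟨_, rfl⟩
  rw [← hv] at hv1 hQ ⊢
  have hv0 : 0 < v := by
    rw [hv]
    exact hw.1.trans_le (le_vs hL ε hw.2.1.le _)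
  refine LbC.small (h₁ := v) hv0 fun h₀ hh₀ hh₀v => ?_
  -- the label
  obtain ⟨K₁, c₁, hc₁, hB₁⟩ := h (h₀ / 4) (by positivity)
  obtain ⟨cg, hcg⟩ := comp_lbs m K₁
  obtain ⟨η, hη⟩ : ∃ η : ℝ, η = min ((1 - v) / 2) (min (v / 2) (h₀ / (32 * (cg + 1)))) := ⟨_, rfl⟩
  have hcg0 : (0 : ℝ) ≤ cg := Nat.cast_nonneg _
  have hη0 : 0 < η := by
    rw [hη]
    exact lt_min (by linarith) (lt_min (by linarith) (by positivity))
  have hη1 : η ≤ (1 - v) / 2 := by rw [hη]; exact min_le_left _ _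
  have hη2 : η ≤ v / 2 := by rw [hη]; exact (min_le_right _ _).trans (min_le_left _ _)
  have hη3 : η * (32 * (cg + 1)) ≤ h₀ := by
    have h1 : η ≤ h₀ / (32 * (cg + 1)) := by
      rw [hη]
      exact (min_le_right _ _).trans (min_le_right _ _)
    rwa [le_div_iff₀ (by positivity)] at h1
  -- the ball
  have hrz := seg_rz hC₀ htm hL hcε hw hex (i := j + 1) (u := v + η) hj (by
      rw [← hv]
      linarith) (by linarith) k K₁ (h := h₀ / 8) (by positivity)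
  -- the label of the coordinate of the list
  obtain ⟨K₂, hK₂⟩ := vst_att1 hL hw.1 hw.2.1 hw.2.2.1 hw.2.2.2 j ⟨j, hj⟩ rfl ⟨j, hj⟩ le_rfl η hη0
  have hIm : (Iio (⟨j, hj⟩ : Fin n)).image ε = (range j).image c := img_eq hcε ⟨j, hj⟩
  have hins : (range (j + 1)).image c = insert (c j) ((range j).image c) := by
    rw [Finset.range_add_one, Finset.image_insert]
  refine ⟨max K₂ 1 * K₁, 4 * c₁, by positivity, ?_⟩
  obtain ⟨J₁, hJ₁⟩ := exists_nat_ge ((8 * ((cg : ℝ) + 1) + 8) / (h₀ / 16))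
  refine (hB₁.and ((bas_part hrz hc₁).and hK₂)).mono J₁ ?_
  rintro J hJ F A ⟨⟨B₁, hB₁A, hPe₁, V₁, z₁, z₁', G₁, hG₁⟩, hrz', V₂, z₂, z₂', G₂, hG₂⟩
  have hJ0 : (0 : ℝ) ≤ J := Nat.cast_nonneg J
  have hJ1 : 8 * ((cg : ℝ) + 1) + 8 ≤ h₀ / 16 * J := by
    have h1 : (J₁ : ℝ) ≤ J := by exact_mod_cast hJ
    have h2 := hJ₁.trans h1
    rw [div_le_iff₀ (by positivity)] at h2
    linarith
  obtain ⟨P', hP'⟩ : ∃ P' : ℕ, P' = ⌊(v - h₀ / 2) * J⌋₊ := ⟨_, rfl⟩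
  obtain ⟨e', he'⟩ : ∃ e' : ℕ, e' = ⌊h₀ / 2 * J⌋₊ := ⟨_, rfl⟩
  obtain ⟨P₂, hP₂⟩ : ∃ P₂ : ℕ, P₂ = ⌊(vs L ε w ((⟨j, hj⟩ : Fin n) + 1) - η) * J⌋₊ := ⟨_, rfl⟩
  rw [← hP₂] at hG₂
  have hvj : vs L ε w ((⟨j, hj⟩ : Fin n) + 1) = v := by rw [hv]
  rw [hvj] at hP₂
  obtain ⟨ρ₁, hρ₁⟩ : ∃ ρ₁ : ℕ, ρ₁ = ⌊(v + η) * J⌋₊ := ⟨_, rfl⟩
  rw [← hρ₁] at hrz'
  obtain ⟨t, ht⟩ : ∃ t : ℕ, t = ⌊2 * η * J⌋₊ + 2 := ⟨_, rfl⟩
  have hhJ : 0 ≤ h₀ * J := by positivity
  have hηJ : 0 ≤ η * J := by positivity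
  have hvJ : h₀ * J ≤ v * J := mul_le_mul_of_nonneg_right hh₀v hJ0
  have hηv : η * J ≤ v / 2 * J := mul_le_mul_of_nonneg_right hη2 hJ0
  have hη3' : η * J * (32 * (cg + 1)) ≤ h₀ * J := by
    have := mul_le_mul_of_nonneg_right hη3 hJ0
    linarith
  have hcη : 0 ≤ η * J * cg := by positivity
  have f1 : (⌊h₀ / 4 * J⌋₊ : ℝ) ≤ h₀ / 4 * J := Nat.floor_le (by positivity)
  have f2 : (e' : ℝ) ≤ h₀ / 2 * J := by
    rw [he']
    exact Nat.floor_le (by positivity)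
  have f2' : h₀ / 2 * J < e' + 1 := by
    rw [he']
    exact Nat.lt_floor_add_one _
  have f3 : (P' : ℝ) ≤ (v - h₀ / 2) * J := by
    rw [hP']
    refine Nat.floor_le (mul_nonneg (by linarith) hJ0)
  have f3' : (v - h₀ / 2) * J < P' + 1 := by
    rw [hP']
    exact Nat.lt_floor_add_one _
  have f4 : (v - η) * J < P₂ + 1 := by
    rw [hP₂]
    exact Nat.lt_floor_add_one _
  have f5 : (ρ₁ : ℝ) ≤ (v + η) * J := by
    rw [hρ₁]
    refine Nat.floor_le (mul_nonneg (by linarith) hJ0)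
  have f6 : 2 * η * J < (t : ℝ) - 1 := by
    rw [ht]
    push_cast
    linarith [Nat.lt_floor_add_one (2 * η * (J : ℝ))]
  have f6' : (t : ℝ) ≤ 2 * η * J + 2 := by
    rw [ht]
    push_cast
    have : (⌊2 * η * (J : ℝ)⌋₊ : ℝ) ≤ 2 * η * J := Nat.floor_le (by positivity)
    linarith
  have f7 : (Q - h₀ / 4) * J < ⌊(Q - h₀ / 4) * J⌋₊ + 1 := Nat.lt_floor_add_one _
  have hQJ : v * J ≤ Q * J := mul_le_mul_of_nonneg_right hQ hJ0
  obtain ⟨B₂, hB₂, hPe₂, hG₃⟩ := hrz' B₁ hB₁A hPe₁ ⌊(Q - h₀ / 4) * J⌋₊ P' e' ⌊h₀ / 4 * J⌋₊ V₁ z₁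
    z₁' G₁ hG₁ (by linarith) (by linarith)
  -- the composition
  have hG₂' : LbS F ((range j).image c) (c j) K₂ ⌊η * J⌋₊ J ⌊w * J⌋₊ P₂ B₂ z₂ z₂' G₂ := by
    rw [hIm, ← hcε ⟨j, hj⟩] at hG₂
    exact (LbS.of hG₂).sub fun ω hω => hB₁A ω (hB₂ ω hω)
  rw [hins] at hG₃
  obtain ⟨P, hP⟩ : ∃ P : ℕ, P = ⌊(v - h₀) * J⌋₊ := ⟨_, rfl⟩
  have f8 : (P : ℝ) ≤ (v - h₀) * J := by
    rw [hP]
    refine Nat.floor_le (mul_nonneg (by linarith) hJ0)
  have f9 : (⌊η * J⌋₊ : ℝ) ≤ η * J := Nat.floor_le hηJ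
  have f10 : (t : ℝ) * cg ≤ (2 * η * J + 2) * cg := mul_le_mul_of_nonneg_right f6' hcg0
  have key := hcg K₂ J F ((range j).image c) (c j) k ⌊w * J⌋₊ e' ρ₁ P' ⌊η * J⌋₊ P₂ t P B₂ V₁ V₂
    z₁ z₁' G₁ z₂ z₂' G₂ hG₃ hG₂' (by
      have : (ρ₁ : ℝ) ≤ ((P₂ + t : ℕ) : ℝ) := by
        push_cast
        linarith
      exact_mod_cast this) (by
      have : ((P + 1 : ℕ) : ℝ) ≤ (P' : ℝ) := by
        push_cast
        linarith
      exact_mod_cast this) (by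
      have : ((P + e' + t * cg + 1 : ℕ) : ℝ) ≤ (P₂ : ℝ) := by
        push_cast
        linarith
      exact_mod_cast this)
  refine ⟨B₂, fun ω hω => hB₁A ω (hB₂ ω hω), ?_, V₁ × V₂, _, _, _,
    key.mono (Finset.Subset.refl _) le_rfl ?_ (by rw [hP])⟩
  · have := mul_le_mul_of_nonneg_left hPe₂ (by positivity : (0 : ℝ) ≤ 4 * c₁)
    linarith
  · refine Nat.le_floor ?_
    push_cast
    linarith

/-- **The labels over the initial segments.** -/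
theorem ord_seg {S : PCl m} {C₀ : ℝ} (hC₀ : 0 ≤ C₀) (htm : TmC S C₀)
    {L : Finset (Fin m) → Fin m → ℝ → ℝ → ℝ} (hL : LamW S L) {ε : Fin n → Fin m} {c : ℕ → Fin m}
    (hcε : ∀ i : Fin n, c i = ε i) {w : ℝ} (hw : w ∈ Wv L ε) (hex : VExa S L ε w)
    (hv1 : vs L ε w n < 1) {k : Fin m} {Q : ℝ} (hQ : vs L ε w n ≤ Q)
    (h : LbC S ((range n).image c) k w Q) :
    ∀ d : ℕ, ∀ j < n, j + d + 1 = n → LbC S ((range j).image c) k w (vs L ε w (j + 1)) := by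
  have hmono := hw.2.2.1.mono hL hw.2.1.le
  intro d
  induction d with
  | zero =>
    intro j hj hjd
    have hjn : j + 1 = n := by omega
    refine ord_step hC₀ htm hL hcε hw hex hj ?_ (Q := Q) ?_ ?_
    · rw [hjn]
      exact hv1
    · rw [hjn]
      exact hQ
    · rw [hjn]
      exact h
  | succ d ih =>
    intro j hj hjd
    have h1 : vs L ε w (j + 1) ≤ vs L ε w n := hmono (by omega)
    have h2 : vs L ε w (j + 1) ≤ vs L ε w (j + 1 + 1) := hmono (by omega)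
    exact ord_step hC₀ htm hL hcε hw hex hj (h1.trans_lt hv1) h2 (ih (j + 1) (by omega) (by omega))

/-- A number from labels with small gradients at the points. -/
theorem num_low {S : PCl m} (hne : S.Ne) {C₀ : ℝ} (hC₀ : 0 ≤ C₀) (htm : TmC S C₀)
    {L : Finset (Fin m) → Fin m → ℝ → ℝ → ℝ} (hL : LamW S L) {ε : Fin n → Fin m} {c : ℕ → Fin m}
    (hcε : ∀ i : Fin n, c i = ε i) {w : ℝ} (hw : w ∈ Wv L ε) (hex : VExa S L ε w) {j : ℕ}
    (hj : j ≤ n) (hv1 : vs L ε w j < 1) {k : Fin m} {Q : ℝ} (hQ1 : Q ≤ 1)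
    (h : LbC S ((range j).image c) k w Q) : Q ≤ L ((range j).image c) k w (vs L ε w j) := by
  classical
  by_contra hcon
  push Not at hcon
  obtain ⟨R, hR⟩ : ∃ R, R = L ((range j).image c) k w (vs L ε w j) := ⟨_, rfl⟩
  rw [← hR] at hcon
  have hR0 : w ≤ R := by
    rw [hR]
    exact hL.low _ _ _ _ hw.2.1.le
  obtain ⟨g, hg⟩ : ∃ g, g = (Q - R) / 4 := ⟨_, rfl⟩
  have hg0 : 0 < g := by rw [hg]; linarith
  obtain ⟨d, hd, hd1, habs⟩ := hL.abs ((range j).image c) k w (vs L ε w j) (R + g)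
    (by rw [← hR]; linarith) (by linarith)
  obtain ⟨η, hη⟩ : ∃ η : ℝ, η = min (min d ((1 - vs L ε w j) / 2)) g := ⟨_, rfl⟩
  have hη0 : 0 < η := by
    rw [hη]
    exact lt_min (lt_min hd (by linarith)) hg0
  have hηd : η ≤ d := by rw [hη]; exact (min_le_left _ _).trans (min_le_left _ _)
  have hηv : η ≤ (1 - vs L ε w j) / 2 := by
    rw [hη]
    exact (min_le_left _ _).trans (min_le_right _ _)
  have hηg : η ≤ g := by rw [hη]; exact min_le_right _ _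
  obtain ⟨K, c₁, hc₁, hB⟩ := h (η / 4) (by positivity)
  have hrz := seg_rz hC₀ htm hL hcε hw hex (i := j) (u := vs L ε w j + η) hj (by linarith)
    (by linarith) k K (h := η / 4) (by positivity)
  have hno := bas_part (habs d le_rfl K) (c := 4 * c₁) (by positivity)
  obtain ⟨J₁, hJ₁⟩ := exists_nat_ge (4 / (η / 4))
  obtain ⟨τ, hτ, J₂, hall⟩ := (hB.and ((bas_part hrz hc₁).and hno))
  obtain ⟨J, hJ, F, A, hA⟩ := hne τ hτ (max J₁ J₂)
  obtain ⟨⟨B₁, hB₁A, hPe₁, V₁, z₁, z₁', G₁, hG₁⟩, hrz', hno'⟩ :=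
    hall J ((le_max_right _ _).trans hJ) F A hA
  have hJ0 : (0 : ℝ) ≤ J := Nat.cast_nonneg J
  have hJ1 : 4 ≤ η / 4 * J := by
    have h1 : (J₁ : ℝ) ≤ J := by exact_mod_cast (le_max_left _ _).trans hJ
    have h2 := hJ₁.trans h1
    rw [div_le_iff₀ (by positivity)] at h2
    linarith
  have hηJ : 0 ≤ η * J := by positivity
  have f1 : (⌊η / 4 * J⌋₊ : ℝ) ≤ η / 4 * J := Nat.floor_le (by positivity)
  have f2 : η * J < (⌊η * J⌋₊ : ℝ) + 1 := Nat.lt_floor_add_one _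
  have f3 : (Q - η / 4) * J < (⌊(Q - η / 4) * J⌋₊ : ℝ) + 1 := Nat.lt_floor_add_one _
  have f4 : (⌊(R + g) * J⌋₊ : ℝ) ≤ (R + g) * J := by
    refine Nat.floor_le (mul_nonneg ?_ hJ0)
    linarith [hw.1]
  have hηgJ : η * J ≤ g * J := mul_le_mul_of_nonneg_right hηg hJ0
  have f5 : (R + g) * J + 3 * (g * J) = Q * J := by
    rw [hg]
    ring
  obtain ⟨B₂, hB₂, hPe₂, hG₃⟩ := hrz' B₁ hB₁A hPe₁ ⌊(Q - η / 4) * J⌋₊ ⌊(R + g) * J⌋₊ ⌊η * J⌋₊
    ⌊η / 4 * J⌋₊ V₁ z₁ z₁' G₁ hG₁ (by linarith) (by linarith)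
  refine hno' B₂ (fun ω hω => hB₁A ω (hB₂ ω hω)) ?_ ?_
  · have := mul_le_mul_of_nonneg_left hPe₂ (by positivity : (0 : ℝ) ≤ 4 * c₁)
    linarith
  · have h1 : Lb F ((range j).image c) k K ⌊η * J⌋₊ J ⌊w * J⌋₊ ⌊(vs L ε w j + η) * J⌋₊
        ⌊(R + g) * J⌋₊ B₂ := ⟨V₁, z₁, z₁', G₁, hG₃⟩
    exact h1.mono (Finset.Subset.refl _) le_rfl
      (Nat.floor_le_floor (mul_le_mul_of_nonneg_right hηd hJ0)) le_rfl
      (Nat.floor_le_floor (mul_le_mul_of_nonneg_right (by linarith) hJ0))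
      (fl_le (by linarith) J)
      (Nat.floor_le_floor (mul_le_mul_of_nonneg_right (by linarith) hJ0)) le_rfl

/-- **The numbers of the coordinate behind the list are at least the numbers of the list.** -/
theorem ord_num {S : PCl m} (hne : S.Ne) {C₀ : ℝ} (hC₀ : 0 ≤ C₀) (htm : TmC S C₀)
    {L : Finset (Fin m) → Fin m → ℝ → ℝ → ℝ} (hL : LamW S L) {ε : Fin n → Fin m}
    {w : ℝ} (hw : w ∈ Wv L ε) (hex : VExa S L ε w)
    (hv1 : vs L ε w n < 1) {k : Fin m} {Q : ℝ} (hQ : vs L ε w n ≤ Q)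
    (h : LbC S (univ.image ε) k w Q) (j : Fin n) : vs L ε w (j + 1) ≤ vn L ε j k w := by
  classical
  obtain ⟨c, hcε⟩ : ∃ c : ℕ → Fin m, ∀ i : Fin n, c i = ε i :=
    ⟨fun i => if h : i < n then ε ⟨i, h⟩ else ε j, fun i => dif_pos i.2⟩
  have hmono := hw.2.2.1.mono hL hw.2.1.le
  have hu : (univ : Finset (Fin n)).image ε = (range n).image c := by
    ext x
    simp only [mem_image, mem_univ, true_and, mem_range]
    constructor
    · rintro ⟨i, rfl⟩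
      exact ⟨i, i.2, hcε i⟩
    · rintro ⟨i, hi, rfl⟩
      exact ⟨⟨i, hi⟩, (hcε ⟨i, hi⟩).symm⟩
  rw [hu] at h
  have h1 := ord_seg hC₀ htm hL hcε hw hex hv1 hQ h (n - 1 - j) j j.2 (by omega)
  have h2 : vs L ε w (j : ℕ) ≤ vs L ε w n := hmono j.2.le
  have h3 : vs L ε w ((j : ℕ) + 1) ≤ vs L ε w n := hmono j.2
  have h4 := num_low hne hC₀ htm hL hcε hw hex j.2.le (h2.trans_lt hv1) (h3.trans hv1.le) h1
  unfold vn
  rw [img_eq hcε]
  exact h4

/-! ### The list with the further coordinate -/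

/-- The list with a further coordinate. -/
def snc (ε : Fin n → Fin m) (k : Fin m) : Fin (n + 1) → Fin m :=
  fun i => if h : (i : ℕ) < n then ε ⟨i, h⟩ else k

theorem snc_lt (ε : Fin n → Fin m) (k : Fin m) {i : Fin (n + 1)} (h : (i : ℕ) < n) :
    snc ε k i = ε ⟨i, h⟩ := dif_pos h

theorem snc_last (ε : Fin n → Fin m) (k : Fin m) {i : Fin (n + 1)} (h : (i : ℕ) = n) :
    snc ε k i = k := dif_neg (by omega)

theorem snc_inj {ε : Fin n → Fin m} (hε : Function.Injective ε) {k : Fin m}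
    (hk : ∀ j, ε j ≠ k) : Function.Injective (snc ε k) := by
  intro a b h
  rcases Nat.lt_or_ge (a : ℕ) n with ha | ha <;> rcases Nat.lt_or_ge (b : ℕ) n with hb | hb
  · rw [snc_lt ε k ha, snc_lt ε k hb] at h
    have := hε h
    exact Fin.ext (Fin.mk.inj_iff.1 this)
  · rw [snc_lt ε k ha, snc_last ε k (by omega)] at h
    exact absurd h (hk _)
  · rw [snc_lt ε k hb, snc_last ε k (by omega)] at h
    exact absurd h.symm (hk _)
  · exact Fin.ext (by omega)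

theorem snc_img (ε : Fin n → Fin m) (k : Fin m) {j : Fin (n + 1)} {j' : Fin n}
    (h : (j : ℕ) = j') : (Iio j).image (snc ε k) = (Iio j').image ε := by
  ext x
  simp only [mem_image, mem_Iio]
  constructor
  · rintro ⟨i, hi, rfl⟩
    have hi' : (i : ℕ) < n := by
      have : (i : ℕ) < j := hi
      omega
    refine ⟨⟨i, hi'⟩, ?_, (snc_lt ε k hi').symm⟩
    rw [Fin.lt_def] at hi ⊢
    simp only
    omega
  · rintro ⟨i, hi, rfl⟩
    refine ⟨⟨i, by omega⟩, ?_, snc_lt ε k (i := ⟨i, by omega⟩) i.2⟩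
    rw [Fin.lt_def] at hi ⊢
    simp only
    omega

theorem snc_img_last (ε : Fin n → Fin m) (k : Fin m) {j : Fin (n + 1)} (h : (j : ℕ) = n) :
    (Iio j).image (snc ε k) = univ.image ε := by
  ext x
  simp only [mem_image, mem_Iio, mem_univ, true_and]
  constructor
  · rintro ⟨i, hi, rfl⟩
    have hi' : (i : ℕ) < n := by
      have : (i : ℕ) < j := hi
      omega
    exact ⟨⟨i, hi'⟩, (snc_lt ε k hi').symm⟩
  · rintro ⟨i, rfl⟩
    refine ⟨⟨i, by omega⟩, ?_, snc_lt ε k (i := ⟨i, by omega⟩) i.2⟩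
    rw [Fin.lt_def]
    simp only
    omega

theorem snc_vs (L : Finset (Fin m) → Fin m → ℝ → ℝ → ℝ) (ε : Fin n → Fin m) (k : Fin m) (w : ℝ) :
    ∀ j ≤ n, vs L (snc ε k) w j = vs L ε w j := by
  intro j
  induction j with
  | zero => exact fun _ => rfl
  | succ j ih =>
    intro hj
    have h1 : j < n + 1 := by omega
    have h2 : j < n := by omega
    simp only [vs]
    rw [dif_pos h1, dif_pos h2, ih (by omega), snc_img ε k (j := ⟨j, h1⟩) (j' := ⟨j, h2⟩) rfl,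
      snc_lt ε k (i := ⟨j, h1⟩) h2]

/-- The number of the further coordinate. -/
theorem snc_vs_last (L : Finset (Fin m) → Fin m → ℝ → ℝ → ℝ) (ε : Fin n → Fin m) (k : Fin m)
    (w : ℝ) : vs L (snc ε k) w (n + 1) = L (univ.image ε) k w (vs L ε w n) := by
  have h1 : n < n + 1 := by omega
  simp only [vs]
  rw [dif_pos h1, snc_vs L ε k w n le_rfl, snc_img_last ε k (j := ⟨n, h1⟩) rfl,
    snc_last ε k (i := ⟨n, h1⟩) rfl]

/-- **The list with the further coordinate is greedy.** -/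
theorem wv_snc {L : Finset (Fin m) → Fin m → ℝ → ℝ → ℝ} {ε : Fin n → Fin m} {k : Fin m} {w : ℝ}
    (hw : w ∈ Wv L ε) (hct : Vct L (snc ε k) w)
    (hnum : ∀ j : Fin n, vs L ε w (j + 1) ≤ vn L ε j k w) : w ∈ Wv L (snc ε k) := by
  refine ⟨hw.1, hw.2.1, fun j l hjl => ?_, hct⟩
  rcases Nat.lt_or_ge (j : ℕ) n with hj | hj
  · have e1 : vn L (snc ε k) j (snc ε k l) w = vn L ε ⟨j, hj⟩ (snc ε k l) w := by
      unfold vn
      rw [snc_img ε k (j' := ⟨j, hj⟩) rfl, snc_vs L ε k w j hj.le]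
    rw [e1, snc_vs L ε k w (j + 1) hj]
    rcases Nat.lt_or_ge (l : ℕ) n with hl | hl
    · rw [snc_lt ε k hl]
      exact hw.2.2.1 ⟨j, hj⟩ ⟨l, hl⟩ hjl
    · rw [snc_last ε k (by omega)]
      exact hnum ⟨j, hj⟩
  · have hlj : l = j := Fin.ext (by
      have : (j : ℕ) ≤ l := hjl
      omega)
    rw [hlj, vs_succ]

/-- **A coordinate behind a greedy list**: with a closed label over the list, with small gradients at
the points, of precision `Q` at least the numbers of the list, the list with this coordinate is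
greedy. -/
theorem ord_last {S : PCl m} (hne : S.Ne) {C₀ : ℝ} (hC₀ : 0 ≤ C₀) (htm : TmC S C₀)
    {L : Finset (Fin m) → Fin m → ℝ → ℝ → ℝ} (hL : LamW S L) {ε : Fin n → Fin m}
    {w : ℝ} (hw : w ∈ Wv L ε) (hex : VExa S L ε w)
    (hv1 : vs L ε w n < 1) {k : Fin m} (hct : Vct L (snc ε k) w) {Q : ℝ} (hQ : vs L ε w n ≤ Q)
    (h : LbC S (univ.image ε) k w Q) : w ∈ Wv L (snc ε k) :=
  wv_snc hw hct (ord_num hne hC₀ htm hL hw hex hv1 hQ h)

end Pool.ORD65
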