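import Pool.Agent.H65.NFC.Near

/-!
# The labels of a grid on small balls

`ball_gdat`: on the ball of radius `2 ^ (-R)` around the sample (with the exact time) the polynomial
of the line of each coordinate is near the position, with the precision of the label, if the
gradients times `2 ^ (-R)` are less than the precisions.
-/

set_option autoImplicit false

namespace Pool.ORD65

open Finset MvPolynomial
open Pool.Agent.H49.Ent Pool.Agent.H32.Dense Pool.STK Pool.KS3 Pool.KA Pool.KSAT Pool.PB Pool.GEN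
open Pool.K2S Pool.STAT Pool.STAT.CLO

/-- **The labels on small balls.** -/
theorem ball_gdat (n K K' s₁ : ℕ) (sh : ℕ → ℕ) (hK' : 1 ≤ K') : ∃ (C : ℝ) (s₂ : ℕ), 1 ≤ C ∧
    ∀ {m J : ℕ} {F : Fam m J} {D : GDat F} {c : ℕ → Fin m} {M a₀ w₀ z : ℕ} {e : ℕ → ℕ → ℕ}
    {g : ℕ → ℕ → ℕ → ℕ} {B : F.Ω → Prop}, D.Ok c n K K' s₁ sh a₀ w₀ z M e g B → Inj c n →
    ∀ i ≤ M, ∀ j ≤ M, ∀ (E : ℕ → ℕ) (R : ℕ), a₀ + i * z ≤ R → (∀ l < n, sh (l + 1) ≤ g i j l) →
    (∀ l < n, ∀ k < l, e i j + nlp (g i j) k l ≤ E l) →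
    (∀ l < n, g i j l + E l + s₂ ≤ R) → ∀ ω, B ω → ∀ b : ℕ → ℝ, b 0 = F.t ω →
    ∀ l, 1 ≤ l → l ≤ n →
    (∀ k, 1 ≤ k → k < l → |b k - cx F (fun i => c (i - 1)) ω k| ≤ 1 / 2 ^ R) →
    |eval b (D.PL i j (D.zL i j (slam F (w₀ + j * z) ω)) l) -
      cx F (fun i => c (i - 1)) ω l| ≤ C / 2 ^ (g i j (l - 1) - sh l) := by
  obtain ⟨L, s₂, hL, hnear⟩ := Pool.STAT.CLO.near_gd n n K K' s₁ sh le_rfl hK'
  obtain ⟨C₁, hC₁, hdil⟩ := dil n K'
  obtain ⟨ρ, hρ⟩ : ∃ ρ : ℝ, ρ = L + 2 := ⟨_, rfl⟩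
  have hρ1 : 1 ≤ ρ := by rw [hρ]; linarith
  obtain ⟨K₁, hK₁⟩ : ∃ K₁, K₁ = K' * (K' + 1) ^ (n + 1) := ⟨_, rfl⟩
  rw [← hK₁] at hdil
  have hP1 : (1 : ℝ) ≤ ρ ^ K₁ := one_le_pow₀ hρ1
  refine ⟨C₁ * ρ ^ K₁ + ρ, s₂, by nlinarith, ?_⟩
  intro m J F D c M a₀ w₀ z e g B h hc i hi j hj E R haR hsh hE hsiz ω hω b hb0 l hl1 hl hb
  have hch := h.chn i hi j hj
  have hO := h.out i hi j hj
  obtain ⟨x, hx⟩ : ∃ x, x = cx F (fun i => c (i - 1)) ω := ⟨_, rfl⟩
  obtain ⟨PS, hPS⟩ : ∃ PS, PS = D.PS i j (D.zS i j (ptr F J ω)) := ⟨_, rfl⟩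
  obtain ⟨PL, hPL⟩ : ∃ PL, PL = D.PL i j (D.zL i j (slam F (w₀ + j * z) ω)) := ⟨_, rfl⟩
  have hx0 : x 0 = F.t ω := by
    rw [hx]
    exact if_pos rfl
  have hS0 : PS 0 = MvPolynomial.C (F.t ω) := by
    rw [hPS, hO.Szero, hO.Sfst]
    rfl
  have hpos : ∀ k, 1 ≤ k → k ≤ n → |x k - eval x (PS k)| ≤ 1 / 2 ^ (g i j (k - 1) - sh k) := by
    intro k h1 h2
    rw [hx, hPS]
    exact hO.pos ω hω k h1 h2
  have hSv : ∀ k, (PS k).vars ⊆ range k := fun k => by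
    rw [hPS]
    exact hO.Stri _ k
  have hvar : ∀ b : ℕ → ℝ, b 0 = F.t ω → ∀ k, 1 ≤ k → k ≤ n →
      (∀ k', 1 ≤ k' → k' < k → |b k' - x k'| ≤ 1 / 2 ^ R) →
      |eval b (PS k) - eval x (PS k)| ≤ L / 2 ^ (g i j (k - 1) - sh k) := by
    intro b hb0 k h1 h2 hb
    have h3 := hnear m J R F c (a₀ + i * z) (g i j) E 0 (D.G i j (ptr F J ω)) PS ω haR hc
      (fun k _ => hch.degG _ k) (fun k => hch.depG _ k) (fun k hk b' hb' l' hl' =>
        (hch.lip ω hω k hk b' hb' l' hl').trans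
          (pow_le_pow_right₀ (by norm_num) (hE k hk l' hl')))
      (fun k _ _ => hSv k) (fun k _ _ => by rw [hPS]; exact hO.Sdeg _ k) hS0 (by
        rw [hPS]
        exact hO.nrS ω hω) (fun k h1 h2 => by
        rw [← hx]
        exact hpos k h1 h2) hsh (fun k hk => by
        have := hsiz k hk
        omega) b hb0 k h1 h2 (by rw [← hx]; exact hb)
    rw [← hx] at h3
    rw [Nat.add_zero] at h3
    exact h3
  rw [← hx] at hb ⊢
  rw [← hPL]
  -- the point is in the dilated box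
  have hRg : ∀ k, 1 ≤ k → k ≤ n → (1 : ℝ) / 2 ^ R ≤ 1 / 2 ^ (g i j (k - 1) - sh k) := by
    intro k h1 h2
    refine one_div_le_one_div_of_le (by positivity) (pow_le_pow_right₀ (by norm_num) ?_)
    have := hsiz (k - 1) (by omega)
    omega
  obtain ⟨g', hg'⟩ : ∃ g' : ℕ → ℕ, g' = gt0 (a₀ + i * z) fun k => g i j (k - 1) - sh k := ⟨_, rfl⟩
  have eg : ∀ k, 1 ≤ k → g' k = g i j (k - 1) - sh k := fun k hk => by
    rw [hg']
    exact gt0_pos _ _ hk
  have hbox : Bxr ρ g' PS l b := by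
    intro k hk
    rcases Nat.eq_zero_or_pos k with rfl | hk0
    · rw [hS0, eval_C, hb0, sub_self, abs_zero]
      positivity
    · rw [eg k hk0]
      have a1 := hb k hk0 hk
      have a2 := hpos k hk0 (by omega)
      have a3 := hvar b hb0 k hk0 (by omega) (fun k' h1 h2 => hb k' h1 (by omega))
      have a4 := hRg k hk0 (by omega)
      have e1 : b k - eval b (PS k) = (b k - x k) + (x k - eval x (PS k)) -
          (eval b (PS k) - eval x (PS k)) := by ring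
      have e2 : ρ / 2 ^ (g i j (k - 1) - sh k) = 1 / 2 ^ (g i j (k - 1) - sh k) +
          1 / 2 ^ (g i j (k - 1) - sh k) + L / 2 ^ (g i j (k - 1) - sh k) := by
        rw [hρ]
        ring
      rw [e1, e2]
      exact (abs_sub _ _).trans (add_le_add ((abs_add_le _ _).trans
        (add_le_add (a1.trans a4) a2)) a3)
  have hagr := hdil PS g' (PS l - PL l) l (1 / 2 ^ g' l) ρ (fun k => hSv k)
    (fun k => by rw [hPS]; exact hO.Sdeg _ k) hl (by
      have hLv : (PL l).vars ⊆ range l := by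
        rw [hPL]
        exact hO.Ltri _ l
      intro v hv
      have hv' := MvPolynomial.vars_sub_subset _ hv
      rw [Finset.mem_union] at hv'
      exact hv'.elim (fun h => hSv l h) fun h => hLv h) (by
      refine (MvPolynomial.totalDegree_sub _ _).trans (max_le ?_ ?_)
      · rw [hPS]
        exact hO.Sdeg _ l
      · rw [hPL]
        exact hO.Ldeg _ l) hρ1 (fun b' hb' => by
      rw [map_sub, eg l hl1, hPS, hPL]
      rw [Bxr_one, hg', hPS] at hb'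
      exact hO.agr ω hω l hl1 hl b' hb') b hbox
  rw [map_sub, eg l hl1] at hagr
  have a2 := hpos l hl1 hl
  have a3 := hvar b hb0 l hl1 hl hb
  have e1 : eval b (PL l) - x l = (eval b (PS l) - eval x (PS l)) -
      (eval b (PS l) - eval b (PL l)) - (x l - eval x (PS l)) := by ring
  have e2 : (C₁ * ρ ^ K₁ + ρ) / 2 ^ (g i j (l - 1) - sh l) = L / 2 ^ (g i j (l - 1) - sh l) +
      C₁ * (1 / 2 ^ (g i j (l - 1) - sh l)) * ρ ^ K₁ + 1 / 2 ^ (g i j (l - 1) - sh l) +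
      1 / 2 ^ (g i j (l - 1) - sh l) := by
    rw [hρ]
    ring
  rw [e1, e2]
  have h9 : (0 : ℝ) < 1 / 2 ^ (g i j (l - 1) - sh l) := by positivity
  have h10 := (abs_sub _ _).trans (add_le_add ((abs_sub _ _).trans (add_le_add a3 hagr)) a2)
  linarith

end Pool.ORD65
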