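import Pool.Agent.H65.ORD.Last
import Pool.Agent.H89.TGT.Exz
import Pool.Agent.H33.SHF.Unl

/-!
# The labels of the zooms of a class are labels of the families with a record

`lbr_cls`: closed labels of the zooms of a class give closed labels of the families with the record
of the zoom and the digits of the direction (`Lbr` of helper89). `lbr_shf`: for the zooms of the
classes with shrunk coordinates (helper33).
-/

set_option autoImplicit false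

namespace Pool.ORD65

open Finset Real MvPolynomial
open Pool.Agent.H49.Ent Pool.Agent.H32.Dense Pool.STK Pool.KA Pool.KSAT Pool.K2S Pool.PB Pool.GEN
open Pool.S6C Pool.GRD Pool.GRW Pool.REX Pool.TGT Pool.REX83 Pool.SHF33

variable {m n J : ℕ}

/-- Labels with a record on a large part of each event. -/
def LrC (S : PCl m) (I : Finset (Fin m)) (k : Fin m) (K : ℕ) (W P q : ℝ)
    {κ : ∀ J : ℕ, Fam m J → Type} (y : ∀ (J : ℕ) (F : Fam m J), F.Ω → κ J F) : Prop :=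
  ∃ c₁ : ℝ, Bas S (fun J F A => ∃ B : F.Ω → Prop, Sub B A ∧ Pe F.p A ≤ c₁ * Pe F.p B ∧
    ∃ (V : Type) (z : PtT F → κ J F × (Fin m → ℤ) → V) (z' : LnT F → V)
      (G : V → MvPolynomial (Option (Fin m)) ℝ),
      Lbr F I k K ⌊W * J⌋₊ ⌊P * J⌋₊ (fun ω => (y J F ω, F.D ⌊q * J⌋₊ ω)) B z z' G)

/-- **Labels of the zooms are labels with a record.** -/
theorem lbr_cls {S : PCl m} (v : Vz m) (ε : Fin n → Fin m) {I : Finset (Fin n)} {k : Fin n}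
    {K : ℕ} {e w r h : ℝ} (hw0 : 0 ≤ w) (hw : w ≤ 1) (hr0 : 0 ≤ r) (hr : r ≤ 1) (he : 0 ≤ e)
    (hh : 0 < h) (h1 : h + e < 1)
    (hlb : Bas (RecV S v ε) (fun J F A => Lb F I k K ⌊e * J⌋₊ J ⌊w * J⌋₊ ⌊r * J⌋₊ ⌊h * J⌋₊ A))
    {W P q : ℝ} (hW : v.tm w < W) (hW1 : W ≤ 1) (hP : P < v.sc h)
    (hq : (1 - v.b) * v.p < q) :
    LrC S (I.image ε) (ε k) (K + 1) W P q v.y := by
  classical
  obtain ⟨c₀, hc₀⟩ := lbr_of n K
  obtain ⟨D, hD⟩ : ∃ D : ℝ, D = 7 ^ m * 7 ^ n * 99 ^ n := ⟨_, rfl⟩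
  have hb0 := v.b0
  have hb1 := v.b1
  have hp0 := v.p0
  have hp1 := v.p1
  have hc : 0 < (1 - v.b) * (1 - v.p) := mul_pos (by linarith) (by linarith)
  have hbr := bas_rec hlb
  obtain ⟨J₁, hJ₁⟩ := big (a := (1 - h - e) * ((1 - v.b) * (1 - v.p)))
    (mul_pos (by linarith) hc) (c₀ + 1 : ℝ)
  obtain ⟨J₂, hJ₂⟩ := big (a := W - v.tm w) (by linarith) (2 : ℝ)
  obtain ⟨J₃, hJ₃⟩ := big (a := v.sc h - P) (by linarith) (6 : ℝ)
  obtain ⟨J₄, hJ₄⟩ := big (a := h * ((1 - v.b) * (1 - v.p))) (mul_pos hh hc) (2 : ℝ)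
  obtain ⟨J₅, hJ₅⟩ := big (a := q - (1 - v.b) * v.p) (by linarith) (1 : ℝ)
  refine ⟨D, (bas_fac hbr D).mono (max (max (max J₁ J₂) (max J₃ J₄)) J₅) ?_⟩
  intro J hJ' F A hall
  have hJ := (le_max_left _ _).trans hJ'
  have j5 := hJ₅ J ((le_max_right _ _).trans hJ')
  have j1 := hJ₁ J (((le_max_left _ _).trans (le_max_left _ _)).trans hJ)
  have j2 := hJ₂ J (((le_max_right _ _).trans (le_max_left _ _)).trans hJ)
  have j3 := hJ₃ J (((le_max_left _ _).trans (le_max_right _ _)).trans hJ)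
  have j4 := hJ₄ J (((le_max_right _ _).trans (le_max_right _ _)).trans hJ)
  have hJ0 : (0 : ℝ) ≤ J := Nat.cast_nonneg J
  obtain ⟨k1, k2, k3⟩ := v.floor_le J
  obtain ⟨u1, u2, -, u4, u5⟩ := sc_units v J (s := h) hh.le (by linarith)
  obtain ⟨-, -, u3, -, -⟩ := sc_units v J (s := w) hw0 hw
  have hR0 : (0 : ℝ) ≤ v.R J := Nat.cast_nonneg _
  obtain ⟨B, hBA, hPB, hpd⟩ := ptr_part F k2 (v.y J F) ε k1 A
  obtain ⟨V, z, z', G, hG⟩ := hall B hBA (by rw [hD]; exact hPB) k2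
  have hR : v.R J = J - v.B J - v.P J := rfl
  obtain ⟨P₁, hP₁⟩ : ∃ P₁ : ℕ, P₁ = ⌊h * (v.R J : ℝ)⌋₊ := ⟨_, rfl⟩
  have hhR : 0 ≤ h * (v.R J : ℝ) := by positivity
  have f1 : h * (v.R J : ℝ) < P₁ + 1 := by
    rw [hP₁]
    exact Nat.lt_floor_add_one _
  have f2 : (P₁ : ℝ) ≤ h * v.R J := by
    rw [hP₁]
    exact Nat.floor_le hhR
  have f3 : (⌊e * (v.R J : ℝ)⌋₊ : ℝ) ≤ e * v.R J := Nat.floor_le (by positivity)
  have f4 : (⌊w * (v.R J : ℝ)⌋₊ : ℝ) ≤ w * v.R J := Nat.floor_le (by positivity)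
  have g1 : (1 - h - e) * ((1 - v.b) * (1 - v.p)) * J ≤ (1 - h - e) * v.R J := by
    have := mul_le_mul_of_nonneg_left u4 (by linarith : (0 : ℝ) ≤ 1 - h - e)
    linarith
  have g2 : h * ((1 - v.b) * (1 - v.p)) * J ≤ h * v.R J := by
    have := mul_le_mul_of_nonneg_left u4 hh.le
    linarith
  have hP11 : 1 ≤ P₁ := by
    have : (1 : ℝ) < (P₁ : ℝ) + 1 := by linarith
    have h2 : (0 : ℝ) < (P₁ : ℝ) := by linarith
    exact_mod_cast h2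
  obtain ⟨V', zz, zz', GG, hGG⟩ := hc₀ F k1 k2 (v.y J F) (v.line J F) hpd hG
    (Nat.floor_le_of_le (mul_le_of_le_one_left hR0 hw))
    (Nat.floor_le_of_le (mul_le_of_le_one_left hR0 hr)) (by rw [← hP₁]; exact hP11) (by
      rw [← hP₁]
      have : ((P₁ + ⌊e * (v.R J : ℝ)⌋₊ + c₀ : ℕ) : ℝ) ≤ (v.R J : ℝ) := by
        push_cast
        linarith
      exact_mod_cast this)
  rw [← hP₁] at hGG
  have hWJ : ⌊W * (J : ℝ)⌋₊ ≤ J := by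
    refine Nat.floor_le_of_le ?_
    have := mul_le_mul_of_nonneg_right hW1 hJ0
    linarith
  have hwW : v.B J + ⌊w * (v.R J : ℝ)⌋₊ ≤ ⌊W * (J : ℝ)⌋₊ := by
    refine Nat.le_floor ?_
    push_cast
    linarith
  have hPP : ⌊P * (J : ℝ)⌋₊ ≤ v.B J + v.P J + (P₁ - 1) := by
    refine Nat.floor_le_of_le ?_
    rw [Nat.cast_add, Nat.cast_add, Nat.cast_sub hP11]
    push_cast
    linarith
  have hqJ : v.P J ≤ ⌊q * (J : ℝ)⌋₊ := by
    unfold Vz.P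
    refine Nat.floor_le_floor ?_
    have e1 : ((J - v.B J : ℕ) : ℝ) = J - v.B J := by rw [Nat.cast_sub k1]
    rw [e1]
    have e2 : v.b * J < v.B J + 1 := Nat.lt_floor_add_one _
    have e3 : v.p * ((J : ℝ) - v.B J) ≤ v.p * ((1 - v.b) * J + 1) :=
      mul_le_mul_of_nonneg_left (by linarith) hp0
    linarith
  have h2 := (hGG.win hwW hWJ).mono le_rfl hPP
  obtain ⟨zz₁, h3⟩ := Lbr.fineD (yd' := fun ω => (v.y J F ω, F.D ⌊q * J⌋₊ ω)) (fun ω ω' _ _ hh => by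
    have a1 : v.y J F ω = v.y J F ω' := congrArg Prod.fst hh
    have a2 : F.D ⌊q * (J : ℝ)⌋₊ ω = F.D ⌊q * (J : ℝ)⌋₊ ω' := congrArg Prod.snd hh
    have a3 : F.D (v.P J) ω = F.D (v.P J) ω' := Pool.STK.B58.fl_fine hqJ a2
    refine Prod.ext a1 ?_
    funext j
    show F.D (v.P J) ω (ε j) = F.D (v.P J) ω' (ε j)
    rw [a3]) h2
  exact ⟨B, hBA, by rw [hD]; exact hPB, V', zz₁, _, GG, h3⟩

/-- **Labels of the zooms of the classes with shrunk coordinates** are labels of the families. -/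
theorem lbr_shf {S : PCl m} (v : Vz m) (s : Fin m → ℝ) (hs : ∀ i, 0 ≤ s i) (ε : Fin n → Fin m)
    {p : ℝ} (p0 : 0 ≤ p) (p1 : p < 1) {I : Finset (Fin n)} {k : Fin n}
    {K : ℕ} {e w r h : ℝ} (hw0 : 0 ≤ w) (hw : w ≤ 1) (hr0 : 0 ≤ r) (hr : r ≤ 1) (he : 0 ≤ e)
    (hh : 0 < h) (h1 : h + e < 1)
    (hlb : Bas (RecV (Shf S s) (atp (vshf v s) p p0 p1) ε) (fun J F A =>
      Lb F I k K ⌊e * J⌋₊ J ⌊w * J⌋₊ ⌊r * J⌋₊ ⌊h * J⌋₊ A))
    {W P q : ℝ} (hW : v.b + (1 - v.b) * (1 - p) * w < W) (hW1 : W ≤ 1) (hP0 : 0 ≤ P)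
    (hP : P + s (ε k) < v.b + (1 - v.b) * (p + (1 - p) * h)) (hq : (1 - v.b) * p < q) :
    LrC S (I.image ε) (ε k) (K + 1) W P q v.y := by
  classical
  obtain ⟨P', hP'⟩ : ∃ P', P' = (P + s (ε k) + (v.b + (1 - v.b) * (p + (1 - p) * h))) / 2 :=
    ⟨_, rfl⟩
  obtain ⟨c₁, hB⟩ := lbr_cls (S := Shf S s) (atp (vshf v s) p p0 p1) ε hw0 hw hr0 hr he hh h1 hlb
    (W := W) (P := P') (q := q) hW hW1 (by
      show P' < v.b + (1 - v.b) * (p + (1 - p) * h)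
      rw [hP']
      linarith) hq
  rw [bas_shf] at hB
  obtain ⟨J₁, hJ₁⟩ := big (a := P' - (P + s (ε k))) (by
    rw [hP']
    linarith) (2 : ℝ)
  refine ⟨c₁, hB.mono J₁ ?_⟩
  rintro J hJ F A ⟨B, hBA, hPB, V, z, z', G, hG⟩
  have j1 := hJ₁ J hJ
  have hJ0 : (0 : ℝ) ≤ J := Nat.cast_nonneg J
  have f1 : P' * (J : ℝ) < ⌊P' * (J : ℝ)⌋₊ + 1 := Nat.lt_floor_add_one _
  have f2 : (sd s J (ε k) : ℝ) ≤ s (ε k) * J := Nat.floor_le (mul_nonneg (hs _) hJ0)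
  have f3 : (⌊P * (J : ℝ)⌋₊ : ℝ) ≤ P * J := Nat.floor_le (by positivity)
  have hle : ⌊P * (J : ℝ)⌋₊ + sd s J (ε k) ≤ ⌊P' * (J : ℝ)⌋₊ := by
    have : ((⌊P * (J : ℝ)⌋₊ + sd s J (ε k) : ℕ) : ℝ) ≤ (⌊P' * (J : ℝ)⌋₊ : ℝ) := by
      push_cast
      linarith
    exact_mod_cast this
  have h2 := (Lbr.unshf (F := F) hG (by omega)).mono le_rfl
    (show ⌊P * (J : ℝ)⌋₊ ≤ ⌊P' * (J : ℝ)⌋₊ - sd s J (ε k) by omega)
  obtain ⟨zz, h3⟩ := Lbr.fineD (yd' := fun ω => (v.y J F ω, F.D ⌊q * J⌋₊ ω)) (fun ω ω' _ _ hh => by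
    have a1 : v.y J F ω = v.y J F ω' := congrArg Prod.fst hh
    have a2 : F.D ⌊q * (J : ℝ)⌋₊ ω = F.D ⌊q * (J : ℝ)⌋₊ ω' := congrArg Prod.snd hh
    refine Prod.ext ((vshf_y v s F ω ω').2 a1) ?_
    funext j
    show (shf F (sd s J)).D ⌊q * (J : ℝ)⌋₊ ω j = (shf F (sd s J)).D ⌊q * (J : ℝ)⌋₊ ω' j
    rw [shf_Dd, shf_Dd, congrFun a2 j]) h2
  exact ⟨B, hBA, hPB, V, zz, _, _, h3⟩

end Pool.ORD65
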