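import Pool.Agent.H65.ORD.Nzl
import Pool.Agent.H65.ORD.Nbl
import Pool.Agent.H33.SHF.Shf
import Pool.Agent.H33.EXC.Zrc

/-!
# Labels which are functions of the record: shrunk coordinates, labels of a grid

`ylb_shf`: if only the coordinate `k` is shrunk, its label gets more precise.
`ylb_grid`: the label of the target in a grid, at the place `(i, j)`, is a function of the relations
`lab2` of the place.
-/

set_option autoImplicit false

namespace Pool.ORD65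

open Finset Real MvPolynomial
open Pool.Agent.H49.Ent Pool.Agent.H32.Dense Pool.STK Pool.KA Pool.KSAT Pool.K2S Pool.PB Pool.GEN
open Pool.S6C Pool.GRD Pool.REX Pool.MIC6 Pool.REX83 Pool.SHF33

variable {m n J : ℕ}

/-- **Labels which are functions of the visible variable**, with the exponents `b` of the precision
and `ρ - b` of the gradients. -/
def YLg (S : PCl m) (v : Vz m) (ε : Fin n → Fin m) (I : Finset (Fin n)) (k : Fin n)
    (b ρ : ℝ) : Prop :=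
  ∃ (K : ℕ) (C : ℝ), 0 ≤ C ∧ Bas S (fun J F A => ∃ G : v.κ J F → MvPolynomial (Option (Fin n)) ℝ,
    (∀ y, (G y).totalDegree ≤ K) ∧
    (∀ y, ∀ b b' : Option (Fin n) → ℝ, b none = b' none →
      (∀ i ∈ I, b (some i) = b' (some i)) → eval b (G y) = eval b' (G y)) ∧
    (∀ ω, A ω → |F.x ω (ε k) - eval (fun o => bt F ω (o.map ε)) (G (v.y J F ω))| ≤
      C / 2 ^ ⌊b * J⌋₊) ∧
    ∀ ω, A ω → ∀ i, |eval (fun o => bt F ω (o.map ε)) (pderiv (some i) (G (v.y J F ω)))| ≤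
      C * 2 ^ ⌊ρ * J⌋₊ / 2 ^ ⌊b * J⌋₊)

/-- The positions of the unshrunk families. -/
theorem usf_x {S : PCl m} {s : Fin m → ℝ} : Bas (Shf S s) (fun J F _ => ∀ ω i,
    (usf F (sd s J)).x ω i = 2 ^ sd s J i * F.x ω i) := by
  rw [bas_shf]
  refine ⟨1, one_pos, 0, fun J _ F A _ (ω : F.Ω) i => ?_⟩
  have h1 := congrFun (congrFun (usf_u F (sd s J)) ω) i
  have h2 := congrFun (congrFun (usf_d F (sd s J)) ω) i
  have e1 : (usf (shf F (sd s J)) (sd s J)).x ω i = F.x ω i := by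
    show 2 ^ sd s J i * (F.u ω i / 2 ^ sd s J i) +
      F.t ω * (max (-1) (min 1 (2 ^ sd s J i * (F.d ω i / 2 ^ sd s J i)))) = _
    rw [h1, h2]
    rfl
  have e2 : (shf F (sd s J)).x ω i = F.x ω i / 2 ^ sd s J i := shf_x F _ ω i
  rw [e1, e2, mul_div_cancel₀]
  positivity

/-- One family. -/
theorem ylb_core {F : Fam m J} {Y : Type} (y : F.Ω → Y) {bx : F.Ω → Option (Fin m) → ℝ}
    {ε : Fin n → Fin m} {I : Finset (Fin n)} {k : Fin n} {K nb nρ l N : ℕ} {C : ℝ}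
    {A : F.Ω → Prop} (h0 : ∀ ω, bx ω none = F.t ω)
    (hI : ∀ ω, ∀ i ∈ I, bx ω (some (ε i)) = F.x ω (ε i))
    (hk : ∀ ω, bx ω (some (ε k)) = 2 ^ l * F.x ω (ε k)) (hC : 0 ≤ C)
    (h : ∃ G : Y → MvPolynomial (Option (Fin n)) ℝ, (∀ y, (G y).totalDegree ≤ K) ∧
      (∀ y, ∀ b b' : Option (Fin n) → ℝ, b none = b' none →
        (∀ i ∈ I, b (some i) = b' (some i)) → eval b (G y) = eval b' (G y)) ∧
      (∀ ω, A ω → |bx ω (some (ε k)) - eval (fun o => bx ω (o.map ε)) (G (y ω))| ≤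
        C / 2 ^ nb) ∧
      ∀ ω, A ω → ∀ i, |eval (fun o => bx ω (o.map ε)) (pderiv (some i) (G (y ω)))| ≤
        C * 2 ^ nρ / 2 ^ nb) (hN : N ≤ nb + l + 1) (hρ : nρ ≤ N) :
    ∃ G : Y → MvPolynomial (Option (Fin n)) ℝ, (∀ y, (G y).totalDegree ≤ K) ∧
      (∀ y, ∀ b b' : Option (Fin n) → ℝ, b none = b' none →
        (∀ i ∈ I, b (some i) = b' (some i)) → eval b (G y) = eval b' (G y)) ∧
      (∀ ω, A ω → |F.x ω (ε k) - eval (fun o => bt F ω (o.map ε)) (G (y ω))| ≤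
        2 * C / 2 ^ N) ∧
      ∀ ω, A ω → ∀ i, |eval (fun o => bt F ω (o.map ε)) (pderiv (some i) (G (y ω)))| ≤
        2 * C := by
  obtain ⟨G, g1, g2, g3, g4⟩ := h
  have hev : ∀ (ω : F.Ω) (Q : MvPolynomial (Option (Fin n)) ℝ),
      (∀ b b' : Option (Fin n) → ℝ, b none = b' none → (∀ i ∈ I, b (some i) = b' (some i)) →
        eval b Q = eval b' Q) → eval (fun o => bt F ω (o.map ε)) Q =
        eval (fun o => bx ω (o.map ε)) Q := by
    intro ω Q hQ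
    refine hQ _ _ (h0 ω).symm fun i hi => ?_
    exact (hI ω i hi).symm
  have pl : (0 : ℝ) < 2 ^ l := by positivity
  refine ⟨fun y => MvPolynomial.C (1 / 2 ^ l) * G y, fun y => ?_, fun y b b' h0 hb => ?_,
    fun ω hω => ?_, fun ω hω i => ?_⟩
  · refine (totalDegree_mul _ _).trans ?_
    rw [totalDegree_C, zero_add]
    exact g1 y
  · rw [map_mul, map_mul, eval_C, eval_C, g2 y b b' h0 hb]
  · have h2 := g3 ω hω
    rw [map_mul, eval_C, hev ω (G (y ω)) (g2 (y ω))]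
    rw [hk] at h2
    have e1 : F.x ω (ε k) - 1 / 2 ^ l * eval (fun o => bx ω (o.map ε)) (G (y ω)) =
        1 / 2 ^ l * (2 ^ l * F.x ω (ε k) - eval (fun o => bx ω (o.map ε)) (G (y ω))) := by
      field_simp
    rw [e1, abs_mul, abs_of_pos (by positivity : (0 : ℝ) < 1 / 2 ^ l)]
    calc 1 / 2 ^ l * _ ≤ 1 / 2 ^ l * (C / 2 ^ nb) :=
          mul_le_mul_of_nonneg_left h2 (by positivity)
      _ = 2 * C / 2 ^ (nb + l + 1) := by
          rw [pow_add, pow_add]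
          field_simp
      _ ≤ 2 * C / 2 ^ N :=
          div_le_div_of_nonneg_left (by positivity) (by positivity)
            (pow_le_pow_right₀ (by norm_num) hN)
  · have h2 := g4 ω hω i
    rw [pderiv_C_mul, map_mul, eval_C, hev ω (pderiv (some i) (G (y ω)))
      (fun b b' h0 hb => dep_pderiv (g2 (y ω)) (some i) b b' h0 hb), abs_mul,
      abs_of_pos (by positivity : (0 : ℝ) < 1 / 2 ^ l)]
    calc 1 / 2 ^ l * _ ≤ 1 / 2 ^ l * (C * 2 ^ nρ / 2 ^ nb) :=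
          mul_le_mul_of_nonneg_left h2 (by positivity)
      _ = 2 * C * (2 ^ nρ / 2 ^ (nb + l + 1)) := by
          rw [pow_add, pow_add]
          field_simp
      _ ≤ 2 * C * 1 := by
          refine mul_le_mul_of_nonneg_left ?_ (by positivity)
          rw [div_le_one (by positivity)]
          exact pow_le_pow_right₀ (by norm_num) (hρ.trans hN)
      _ = 2 * C := mul_one _

/-- **Shrinking the coordinate of the label.** -/
theorem ylb_shf {S : PCl m} {v : Vz m} {s : Fin m → ℝ} {ε : Fin n → Fin m} {I : Finset (Fin n)}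
    {k : Fin n} {b ρ : ℝ} (h : YLg S v ε I k b ρ) (hb : 0 ≤ b) (hs : 0 ≤ s (ε k))
    (hI : ∀ i ∈ I, s (ε i) ≤ 0) (hρ : ρ ≤ b + s (ε k)) {p : ℝ} (p0 : 0 ≤ p) (p1 : p < 1) :
    YLb (Shf S s) (atp (vshf v s) p p0 p1) ε I k (b + s (ε k)) := by
  obtain ⟨K, C, hC, hB⟩ := h
  refine ⟨K, 2 * C, ?_⟩
  have h1 := (bas_usf (s := s)).2 hB
  refine (usf_x.and h1).mono 0 ?_
  rintro J - F A ⟨hx, hG⟩
  have hJ0 : (0 : ℝ) ≤ J := Nat.cast_nonneg J
  have hsd : ∀ i ∈ I, sd s J (ε i) = 0 := by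
    intro i hi
    unfold sd
    exact Nat.floor_of_nonpos (mul_nonpos_of_nonpos_of_nonneg (hI i hi) hJ0)
  have hfl : ⌊(b + s (ε k)) * (J : ℝ)⌋₊ ≤ ⌊b * (J : ℝ)⌋₊ + sd s J (ε k) + 1 := by
    have a1 : b * (J : ℝ) < ⌊b * (J : ℝ)⌋₊ + 1 := Nat.lt_floor_add_one _
    have a2 : s (ε k) * (J : ℝ) < sd s J (ε k) + 1 := Nat.lt_floor_add_one _
    have a3 : (⌊(b + s (ε k)) * (J : ℝ)⌋₊ : ℝ) ≤ (b + s (ε k)) * J :=
      Nat.floor_le (mul_nonneg (by linarith) hJ0)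
    have a4 : (⌊(b + s (ε k)) * (J : ℝ)⌋₊ : ℝ) <
        ((⌊b * (J : ℝ)⌋₊ + sd s J (ε k) + 2 : ℕ) : ℝ) := by
      push_cast
      linarith
    have a5 : ⌊(b + s (ε k)) * (J : ℝ)⌋₊ < ⌊b * (J : ℝ)⌋₊ + sd s J (ε k) + 2 := by
      exact_mod_cast a4
    omega
  have key := ylb_core (F := F) (v.y J (usf F (sd s J))) (bx := bt (usf F (sd s J))) (ε := ε)
    (I := I) (k := k) (l := sd s J (ε k)) (N := ⌊(b + s (ε k)) * (J : ℝ)⌋₊) (A := A)
    (fun ω => rfl) (fun ω i hi => by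
      have h2 : bt (usf F (sd s J)) ω (some (ε i)) = 2 ^ sd s J (ε i) * F.x ω (ε i) :=
        hx ω (ε i)
      rw [h2, hsd i hi, pow_zero, one_mul]) (fun ω => hx ω (ε k)) hC hG hfl
    (Nat.floor_le_floor (mul_le_mul_of_nonneg_right hρ hJ0))
  exact key

/-! ### The label of a grid -/

/-- The variables of a label, as coordinates of a zoom. -/
noncomputable def opi (n₀ : ℕ) (i : ℕ) : Option (Fin (n₀ + 1)) :=
  if h : 1 ≤ i ∧ i ≤ n₀ + 1 then some ⟨i - 1, by omega⟩ else none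

theorem opi_zero (n₀ : ℕ) : opi n₀ 0 = none := by
  unfold opi
  rw [dif_neg (by omega)]

theorem opi_succ {n₀ i : ℕ} (h : 1 ≤ i) (h' : i ≤ n₀ + 1) : opi n₀ i = some ⟨i - 1, by omega⟩ := by
  unfold opi
  rw [dif_pos ⟨h, h'⟩]

open Pool.STAT Pool.STAT.CLO in
/-- **One family**: the label of the last coordinate on the line. -/
theorem ylg_fam (n₀ K K' s₁ : ℕ) (sh : ℕ → ℕ) (hK' : 1 ≤ K') : ∃ (C : ℝ) (s₂ : ℕ), 1 ≤ C ∧
    ∀ {m J : ℕ} {F : Fam m J} {D : GDat F} {c : ℕ → Fin m} {M a₀ w₀ z : ℕ} {e : ℕ → ℕ → ℕ}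
    {g : ℕ → ℕ → ℕ → ℕ} {A : F.Ω → Prop}, D.Ok c (n₀ + 1) K K' s₁ sh a₀ w₀ z M e g A →
    Inj c (n₀ + 1) → ∀ i ≤ M, ∀ j ≤ M, ∀ R : ℕ, a₀ + i * z ≤ R →
    (∀ l < n₀ + 1, sh (l + 1) ≤ g i j l) → (∀ l < n₀ + 1, g i j l + e i j + s₂ ≤ R) →
    ∀ {Y : Type} (y : F.Ω → Y) (φ : Y → LV),
    (∀ ω, A ω → φ (y ω) = D.zL i j (slam F (w₀ + j * z) ω)) →
    ∃ G : Y → MvPolynomial (Option (Fin (n₀ + 1))) ℝ, (∀ y, (G y).totalDegree ≤ K') ∧
      (∀ y, ∀ b b' : Option (Fin (n₀ + 1)) → ℝ, b none = b' none →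
        (∀ i ∈ (univ : Finset (Fin n₀)).image Fin.castSucc, b (some i) = b' (some i)) →
        eval b (G y) = eval b' (G y)) ∧
      (∀ ω, A ω → |F.x ω (c n₀) - eval (fun o => bt F ω (o.map fun j : Fin (n₀ + 1) => c j))
        (G (y ω))| ≤ C / 2 ^ g i j n₀) ∧
      ∀ ω, A ω → ∀ i', |eval (fun o => bt F ω (o.map fun j : Fin (n₀ + 1) => c j))
        (pderiv (some i') (G (y ω)))| ≤ C * 2 ^ R / 2 ^ g i j n₀ := by
  classical
  obtain ⟨C₁, s₂, hC₁, hball⟩ := ball_gdat (n₀ + 1) K K' s₁ sh hK'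
  obtain ⟨C₂, hC₂, hmk⟩ := dir_markov (m := n₀ + 1) K'
  refine ⟨C₁ * C₂ * 2 ^ sh (n₀ + 1), s₂, ?_, ?_⟩
  · have h1 : (1 : ℝ) ≤ 2 ^ sh (n₀ + 1) := one_le_pow₀ (by norm_num)
    exact one_le_mul_of_one_le_of_one_le (one_le_mul_of_one_le_of_one_le hC₁ hC₂) h1
  intro m J F D c M a₀ w₀ z e g A h hc i hi j hj R haR hsh hsiz Y y φ hφ
  have hO := h.out i hi j hj
  obtain ⟨P, hP⟩ : ∃ P : LV → PN, P = fun v => D.PL i j v (n₀ + 1) := ⟨_, rfl⟩
  have hPv : ∀ v, (P v).vars ⊆ range (n₀ + 1) := fun v => by rw [hP]; exact hO.Ltri v _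
  have hPd : ∀ v, (P v).totalDegree ≤ K' := fun v => by rw [hP]; exact hO.Ldeg v _
  -- the sizes
  obtain ⟨N, hN⟩ : ∃ N, N = (range (n₀ + 1)).sup (g i j) := ⟨_, rfl⟩
  have hgN : ∀ l < n₀ + 1, g i j l ≤ N := fun l hl => by
    rw [hN]
    exact Finset.le_sup (f := g i j) (mem_range.2 hl)
  have hNR : N + e i j + s₂ ≤ R := by
    have h1 : N ≤ R - (e i j + s₂) := by
      rw [hN]
      refine Finset.sup_le fun l hl => ?_
      have := hsiz l (mem_range.1 hl)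
      omega
    have h2 := hsiz 0 (by omega)
    omega
  have hball' : ∀ ω, A ω → ∀ b : ℕ → ℝ, b 0 = F.t ω →
      (∀ k, 1 ≤ k → k < n₀ + 1 → |b k - cx F (fun i => c (i - 1)) ω k| ≤ 1 / 2 ^ R) →
      |eval b (P (D.zL i j (slam F (w₀ + j * z) ω))) - F.x ω (c n₀)| ≤
        C₁ * 2 ^ sh (n₀ + 1) / 2 ^ g i j n₀ := by
    intro ω hω b hb0 hb
    have h1 := hball h hc i hi j hj (fun l => e i j + (N - g i j l)) R haR hsh
      (fun l hl k hk => by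
        unfold nlp
        have h2 : (Finset.Icc k l).sup (g i j) ≤ N := Finset.sup_le fun l' hl' =>
          hgN l' (by have := (Finset.mem_Icc.1 hl').2; omega)
        omega) (fun l hl => by
        have := hgN l hl
        omega) ω hω b hb0 (n₀ + 1) (by omega) le_rfl hb
    have h2 : cx F (fun i => c (i - 1)) ω (n₀ + 1) = F.x ω (c n₀) := if_neg (by omega)
    rw [h2] at h1
    rw [hP]
    refine h1.trans (le_of_eq ?_)
    have h3 := hsh n₀ (by omega)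
    show C₁ / 2 ^ (g i j n₀ - sh (n₀ + 1)) = _
    have h4 : (2 : ℝ) ^ g i j n₀ = 2 ^ (g i j n₀ - sh (n₀ + 1)) * 2 ^ sh (n₀ + 1) := by
      rw [← pow_add]
      congr 1
      omega
    rw [h4]
    field_simp
  have hC₂0 : (0 : ℝ) < C₂ := by linarith
  -- the points
  have hcx : ∀ (ω : F.Ω), ∀ k < n₀ + 1, ((fun o => bt F ω (o.map fun j : Fin (n₀ + 1) => c j)) ∘
      opi n₀) k = cx F (fun i => c (i - 1)) ω k := by
    intro ω k hk
    show bt F ω ((opi n₀ k).map fun j : Fin (n₀ + 1) => c j) = _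
    rcases Nat.eq_zero_or_pos k with rfl | hk0
    · rw [opi_zero]
      exact (if_pos rfl).symm
    · rw [opi_succ hk0 (by omega)]
      exact (if_neg (by omega)).symm
  refine ⟨fun y => rename (opi n₀) (P (φ y)), fun y => ?_, fun y b b' h0 hb => ?_,
    fun ω hω => ?_, fun ω hω i' => ?_⟩
  · exact (totalDegree_rename_le _ _).trans (hPd _)
  · rw [eval_rename, eval_rename]
    refine eval_cg (hPv _) fun k hk => ?_
    show b (opi n₀ k) = b' (opi n₀ k)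
    rcases Nat.eq_zero_or_pos k with rfl | hk0
    · rw [opi_zero]
      exact h0
    · rw [opi_succ hk0 (by omega)]
      refine hb _ (Finset.mem_image.2 ⟨⟨k - 1, by omega⟩, Finset.mem_univ _, rfl⟩)
  · rw [eval_rename, eval_cg (hPv _) (hcx ω), hφ ω hω, abs_sub_comm]
    refine (hball' ω hω _ (if_pos rfl) (fun k _ _ => by
      rw [sub_self, abs_zero]
      positivity)).trans ?_
    refine div_le_div_of_nonneg_right ?_ (by positivity)
    have h1 : C₁ * 2 ^ sh (n₀ + 1) * 1 ≤ C₁ * 2 ^ sh (n₀ + 1) * C₂ :=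
      mul_le_mul_of_nonneg_left hC₂ (by positivity)
    linarith
  · -- the gradient
    obtain ⟨b₀, hb₀⟩ : ∃ b₀ : Option (Fin (n₀ + 1)) → ℝ,
      b₀ = fun o => bt F ω (o.map fun j : Fin (n₀ + 1) => c j) := ⟨_, rfl⟩
    obtain ⟨V, hV⟩ : ∃ V : ℝ, V = C₁ * 2 ^ sh (n₀ + 1) / 2 ^ g i j n₀ := ⟨_, rfl⟩
    have h1 := hmk (rename (opi n₀) (P (φ (y ω))) - MvPolynomial.C (F.x ω (c n₀))) b₀ (some i')
      (1 / 2 ^ R) V ((totalDegree_sub _ _).trans (max_le ((totalDegree_rename_le _ _).trans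
        (hPd _)) (by rw [totalDegree_C]; exact Nat.zero_le _))) (by positivity) (fun s hs => by
        rw [map_sub, eval_C, eval_rename, hφ ω hω, hV]
        refine hball' ω hω _ ?_ fun k hk1 hk => ?_
        · show Function.update b₀ (some i') (b₀ (some i') + s) (opi n₀ 0) = _
          rw [opi_zero, Function.update_of_ne (by simp), hb₀]
          rfl
        · have h2 := hcx ω k (by omega)
          rw [← hb₀] at h2
          rw [← h2]
          show |Function.update b₀ (some i') (b₀ (some i') + s) (opi n₀ k) - b₀ (opi n₀ k)| ≤ _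
          by_cases h3 : opi n₀ k = some i'
          · rw [h3, Function.update_self, add_sub_cancel_left]
            exact hs
          · rw [Function.update_of_ne h3, sub_self, abs_zero]
            positivity)
    rw [map_sub, pderiv_C, sub_zero, hb₀] at h1
    refine h1.trans (le_of_eq ?_)
    rw [hV]
    field_simp

open Pool.STAT Pool.STAT.CLO Pool.GRW in
/-- **The label of a grid**, for a class: it is a function of every visible variable which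
determines the value of the line. -/
theorem ylg_cls {n₀ K K' s₁ : ℕ} {sh : ℕ → ℕ} (hK' : 1 ≤ K') {S : PCl m} {c : ℕ → Fin m}
    (hc : Inj c (n₀ + 1)) {v : Vz m} {α ϖ ζ : ℝ} {M : ℕ} {e : ℕ → ℕ → ℝ} {b : ℕ → ℕ → ℕ → ℝ}
    {i j : ℕ} (hi : i ≤ M) (hj : j ≤ M) {ρ : ℝ} {d : ∀ (J : ℕ) (F : Fam m J), GDat F}
    (hd : Bas S (fun J F A => (d J F).Ok c (n₀ + 1) K K' s₁ sh (up α J) (up ϖ J) (up ζ J) M
      (fun i j => ⌊e i j * J⌋₊) (fun i j l => ⌊b i j l * J⌋₊) A))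
    (hy : Bas S (fun J F A => ∃ φ : v.κ J F → LV, ∀ ω, A ω →
      φ (v.y J F ω) = (d J F).zL i j (slam F (up ϖ J + j * up ζ J) ω)))
    (hα : 0 ≤ α) (hζ : 0 ≤ ζ) (haρ : α + i * ζ < ρ) (hb : ∀ l < n₀ + 1, 0 < b i j l)
    (he : 0 ≤ e i j) (hbρ : ∀ l < n₀ + 1, b i j l + e i j < ρ) :
    YLg S v (fun j : Fin (n₀ + 1) => c j) ((univ : Finset (Fin n₀)).image Fin.castSucc)
      (Fin.last n₀) (b i j n₀) ρ := by
  classical
  obtain ⟨C, s₂, hC, hfam⟩ := ylg_fam n₀ K K' s₁ sh hK'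
  refine ⟨K', C, by linarith, ?_⟩
  have hρ0 : 0 < ρ := by
    have : 0 ≤ (i : ℝ) * ζ := by positivity
    linarith
  -- the sizes
  have hbig : ∀ l < n₀ + 1, ∃ J₁ : ℕ, ∀ J ≥ J₁, sh (l + 1) ≤ ⌊b i j l * (J : ℝ)⌋₊ ∧
      ⌊b i j l * (J : ℝ)⌋₊ + ⌊e i j * (J : ℝ)⌋₊ + s₂ ≤ ⌊ρ * (J : ℝ)⌋₊ := by
    intro l hl
    obtain ⟨J₁, hJ₁⟩ := big (hb l hl) (sh (l + 1) : ℝ)
    obtain ⟨J₂, hJ₂⟩ := big (a := ρ - (b i j l + e i j)) (by linarith [hbρ l hl]) (s₂ + 1 : ℝ)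
    refine ⟨max J₁ J₂, fun J hJ => ⟨Nat.le_floor (hJ₁ J ((le_max_left _ _).trans hJ)), ?_⟩⟩
    have h2 := hJ₂ J ((le_max_right _ _).trans hJ)
    have hJ0 : (0 : ℝ) ≤ J := Nat.cast_nonneg J
    have f1 : (⌊b i j l * (J : ℝ)⌋₊ : ℝ) ≤ b i j l * J :=
      Nat.floor_le (mul_nonneg (hb l hl).le hJ0)
    have f2 : (⌊e i j * (J : ℝ)⌋₊ : ℝ) ≤ e i j * J := Nat.floor_le (mul_nonneg he hJ0)
    refine Nat.le_floor ?_
    push_cast
    linarith
  have hbig' : ∃ J₁ : ℕ, ∀ J ≥ J₁, ∀ l < n₀ + 1, sh (l + 1) ≤ ⌊b i j l * (J : ℝ)⌋₊ ∧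
      ⌊b i j l * (J : ℝ)⌋₊ + ⌊e i j * (J : ℝ)⌋₊ + s₂ ≤ ⌊ρ * (J : ℝ)⌋₊ := by
    have h1 : ∀ l, ∃ J₁ : ℕ, l < n₀ + 1 → ∀ J ≥ J₁, sh (l + 1) ≤ ⌊b i j l * (J : ℝ)⌋₊ ∧
        ⌊b i j l * (J : ℝ)⌋₊ + ⌊e i j * (J : ℝ)⌋₊ + s₂ ≤ ⌊ρ * (J : ℝ)⌋₊ := by
      intro l
      by_cases hl : l < n₀ + 1
      · obtain ⟨J₁, hJ₁⟩ := hbig l hl
        exact ⟨J₁, fun _ => hJ₁⟩
      · exact ⟨0, fun h => absurd h hl⟩
    choose f hf using h1
    refine ⟨(range (n₀ + 1)).sup f, fun J hJ l hl => hf l hl J (le_trans ?_ hJ)⟩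
    exact Finset.le_sup (f := f) (mem_range.2 hl)
  obtain ⟨J₁, hJ₁⟩ := hbig'
  obtain ⟨J₂, hJ₂⟩ := big (a := ρ - (α + i * ζ)) (by linarith) (i + 2 : ℝ)
  refine (hd.and hy).mono (max J₁ J₂) ?_
  rintro J hJ F A ⟨hD, φ, hφ⟩
  have h1 := hJ₁ J ((le_max_left _ _).trans hJ)
  have h2 := hJ₂ J ((le_max_right _ _).trans hJ)
  have hJ0 : (0 : ℝ) ≤ J := Nat.cast_nonneg J
  refine hfam hD hc i hi j hj ⌊ρ * (J : ℝ)⌋₊ ?_ (fun l hl => (h1 l hl).1)
    (fun l hl => (h1 l hl).2) (v.y J F) φ hφ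
  refine Nat.le_floor ?_
  have u1 := up_le hα J
  have u2 := up_le hζ J
  have u3 : (i : ℝ) * (up ζ J : ℝ) ≤ i * (ζ * J + 1) :=
    mul_le_mul_of_nonneg_left u2 (Nat.cast_nonneg i)
  push_cast
  linarith

end Pool.ORD65
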