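import Pool.Agent.H65.ORD.Cnt
import Pool.Agent.H89.TGT.Non

/-!
# No labels of the base above the radius

`ub_none`: in a class in which the base is exact behind closed values (`ZmX`), no coordinate of the
base has a closed label over the others which is finer than the radius `ρR` of the balls of the
place.
-/

set_option autoImplicit false

namespace Pool.ORD65

open Finset Real MvPolynomial
open Pool.Agent.H49.Ent Pool.Agent.H32.Dense Pool.STK Pool.KA Pool.KSAT Pool.K2S Pool.PB Pool.GEN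
open Pool.S6C Pool.GRD Pool.GRW Pool.TGT Pool.REX Pool.REX83
open Pool.OWN17 (root_fix)

variable {m n J : ℕ}

/-- **The labels of the place on balls**: two samples with the same label of the place, the same
time and near coordinates before `l` have near coordinates `l`. -/
def BlP (S : PCl m) (c : ℕ → Fin m) (n₀ : ℕ) {Λ : ∀ J : ℕ, Fam m J → Type}
    (lab : ∀ (J : ℕ) (F : Fam m J), F.Ω → Λ J F) (ρR : ℝ) (b : ℕ → ℝ) : Prop :=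
  ∃ C : ℝ, 1 ≤ C ∧ Bas S (fun J F A => ∀ ω ω', A ω → A ω' → lab J F ω = lab J F ω' →
    F.T ω = F.T ω' → ∀ l < n₀, (∀ k < l, |F.x ω (c k) - F.x ω' (c k)| ≤ 1 / 2 ^ ⌊ρR * J⌋₊) →
    |F.x ω (c l) - F.x ω' (c l)| ≤ C / 2 ^ ⌊b l * J⌋₊)

theorem BlP.sub {S S' : PCl m} {c : ℕ → Fin m} {n₀ : ℕ} {Λ : ∀ J : ℕ, Fam m J → Type}
    {lab : ∀ (J : ℕ) (F : Fam m J), F.Ω → Λ J F} {ρR : ℝ} {b : ℕ → ℝ}
    (h : BlP S c n₀ lab ρR b)
    (hs : ∀ (τ : ℝ) (J : ℕ) (F : Fam m J) (A : F.Ω → Prop), S'.St τ J F A → S.St τ J F A) :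
    BlP S' c n₀ lab ρR b := by
  obtain ⟨C, h1, h2⟩ := h
  exact ⟨C, h1, h2.sub hs⟩

/-- The position of a label as a function of the first digits. -/
theorem lbr_near {F : Fam m J} {I : Finset (Fin m)} {k : Fin m} {K w P : ℕ} {κ : Type}
    {yd : F.Ω → κ} {A : F.Ω → Prop} {V : Type} {z : PtT F → κ → V} {z' : LnT F → V}
    {G : V → MvPolynomial (Option (Fin m)) ℝ} (h : Lbr F I k K w P yd A z z' G) {ω ω' : F.Ω}
    (hω : A ω) (hω' : A ω') (hz : z' (slam F w ω) = z' (slam F w ω')) (hT : F.T ω = F.T ω')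
    (hI : ∀ i ∈ I, F.X J ω i = F.X J ω' i) : |F.x ω k - F.x ω' k| ≤ 2 / 2 ^ P := by
  classical
  obtain ⟨b, hb⟩ : ∃ b : F.Ω → Option (Fin m) → ℝ, b = fun ω o => match o with
    | none => F.t ω
    | some i => if i ∈ I then (F.X J ω i : ℝ) / 2 ^ J else F.x ω i := ⟨_, rfl⟩
  have hb0 : ∀ ω, b ω none = F.t ω := fun ω => by rw [hb]
  have hbi : ∀ ω, ∀ i ∈ I, b ω (some i) = (F.X J ω i : ℝ) / 2 ^ J := fun ω i hi => by
    rw [hb]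
    exact if_pos hi
  have pJ : (0 : ℝ) < 2 ^ J := by positivity
  have hnear : ∀ ω o, |b ω o - bt F ω o| ≤ 1 / 2 ^ J := by
    intro ω o
    cases o with
    | none =>
      rw [hb0]
      show |F.t ω - F.t ω| ≤ _
      rw [sub_self, abs_zero]
      positivity
    | some i =>
      by_cases hi : i ∈ I
      · rw [hbi ω i hi]
        show |(F.X J ω i : ℝ) / 2 ^ J - F.x ω i| ≤ _
        have a1 : ((F.X J ω i : ℤ) : ℝ) ≤ 2 ^ J * F.x ω i := Int.floor_le _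
        have a2 : (2 : ℝ) ^ J * F.x ω i < (F.X J ω i : ℤ) + 1 := Int.lt_floor_add_one _
        have e1 : ((F.X J ω i : ℤ) : ℝ) / 2 ^ J - F.x ω i =
            (((F.X J ω i : ℤ) : ℝ) - 2 ^ J * F.x ω i) / 2 ^ J := by
          field_simp
        rw [e1, abs_div, abs_of_pos pJ]
        refine div_le_div_of_nonneg_right ?_ pJ.le
        rw [abs_le]
        constructor <;> linarith
      · have e : b ω (some i) = F.x ω i := by
          rw [hb]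
          exact if_neg hi
        rw [e]
        show |F.x ω i - F.x ω i| ≤ _
        rw [sub_self, abs_zero]
        positivity
  have p1 := h.pos ω hω (b ω) (hnear ω)
  have p2 := h.pos ω' hω' (b ω') (hnear ω')
  have e5 : eval (b ω) (G (z' (slam F w ω))) = eval (b ω') (G (z' (slam F w ω'))) := by
    rw [hz]
    refine h.dep _ _ _ (by
      rw [hb0, hb0]
      unfold Fam.t
      rw [hT]) fun i hi => ?_
    rw [hbi ω i hi, hbi ω' i hi, hI i hi]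
  rw [e5] at p1
  have e7 : (2 : ℝ) / 2 ^ P = 1 / 2 ^ P + 1 / 2 ^ P := by ring
  rw [e7]
  rw [abs_le] at p1 p2 ⊢
  constructor <;> linarith [p1.1, p1.2, p2.1, p2.2]

/-- **No labels of the base above the radius.** -/
theorem ub_none {S : PCl m} (hne : S.Ne)
    (hpos : ∀ (τ : ℝ) (J : ℕ) (F : Fam m J) (A : F.Ω → Prop), S.St τ J F A → 0 < Pe F.p A)
    {c : ℕ → Fin m} {n₀ : ℕ} {Λ : ∀ J : ℕ, Fam m J → Type}
    {lab : ∀ (J : ℕ) (F : Fam m J), F.Ω → Λ J F} {ρR : ℝ} {b : ℕ → ℝ}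
    (hbl : BlP S c n₀ lab ρR b) (hρ0 : 0 ≤ ρR) (hρ1 : ρR ≤ 1) (hb : ∀ l < n₀, b l ≤ ρR)
    {X₀ w w₁ qm : ℝ} (hzm : ZmX S c n₀ lab X₀ w w₁ qm) {l₀ : ℕ} (hl₀ : l₀ < n₀)
    {I : Finset (Fin m)} (hI : ∀ i ∈ I, ∃ l < n₀, l ≠ l₀ ∧ c l = i) {K : ℕ} {W P q c₁ : ℝ}
    (hW : w < W) (hW1 : W < w₁) (hq0 : 0 < q) (hq1 : q < qm) (hP0 : 0 ≤ P) (hP1 : P ≤ 1)
    (hlb : Bas S (fun J F A => ∃ B : F.Ω → Prop, Sub B A ∧ Pe F.p A ≤ c₁ * Pe F.p B ∧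
      ∃ (V : Type) (z : PtT F → Λ J F × (Fin m → ℤ) → V) (z' : LnT F → V)
        (G : V → MvPolynomial (Option (Fin m)) ℝ),
        Lbr F I (c l₀) K ⌊W * J⌋₊ ⌊P * J⌋₊ (fun ω => (lab J F ω, F.D ⌊q * J⌋₊ ω)) B z z' G))
    (hnum : (∑ l ∈ range n₀, (ρR - b l)) + (n₀ - 1) * (1 - ρR) + (1 - P) < X₀) : False := by
  classical
  obtain ⟨S₁, dN, hne₁, hsub₁, hN₁⟩ := root_fix (Δ := fun J F => NDat F (Λ J F × (Fin m → ℤ)))
    hne (fun J F d A => Lbr F I (c l₀) K ⌊W * J⌋₊ ⌊P * J⌋₊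
      (fun ω => (lab J F ω, F.D ⌊q * J⌋₊ ω)) A d.z d.z' d.G)
    (fun J F d A B h hB => h.sub hB) (C := c₁)
    (Bas.mono 0 hlb fun J _ F A ⟨B, h1, h2, V, z, z', G, h⟩ => ⟨⟨V, z, z', G⟩, B, h1, h2, h⟩)
  obtain ⟨S₂, hne₂, hsub₂, hlow⟩ := hzm S₁ hne₁ hsub₁ W hW hW1 q hq0 hq1
    (fun J F => (dN J F).V) (fun J F u l x => (dN J F).z u (l, x)) (fun J F => (dN J F).z')
    (fun τ J F A hA ω hω => (hN₁ τ J F A hA).cls ω hω)
  have hsub : ∀ (τ : ℝ) (J : ℕ) (F : Fam m J) (A : F.Ω → Prop), S₂.St τ J F A → S.St τ J F A :=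
    fun τ J F A h => hsub₁ τ J F A (hsub₂ τ J F A h)
  obtain ⟨C, hC, hball⟩ := hbl
  obtain ⟨num, hnumd⟩ : ∃ num, num = (∑ l ∈ range n₀, (ρR - b l)) + (n₀ - 1) * (1 - ρR) +
    (1 - P) := ⟨_, rfl⟩
  rw [← hnumd] at hnum
  obtain ⟨ρ, hρ⟩ : ∃ ρ, ρ = (X₀ - num) / 2 := ⟨_, rfl⟩
  have hρ0' : 0 < ρ := by rw [hρ]; linarith
  have hl2 : 0 < Real.log 2 := Real.log_pos one_lt_two
  obtain ⟨cc, hcc⟩ : ∃ cc : ℝ, cc = (2 * n₀ + 1) * Real.log 2 + (2 * n₀ + 1) * Real.log (2 * C + 7)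
    + 1 := ⟨_, rfl⟩
  obtain ⟨J₁, hJ₁⟩ := big (mul_pos hρ0' hl2) cc
  obtain ⟨τ, hτ, J₂, hB⟩ := (hball.sub hsub).and (hlow ρ hρ0')
  obtain ⟨J, hJ, F, A, hA⟩ := hne₂ τ hτ (max J₁ J₂)
  obtain ⟨h1, h2⟩ := hB J ((le_max_right _ _).trans hJ) F A hA
  have hJ1 := hJ₁ J ((le_max_left _ _).trans hJ)
  have hp := hpos τ J F A (hsub τ J F A hA)
  have hq := isLaw_cond F.isLaw hp
  have hL := hN₁ τ J F A (hsub₂ τ J F A hA)
  have hJ0 : (0 : ℝ) ≤ J := Nat.cast_nonneg J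
  have hRJ : ⌊ρR * (J : ℝ)⌋₊ ≤ J := by
    refine Nat.floor_le_of_le ?_
    have := mul_le_mul_of_nonneg_right hρ1 hJ0
    linarith
  have hPJ : ⌊P * (J : ℝ)⌋₊ ≤ J := by
    refine Nat.floor_le_of_le ?_
    have := mul_le_mul_of_nonneg_right hP1 hJ0
    linarith
  have key := cnt_up (F := F) (c := c) (n₀ := n₀) (R := ⌊ρR * (J : ℝ)⌋₊)
    (g := fun l => ⌊b l * (J : ℝ)⌋₊) hC
    (fun ω => (lab J F ω, (F.D ⌊q * J⌋₊ ω, ((dN J F).z' (slam F ⌊W * J⌋₊ ω), F.T ω)))) hq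
    (A := A) (fun ω hω => Pool.EXC33.cond_mem hω) hRJ (fun l hl => Nat.floor_le_floor
      (mul_le_mul_of_nonneg_right (hb l hl) hJ0)) hl₀ hPJ (fun ω ω' hω hω' hY l hl hk => by
        simp only [Prod.mk.injEq] at hY
        exact h1 ω ω' hω hω' hY.1 hY.2.2.2 l hl hk) (fun ω ω' hω hω' hY hX => by
        simp only [Prod.mk.injEq] at hY
        refine lbr_near hL hω hω' hY.2.2.1 hY.2.2.2 fun i hi => ?_
        obtain ⟨l, hl, hll, rfl⟩ := hI i hi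
        exact hX l hl hll)
  have h3 := h2.trans key
  have r1 : (⌊ρR * (J : ℝ)⌋₊ : ℝ) ≤ ρR * J := Nat.floor_le (mul_nonneg hρ0 hJ0)
  have r2 : ρR * J < ⌊ρR * (J : ℝ)⌋₊ + 1 := Nat.lt_floor_add_one _
  have p2 : P * J < ⌊P * (J : ℝ)⌋₊ + 1 := Nat.lt_floor_add_one _
  have hn1 : (1 : ℝ) ≤ n₀ := by
    have : 1 ≤ n₀ := by omega
    exact_mod_cast this
  have s1 : ∑ l ∈ range n₀, (((⌊ρR * (J : ℝ)⌋₊ : ℕ) : ℝ) - ((⌊b l * (J : ℝ)⌋₊ : ℕ) : ℝ)) ≤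
      (∑ l ∈ range n₀, (ρR - b l)) * J + n₀ := by
    have : ∑ l ∈ range n₀, (((⌊ρR * (J : ℝ)⌋₊ : ℕ) : ℝ) - ((⌊b l * (J : ℝ)⌋₊ : ℕ) : ℝ)) ≤
        ∑ l ∈ range n₀, ((ρR - b l) * J + 1) := by
      refine Finset.sum_le_sum fun l hl => ?_
      have : b l * J < ⌊b l * (J : ℝ)⌋₊ + 1 := Nat.lt_floor_add_one _
      linarith
    refine this.trans (le_of_eq ?_)
    rw [Finset.sum_add_distrib, ← Finset.sum_mul, Finset.sum_const, Finset.card_range,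
      nsmul_eq_mul, mul_one]
  have s2 : ((n₀ : ℝ) - 1) * ((J : ℝ) - ⌊ρR * (J : ℝ)⌋₊) ≤
      (n₀ - 1) * ((1 - ρR) * J + 1) := mul_le_mul_of_nonneg_left (by linarith) (by linarith)
  have s3 : (∑ l ∈ range n₀, (((⌊ρR * (J : ℝ)⌋₊ : ℕ) : ℝ) - ((⌊b l * (J : ℝ)⌋₊ : ℕ) : ℝ))) +
      ((n₀ : ℝ) - 1) * ((J : ℝ) - ⌊ρR * (J : ℝ)⌋₊) + ((J : ℝ) - ⌊P * (J : ℝ)⌋₊) ≤
      num * J + (2 * n₀ + 1) := by
    rw [hnumd]
    linarith
  have s4 := mul_le_mul_of_nonneg_right s3 hl2.le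
  have s5 : (X₀ - ρ) * Real.log 2 * J ≤ (num * J + (2 * n₀ + 1)) * Real.log 2 +
      (2 * n₀ + 1) * Real.log (2 * C + 7) := h3.trans (by linarith)
  have s6 : X₀ - ρ = num + ρ := by rw [hρ]; ring
  rw [s6] at s5
  have s7 : ρ * Real.log 2 * J ≤ (2 * n₀ + 1) * Real.log 2 +
      (2 * n₀ + 1) * Real.log (2 * C + 7) := by linarith
  linarith

end Pool.ORD65
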