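import Pool.Agent.H65.ORD.Ubn
import Pool.Agent.H65.ORD.Nlb
import Pool.Agent.H33.SHF.Zms
import Pool.Agent.H89.TGT.TubS

/-!
# A zoom with a shrunk target, one place

`zms_core`: in a class with the data of a place (labels on balls, exactness of the base behind
closed values, no closed label of the target above its level, the label of the place has few bits)
there is a subclass and a zoom with the shrunk target in which the target is the last coordinate of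
a greedy order, with number at most `R₀` (`ZmS` of helper33).
-/

set_option autoImplicit false

namespace Pool.ORD65

open Finset Real MvPolynomial MeasureTheory
open Pool.Agent.H49.Ent Pool.Agent.H32.Dense Pool.STK Pool.KA Pool.KSAT Pool.K2S Pool.PB Pool.GEN
open Pool.S6C Pool.GRD Pool.GRW Pool.TGT Pool.REX Pool.REX83 Pool.FRX Pool.SHF33 Pool.MIC6
open Pool.OWN17 (root_fix)
open Pool.EXC33 (lnV lnV_y)
open Pool.SUPA (SA FF)
open Pool.STAT.CLO (Inj)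

variable {m n J : ℕ}

/-- **No closed label of the target** over the base with the label of the place and digits of the
direction as record, with precision `PN`. -/
def NoT (S : PCl m) (c : ℕ → Fin m) (n₀ : ℕ) {Λ : ∀ J : ℕ, Fam m J → Type}
    (lab : ∀ (J : ℕ) (F : Fam m J), F.Ω → Λ J F) (PN w w₁ qm : ℝ) : Prop :=
  ∀ S' : PCl m, S'.Ne →
    (∀ (τ : ℝ) (J : ℕ) (F : Fam m J) (A : F.Ω → Prop), S'.St τ J F A → S.St τ J F A) →
  ∀ (K : ℕ) (wp q : ℝ), w < wp → wp < w₁ → 0 < q → q < qm →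
    ¬ Bas S' (fun J F A => ∃ (V : Type) (z : PtT F → Λ J F × (Fin m → ℤ) → V) (z' : LnT F → V)
      (G : V → MvPolynomial (Option (Fin m)) ℝ),
      Lbr F ((range n₀).image c) (c n₀) K ⌊wp * J⌋₊ ⌊PN * J⌋₊
        (fun ω => (lab J F ω, F.D ⌊q * J⌋₊ ω)) A z z' G)

/-- Labels with the record of a function of the line. -/
theorem lrc_lab {S : PCl m} {I : Finset (Fin m)} {k : Fin m} {K : ℕ} {W P q b : ℝ} {b0 : 0 ≤ b}
    {b1 : b < 1} {Λ : ∀ J : ℕ, Fam m J → Type} {lab : ∀ (J : ℕ) (F : Fam m J), F.Ω → Λ J F}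
    {J₁ : ℕ} (hy : ∀ J ≥ J₁, ∀ F : Fam m J, (lnV b b0 b1 Λ lab).y J F = fun ω => some (lab J F ω))
    (h : LrC S I k K W P q (lnV b b0 b1 Λ lab).y) :
    ∃ c₁ : ℝ, Bas S (fun J F A => ∃ B : F.Ω → Prop, Sub B A ∧ Pe F.p A ≤ c₁ * Pe F.p B ∧
      ∃ (V : Type) (z : PtT F → Λ J F × (Fin m → ℤ) → V) (z' : LnT F → V)
        (G : V → MvPolynomial (Option (Fin m)) ℝ),
        Lbr F I k K ⌊W * J⌋₊ ⌊P * J⌋₊ (fun ω => (lab J F ω, F.D ⌊q * J⌋₊ ω)) B z z' G) := by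
  obtain ⟨c₁, hB⟩ := h
  refine ⟨c₁, hB.mono J₁ ?_⟩
  rintro J hJ F A ⟨B, h1, h2, V, z, z', G, hG⟩
  exact ⟨B, h1, h2, V, _, z', G, hG.fine (yd' := fun ω => (lab J F ω, F.D ⌊q * J⌋₊ ω))
    (fun x => (some x.1, x.2)) fun ω _ => by
      show ((lnV b b0 b1 Λ lab).y J F ω, F.D ⌊q * J⌋₊ ω) = (some (lab J F ω), F.D ⌊q * J⌋₊ ω)
      rw [hy J hJ F]
      rfl⟩

/-- **A zoom with a shrunk target, one place.** -/
theorem zms_core {n₀ : ℕ} (hFZ : FZX n₀) {S : PCl m} (hne : S.Ne) {C₀ : ℝ} (hC₀ : 0 ≤ C₀)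
    (htm : TmC S C₀) {c : ℕ → Fin m} (hc : Inj c (n₀ + 1))
    {Λ : ∀ J : ℕ, Fam m J → Type} {lab : ∀ (J : ℕ) (F : Fam m J), F.Ω → Λ J F}
    {wJ : ℕ → ℕ} {w C₁ : ℝ} (hwJ : ∀ J, |(wJ J : ℝ) - w * J| ≤ C₁)
    (hline : ∀ (J : ℕ) (F : Fam m J), wJ J ≤ J → ∀ ω ω', slam F (wJ J) ω = slam F (wJ J) ω' →
      lab J F ω = lab J F ω')
    {ρR bN : ℝ} {b : ℕ → ℝ} (hbl : BlP S c n₀ lab ρR b)
    (hyl : ∀ S' : PCl m,
      (∀ (τ : ℝ) (J : ℕ) (F : Fam m J) (A : F.Ω → Prop), S'.St τ J F A → S.St τ J F A) →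
      ∀ v : Vz m, (∃ J₁ : ℕ, ∀ J ≥ J₁, ∀ (F : Fam m J) (ω ω' : F.Ω),
        v.y J F ω = v.y J F ω' → lab J F ω = lab J F ω') →
      YLg S' v (fun j : Fin (n₀ + 1) => c j) ((univ : Finset (Fin n₀)).image Fin.castSucc)
        (Fin.last n₀) bN ρR)
    {X₀ w₁ qm : ℝ} (hzm : ZmX S c n₀ lab X₀ w w₁ qm)
    {Ns : Finset (Fin m) → ℝ → ℝ → ℝ} (hNs : ActN S Ns) (κ : Fin n₀) {P₀ h₁ P Q : ℝ}
    (hbit : Bas S (fun J F A => CH (Pool.Agent.H49.Ent.cond F.p A True) (lab J F)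
      (fun ω => (F.D ⌊P₀ * J⌋₊ ω, (F.X J ω, F.W ω))) ≤ h₁ * J))
    (hP0 : 0 < P₀) (hPP : P₀ ≤ P) (hPQ : P < Q) (hQm : Q < qm) (hQ2 : Q < (1 - w₁) / 2)
    (hact : h₁ / Real.log 2 < FF (Ns {c κ}) Q - FF (Ns {c κ}) P)
    {PN : ℝ} (hno : NoT S c n₀ lab PN w w₁ qm) (hw0 : 0 ≤ w) (hww : w < w₁) (hw1 : w₁ < 1)
    {sN y R' R₀ : ℝ} (hs0 : 0 ≤ sN) (hbN0 : 0 ≤ bN) (hρ0 : 0 ≤ ρR) (hρ1 : ρR ≤ 1)
    (hb : ∀ l < n₀, b l ≤ ρR) (hρb : ρR ≤ bN + sN) (hbN1 : bN + sN ≤ 1)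
    (hroom : w₁ + Q < bN + sN)
    (hnum : (∑ l ∈ range n₀, (ρR - b l)) + (n₀ - 1) * (1 - ρR) + (1 - (bN + sN)) < X₀)
    (hPN0 : 0 ≤ PN) (hPN : PN < R₀) (hR' : R' + sN ≤ 1) (hy : y ≤ 1) :
    ∃ S' : PCl m, S'.Ne ∧
      (∀ (τ : ℝ) (J : ℕ) (F : Fam m J) (A : F.Ω → Prop), S'.St τ J F A → S.St τ J F A) ∧
      ZmS S' (n₀ + 1) c (n₀ + 1) y R' R₀ lab := by
  classical
  have hpos : ∀ (τ : ℝ) (J : ℕ) (F : Fam m J) (A : F.Ω → Prop), S.St τ J F A → 0 < Pe F.p A := by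
    intro τ J F A h
    by_cases hτ : 0 < τ
    · exact (htm τ J F A hτ h).1
    · exact (htm 1 J F A one_pos (S.mono (by linarith) h)).1
  have hn1 : 1 ≤ n₀ := by have := κ.2; omega
  -- the record
  obtain ⟨b₁, hb₁⟩ : ∃ b₁ : ℝ, b₁ = (w + w₁) / 2 := ⟨_, rfl⟩
  have hb₁w : w < b₁ := by rw [hb₁]; linarith
  have hb₁1 : b₁ < w₁ := by rw [hb₁]; linarith
  have hb₁0 : 0 ≤ b₁ := by linarith
  have hb₁11 : b₁ < 1 := by linarith
  obtain ⟨v, hv⟩ : ∃ v : Vz m, v = lnV b₁ hb₁0 hb₁11 Λ lab := ⟨_, rfl⟩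
  have hvb : v.b = b₁ := by rw [hv]; rfl
  have hyJ : ∃ J₁ : ℕ, ∀ J ≥ J₁, ∀ F : Fam m J,
      (lnV b₁ hb₁0 hb₁11 Λ lab).y J F = fun ω => some (lab J F ω) := by
    obtain ⟨J₁, hJ₁⟩ := big (a := b₁ - w) (by linarith) (C₁ + 1 : ℝ)
    refine ⟨J₁, fun J hJ F => lnV_y fun ω ω' h => ?_⟩
    have j1 := hJ₁ J hJ
    have hJ0 : (0 : ℝ) ≤ J := Nat.cast_nonneg J
    have a2 := abs_le.1 (hwJ J)
    have a3 : b₁ * (J : ℝ) < ⌊b₁ * (J : ℝ)⌋₊ + 1 := Nat.lt_floor_add_one _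
    have h1 : wJ J ≤ ⌊b₁ * (J : ℝ)⌋₊ := by
      have : (wJ J : ℝ) ≤ ⌊b₁ * (J : ℝ)⌋₊ := by linarith
      exact_mod_cast this
    have h2 : ⌊b₁ * (J : ℝ)⌋₊ ≤ J := by
      refine Nat.floor_le_of_le ?_
      have := mul_le_mul_of_nonneg_right hb₁11.le hJ0
      linarith
    exact hline J F (h1.trans h2) ω ω' (Pool.EXC33.slam_of h1 h2 h)
  obtain ⟨J₁, hyJ⟩ := hyJ
  have hvy : ∀ J ≥ J₁, ∀ (F : Fam m J) (ω ω' : F.Ω), v.y J F ω = v.y J F ω' →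
      lab J F ω = lab J F ω' := by
    intro J hJ F ω ω' h
    rw [hv, hyJ J hJ F] at h
    exact Option.some.inj h
  have hbits : Bas S (fun J F A => CH (Pool.Agent.H49.Ent.cond F.p A True) (v.y J F)
      (fun ω => (F.D ⌊P₀ * J⌋₊ ω, (F.X J ω, F.W ω))) ≤ h₁ * J) := by
    have hposB : Bas S (fun _ F A => 0 < Pe F.p A) :=
      ⟨1, one_pos, 0, fun J _ F A hA => hpos 1 J F A hA⟩
    refine Bas.mono J₁ (hbit.and hposB) ?_
    rintro J hJ F A ⟨h4, h5⟩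
    have hq := isLaw_cond F.isLaw h5
    rw [hv, hyJ J hJ F]
    refine (CH_mono_left hq.nonneg fun ω ω' _ _ e => ?_).trans h4
    exact congrArg some (Prod.ext_iff.1 e).1
  -- the zoom
  obtain ⟨s, hs⟩ : ∃ s : Fin m → ℝ, s = fun i => if i = c n₀ then sN else 0 := ⟨_, rfl⟩
  have hsN : s (c n₀) = sN := by rw [hs]; exact if_pos rfl
  have hsl : ∀ l < n₀, s (c l) = 0 := fun l hl => by
    rw [hs]
    exact if_neg fun h => by
      have := hc l (by omega) n₀ (by omega) h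
      omega
  have hs0' : ∀ i, 0 ≤ s i := fun i => by
    rw [hs]
    simp only
    split_ifs
    · exact hs0
    · exact le_rfl
  obtain ⟨ε, hε⟩ : ∃ ε : Fin (n₀ + 1) → Fin m, ε = fun j : Fin (n₀ + 1) => c j := ⟨_, rfl⟩
  have hεj : ∀ j : Fin (n₀ + 1), ε j = c j := fun j => by rw [hε]
  obtain ⟨pp, S₃, LL, hne₃, hsub₃, hz⟩ := rdq_tubS (S := S) hne hpos hNs (ι := Unit)
    (fun _ => n₀ + 1) (fun _ => s) (fun _ => v) (fun _ => ε)
    (fun _ => κ.castSucc) (fun _ => by rw [hεj]; exact (hsl κ κ.2).le)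
    (P₀ := fun _ => P₀) (h := fun _ => h₁) (P := fun _ => P) (Q := fun _ => Q)
    (fun _ => hbits) (fun _ => hP0.le) (fun _ => hPP) (fun _ => hPQ)
    (fun _ => by rw [hvb]; linarith) (fun _ => by rw [hεj]; exact hact)
  obtain ⟨z1, z2, hRD⟩ := hz ()
  obtain ⟨p, hp⟩ : ∃ p, p = pp () := ⟨_, rfl⟩
  obtain ⟨L, hLd⟩ : ∃ L, L = LL () := ⟨_, rfl⟩
  rw [← hp] at z1 z2 hRD
  rw [← hLd] at hRD
  obtain ⟨p0, p1, hL, ⟨Na, al, g₀, hal, hg₀, hM, hB⟩, -⟩ := id hRD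
  have p11 : p < 1 := p1.trans (by norm_num)
  obtain ⟨v', hv'⟩ : ∃ v' : Vz m, v' = atp (vshf v s) p p0.le p11 := ⟨_, rfl⟩
  rw [← hv'] at hL hB
  have hv'b : v'.b = b₁ := by rw [hv']; exact hvb
  have hv'p : v'.p = p := by rw [hv']; rfl
  have hsc : ∀ x, v'.sc x = b₁ + (1 - b₁) * (p + (1 - p) * x) := fun x => by
    rw [← hv'b, ← hv'p]
    rfl
  have hcc0 : 0 < (1 - b₁) * (1 - p) := mul_pos (by linarith) (by linarith)
  have hcc1 : (1 - b₁) * (1 - p) ≤ 1 := mul_le_one₀ (by linarith) (by linarith) (by linarith)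
  rw [hvb] at z1 z2
  have htm₃ : TmC S₃ C₀ := fun τ J F A hτ h => htm τ J F A hτ (hsub₃ τ J F A h)
  have htmR : TmC (RecV (Shf S₃ s) v' ε) (C₀ * (1 / ((1 - v'.b) * (1 - v'.p)))) :=
    fun τ J F A hτ hA => recV_tm hC₀ (shf_tmC htm₃) v' ε τ J F A hτ hA
  have hCR : 0 ≤ C₀ * (1 / ((1 - v'.b) * (1 - v'.p))) := by
    rw [hv'b, hv'p]
    positivity
  have hposR : Bas (RecV (Shf S₃ s) v' ε) (fun _ F A => 0 < Pe F.p A) :=
    ⟨1, one_pos, 0, fun J _ F A hA => (htmR 1 J F A one_pos hA).1⟩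
  have hneR : (RecV (Shf S₃ s) v' ε).Ne := recV_ne (shf_ne hne₃) _ _
  have hκact : ∀ x : ℝ, 0 ≤ x → x < 1 → L ∅ κ.castSucc x x = x := fun x hx0 hx1 =>
    hL.act hneR hal (hM.q hg₀) hB hposR hx0 hx1
  -- the window of the zoom
  obtain ⟨D, hD, hcov⟩ := wv_cover (φ := (Fin.castSucc : Fin n₀ → Fin (n₀ + 1))) (κ := κ) hL hκact
  obtain ⟨D', hD'⟩ : ∃ D' : Set ℝ, D' = D ∪ ⋃ σ : Equiv.Perm (Fin n₀),
    {x | ¬ Vct L (snc (Fin.castSucc ∘ σ) (Fin.last n₀)) x} := ⟨_, rfl⟩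
  have hD'c : D'.Countable := by
    rw [hD']
    exact hD.union (Set.countable_iUnion fun σ => vct_ae hL _)
  obtain ⟨wm, hwm⟩ : ∃ wm, wm = min (min ((w₁ - b₁) / 4) (bN + sN - (w₁ + Q))) 1 := ⟨_, rfl⟩
  have hwm0 : 0 < wm := by
    rw [hwm]
    exact lt_min (lt_min (by linarith) (by linarith)) one_pos
  obtain ⟨wz, hwz0, hwz1, hwzD⟩ : ∃ wz : ℝ, 0 < wz ∧ wz < wm ∧ wz ∉ D' := by
    obtain ⟨x, hx, h1, h2⟩ := (hD'c.dense_compl ℝ).exists_between hwm0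
    exact ⟨x, h1, h2, hx⟩
  have hwz2 : wz < (w₁ - b₁) / 4 := hwz1.trans_le (by
    rw [hwm]
    exact (min_le_left _ _).trans (min_le_left _ _))
  have hwz3 : wz < bN + sN - (w₁ + Q) := hwz1.trans_le (by
    rw [hwm]
    exact (min_le_left _ _).trans (min_le_right _ _))
  have hwz4 : wz < 1 := hwz1.trans_le (by rw [hwm]; exact min_le_right _ _)
  have hwzD1 : wz ∉ D := fun h => hwzD (by rw [hD']; exact Or.inl h)
  obtain ⟨σ, hτw, hσ0⟩ := hcov wz hwz0 hwz4 hwzD1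
  obtain ⟨τ, hτ⟩ : ∃ τ : Fin n₀ → Fin (n₀ + 1), τ = Fin.castSucc ∘ σ := ⟨_, rfl⟩
  rw [← hτ] at hτw
  have hτj : ∀ j, τ j = (σ j).castSucc := fun j => by rw [hτ]; rfl
  have hετ : ∀ j, ε (τ j) = c (σ j) := fun j => by
    rw [hεj, hτj]
    rfl
  have hvct : Vct L (snc τ (Fin.last n₀)) wz := by
    by_contra hcon
    refine hwzD ?_
    rw [hD']
    refine Or.inr (Set.mem_iUnion.2 ⟨σ, ?_⟩)
    rw [← hτ]
    exact hcon
  have hτinj : Function.Injective τ := by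
    rw [hτ]
    exact (Fin.castSucc_injective n₀).comp σ.injective
  have hvexa : VExa (RecV (Shf S₃ s) v' ε) L τ wz := by
    intro ρ hρ
    exact vst_exa hFZ hneR hCR htmR hL hal hg₀ hM hposR hτinj (fun k hk => by
      rw [hτj, hσ0 k hk]
      exact hB) hτw.1 hτw.2.1 hτw.2.2.1 hτw.2.2.2 hρ
  have hwzv : ∀ i, wz ≤ vs L τ wz i := le_vs hL τ hwz4.le
  -- the precision of the label of the target
  obtain ⟨Q₁, hQ₁⟩ : ∃ Q₁, Q₁ = (bN + sN - b₁ - (1 - b₁) * p) / ((1 - b₁) * (1 - p)) := ⟨_, rfl⟩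
  have hQe : (1 - b₁) * (1 - p) * Q₁ = bN + sN - b₁ - (1 - b₁) * p := by
    rw [hQ₁]
    exact mul_div_cancel₀ _ hcc0.ne'
  have hscQ : v'.sc Q₁ = bN + sN := by
    rw [hsc]
    have e1 : b₁ + (1 - b₁) * (p + (1 - p) * Q₁) = b₁ + (1 - b₁) * p + (1 - b₁) * (1 - p) * Q₁ := by
      ring
    rw [e1, hQe]
    ring
  have hsc_lt : ∀ {x y' : ℝ}, v'.sc x < v'.sc y' → x < y' := by
    intro x y' h
    rw [hsc, hsc] at h
    have h2 : (1 - b₁) * (1 - p) * x < (1 - b₁) * (1 - p) * y' := by linarith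
    exact lt_of_mul_lt_mul_left h2 hcc0.le
  have hscz : v'.sc wz < bN + sN := by
    rw [hsc]
    have h2 : (1 - b₁) * (1 - p) * wz ≤ 1 * wz := mul_le_mul_of_nonneg_right hcc1 hwz0.le
    have e1 : b₁ + (1 - b₁) * (p + (1 - p) * wz) = b₁ + (1 - b₁) * p + (1 - b₁) * (1 - p) * wz := by
      ring
    rw [e1]
    linarith
  have hwzQ : wz < Q₁ := hsc_lt (by rw [hscQ]; exact hscz)
  have hQ11 : Q₁ ≤ 1 := by
    rw [hQ₁, div_le_one hcc0]
    have e1 : (1 - b₁) * (1 - p) = 1 - b₁ - (1 - b₁) * p := by ring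
    rw [e1]
    linarith
  -- the window and the digits of the direction of the labels of the zoom
  obtain ⟨W, hW⟩ : ∃ W : ℝ, W = (b₁ + w₁) / 2 := ⟨_, rfl⟩
  have hWw : w < W := by rw [hW]; linarith
  have hWw₁ : W < w₁ := by rw [hW]; linarith
  have hWz : v.b + (1 - v.b) * (1 - p) * wz < W := by
    rw [hvb]
    have h2 : (1 - b₁) * (1 - p) * wz ≤ 1 * wz := mul_le_mul_of_nonneg_right hcc1 hwz0.le
    rw [hW]
    linarith
  have hQ0 : 0 < Q := by linarith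
  have hzq : (1 - v.b) * p < Q := by rw [hvb]; exact z2
  -- a label of the zoom with precision `x` is a label with record
  have hlrc : ∀ (I : Finset (Fin (n₀ + 1))) (k : Fin (n₀ + 1)) (K : ℕ) (e x r P' : ℝ), 0 < e →
      2 * e < x → x ≤ 1 → 0 ≤ r → r ≤ 1 → 0 ≤ P' → P' + s (ε k) + 2 * e < v'.sc x →
      Bas (RecV (Shf S₃ s) v' ε) (fun J F A => Lb F I k K ⌊e * J⌋₊ J ⌊wz * J⌋₊ ⌊r * J⌋₊
        ⌊(x - e) * J⌋₊ A) →
      ∃ c₁ : ℝ, Bas S₃ (fun J F A => ∃ B : F.Ω → Prop, Sub B A ∧ Pe F.p A ≤ c₁ * Pe F.p B ∧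
      ∃ (V : Type) (z : PtT F → Λ J F × (Fin m → ℤ) → V) (z' : LnT F → V)
        (G : V → MvPolynomial (Option (Fin m)) ℝ),
        Lbr F (I.image ε) (ε k) (K + 1) ⌊W * J⌋₊ ⌊P' * J⌋₊
          (fun ω => (lab J F ω, F.D ⌊Q * J⌋₊ ω)) B z z' G) := by
    intro I k K e x r P' he hex hx1 hr0 hr1 hP'0 hP' hlb
    have h1 : Bas (RecV (Shf S₃ s) v' ε) (fun J F A => Lb F I k K ⌊e * J⌋₊ J ⌊wz * J⌋₊ ⌊r * J⌋₊
        ⌊(x - 2 * e) * J⌋₊ A) := by
      refine hlb.mono 0 fun J _ F A h => ?_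
      have hJ0 : (0 : ℝ) ≤ J := Nat.cast_nonneg J
      exact h.mono (Finset.Subset.refl _) le_rfl le_rfl le_rfl le_rfl (fl_le hwz4.le J) le_rfl
        (Nat.floor_le_floor (mul_le_mul_of_nonneg_right (by linarith) hJ0))
    have h2 := lbr_shf (S := S₃) v s hs0' ε (p := p) p0.le p11 (I := I) (k := k) (K := K) (e := e)
      (w := wz) (r := r) (h := x - 2 * e) hwz0.le hwz4.le hr0 hr1 he.le (by linarith)
      (by linarith) (by rw [hv'] at h1; exact h1) (W := W) (P := P') (q := Q) hWz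
      (by linarith) hP'0 (by
        rw [hvb]
        have e1 : v'.sc x = b₁ + (1 - b₁) * (p + (1 - p) * (x - 2 * e)) +
            (1 - b₁) * (1 - p) * (2 * e) := by
          rw [hsc]
          ring
        have h3 : (1 - b₁) * (1 - p) * (2 * e) ≤ 1 * (2 * e) :=
          mul_le_mul_of_nonneg_right hcc1 (by linarith)
        linarith) hzq
    rw [hv] at h2
    exact lrc_lab hyJ h2
  -- the numbers of the base
  have hub : vs L τ wz n₀ < Q₁ := by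
    by_contra hcon
    push Not at hcon
    obtain ⟨dl, hdl⟩ : ∃ dl, dl = (X₀ - ((∑ l ∈ range n₀, (ρR - b l)) + (n₀ - 1) * (1 - ρR) +
      (1 - (bN + sN)))) / 2 := ⟨_, rfl⟩
    have hdl0 : 0 < dl := by rw [hdl]; linarith
    obtain ⟨e, he⟩ : ∃ e, e = min (min (dl / 4) (wz / 4)) ((bN + sN) / 4) := ⟨_, rfl⟩
    have hbs0 : 0 < bN + sN := by linarith
    have he0 : 0 < e := by
      rw [he]
      exact lt_min (lt_min (by linarith) (by linarith)) (by linarith)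
    have he1 : e ≤ dl / 4 := by
      rw [he]
      exact (min_le_left _ _).trans (min_le_left _ _)
    have he2 : e ≤ wz / 4 := by
      rw [he]
      exact (min_le_left _ _).trans (min_le_right _ _)
    have he3 : e ≤ (bN + sN) / 4 := by
      rw [he]
      exact min_le_right _ _
    obtain ⟨jl, hjl⟩ : ∃ jl : Fin n₀, (jl : ℕ) + 1 = n₀ := ⟨⟨n₀ - 1, by omega⟩, by
      show n₀ - 1 + 1 = n₀
      omega⟩
    obtain ⟨K, hK⟩ := vst_att hL hτw.1 hτw.2.1 hτw.2.2.1 hτw.2.2.2 he0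
    have h1 := hK jl jl le_rfl
    rw [hjl] at h1
    obtain ⟨P', hP'⟩ : ∃ P', P' = max 0 (bN + sN - dl) := ⟨_, rfl⟩
    have hvn : vs L τ wz n₀ ≤ 1 := vs_le1 hL τ hwz4.le _
    have hscn : bN + sN ≤ v'.sc (vs L τ wz n₀) := by
      rw [← hscQ]
      rw [hsc, hsc]
      have h2 : (1 - b₁) * (1 - p) * Q₁ ≤ (1 - b₁) * (1 - p) * vs L τ wz n₀ :=
        mul_le_mul_of_nonneg_left hcon hcc0.le
      linarith
    obtain ⟨c₁, hB₁⟩ := hlrc ((Finset.Iio jl).image τ) (τ jl) K e (vs L τ wz n₀)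
      (min (vs L τ wz jl + e) 1) P' he0 (by linarith [hwzv n₀]) hvn
      (le_min (by linarith [hwzv jl]) zero_le_one) (min_le_right _ _)
      (by rw [hP']; exact le_max_left _ _) (by
        rw [hετ, hsl _ (σ jl).2, hP', add_zero]
        rcases le_total 0 (bN + sN - dl) with h2 | h2
        · rw [max_eq_right h2]
          linarith
        · rw [max_eq_left h2]
          linarith) h1
    rw [hετ] at hB₁
    refine ub_none hne₃ (fun τ' J F A h => hpos τ' J F A (hsub₃ τ' J F A h)) (hbl.sub hsub₃) hρ0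
      hρ1 hb (X₀ := X₀) (w := w) (w₁ := w₁) (qm := qm) (fun S' h1' h2' => hzm S' h1'
        fun τ' J F A h => hsub₃ τ' J F A (h2' τ' J F A h)) (σ jl).2
      (I := ((Finset.Iio jl).image τ).image ε) (fun i hi => ?_) hWw hWw₁ hQ0 hQm
      (by rw [hP']; exact le_max_left _ _) (by
        rw [hP']
        exact max_le zero_le_one (by linarith)) hB₁ (by
        have h3 : bN + sN - dl ≤ P' := by rw [hP']; exact le_max_right _ _
        linarith)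
    obtain ⟨i', hi', rfl⟩ := Finset.mem_image.1 hi
    obtain ⟨a, ha, rfl⟩ := Finset.mem_image.1 hi'
    refine ⟨σ a, (σ a).2, fun h => ?_, (hετ a).symm⟩
    have h2 : σ a = σ jl := Fin.ext h
    have h3 : a = jl := σ.injective h2
    rw [h3] at ha
    exact absurd (Finset.mem_Iio.1 ha) (lt_irrefl _)
  -- the target is behind the base
  have hylb : YLb (Shf S₃ s) (atp (vshf v s) p p0.le p11) ε
      ((univ : Finset (Fin n₀)).image Fin.castSucc) (Fin.last n₀) (bN + s (ε (Fin.last n₀))) := by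
    refine ylb_shf (ρ := ρR) ?_ hbN0 (hs0' _) (fun i hi => ?_) ?_ p0.le p11
    · rw [hε]
      exact hyl S₃ hsub₃ v ⟨J₁, hvy⟩
    · obtain ⟨a, -, rfl⟩ := Finset.mem_image.1 hi
      rw [hεj]
      exact (hsl a a.2).le
    · rw [hεj]
      show ρR ≤ bN + s (c n₀)
      rw [hsN]
      exact hρb
  have hεN : ε (Fin.last n₀) = c n₀ := by rw [hεj]; rfl
  rw [hεN, hsN, ← hv', ← hscQ] at hylb
  have hlbc := YLb.lbc hC₀ (shf_tmC htm₃) hylb hwz0 hwz4 hwzQ.le hQ11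
  have himg : (univ : Finset (Fin n₀)).image τ = (univ : Finset (Fin n₀)).image Fin.castSucc := by
    rw [hτ]
    ext x
    simp only [mem_image, mem_univ, true_and, Function.comp_apply]
    constructor
    · rintro ⟨a, rfl⟩
      exact ⟨σ a, rfl⟩
    · rintro ⟨a, rfl⟩
      exact ⟨σ.symm a, by rw [Equiv.apply_symm_apply]⟩
  rw [← himg] at hlbc
  have hWv := ord_last hneR hCR htmR hL hτw hvexa (hub.trans_le hQ11) hvct hub.le hlbc
  -- the number of the target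
  have hnumN : v'.sc (vs L (snc τ (Fin.last n₀)) wz (n₀ + 1)) ≤ R₀ + sN := by
    by_contra hcon
    push Not at hcon
    obtain ⟨x, hx⟩ : ∃ x, x = vs L (snc τ (Fin.last n₀)) wz (n₀ + 1) := ⟨_, rfl⟩
    rw [← hx] at hcon
    have hxz : wz ≤ x := by
      rw [hx]
      exact le_vs hL _ hwz4.le _
    have hx1 : x ≤ 1 := by
      rw [hx]
      exact vs_le1 hL _ hwz4.le _
    obtain ⟨e, he⟩ : ∃ e, e = min (wz / 4) ((R₀ - PN) / 4) := ⟨_, rfl⟩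
    have he0 : 0 < e := by
      rw [he]
      exact lt_min (by linarith) (by linarith)
    have he1 : e ≤ wz / 4 := by rw [he]; exact min_le_left _ _
    have he2 : e ≤ (R₀ - PN) / 4 := by rw [he]; exact min_le_right _ _
    obtain ⟨K, hK⟩ := vst_att hL hWv.1 hWv.2.1 hWv.2.2.1 hWv.2.2.2 he0
    have h1 := hK (Fin.last n₀) (Fin.last n₀) le_rfl
    rw [snc_img_last τ (Fin.last n₀) (j := Fin.last n₀) rfl,
      snc_last τ (Fin.last n₀) (i := Fin.last n₀) rfl] at h1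
    have e0 : ((Fin.last n₀ : Fin (n₀ + 1)) : ℕ) + 1 = n₀ + 1 := rfl
    rw [e0, ← hx] at h1
    obtain ⟨c₁, hB₁⟩ := hlrc ((univ : Finset (Fin n₀)).image τ) (Fin.last n₀) K e x
      (min (vs L (snc τ (Fin.last n₀)) wz ((Fin.last n₀ : Fin (n₀ + 1)) : ℕ) + e) 1) PN he0
      (by linarith) hx1 (le_min (by
        have := le_vs hL (snc τ (Fin.last n₀)) hwz4.le ((Fin.last n₀ : Fin (n₀ + 1)) : ℕ)
        linarith) zero_le_one) (min_le_right _ _) hPN0 (by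
        rw [hεN, hsN]
        linarith) h1
    obtain ⟨S₄, dN, hne₄, hsub₄, hN₄⟩ := root_fix (Δ := fun J F => NDat F (Λ J F × (Fin m → ℤ)))
      hne₃ (fun J F d A => Lbr F (((univ : Finset (Fin n₀)).image τ).image ε) (ε (Fin.last n₀))
        (K + 1) ⌊W * J⌋₊ ⌊PN * J⌋₊ (fun ω => (lab J F ω, F.D ⌊Q * J⌋₊ ω)) A d.z d.z' d.G)
      (fun J F d A B h hB => h.sub hB) (C := c₁)
      (Bas.mono 0 hB₁ fun J _ F A ⟨B, h1, h2, V, z, z', G, h⟩ => ⟨⟨V, z, z', G⟩, B, h1, h2, h⟩)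
    have himg2 : ((univ : Finset (Fin n₀)).image τ).image ε = (range n₀).image c := by
      ext i
      simp only [mem_image, mem_univ, true_and, mem_range]
      constructor
      · rintro ⟨j, ⟨a, rfl⟩, rfl⟩
        exact ⟨σ a, (σ a).2, (hετ a).symm⟩
      · rintro ⟨l, hl, rfl⟩
        refine ⟨τ (σ.symm ⟨l, hl⟩), ⟨_, rfl⟩, ?_⟩
        rw [hετ, Equiv.apply_symm_apply]
    rw [himg2, hεN] at hN₄
    refine hno S₄ hne₄ (fun τ' J F A h => hsub₃ τ' J F A (hsub₄ τ' J F A h)) (K + 1) W Q hWw hWw₁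
      hQ0 hQm ⟨1, one_pos, 0, fun J _ F A hA => ?_⟩
    exact ⟨(dN J F).V, (dN J F).z, (dN J F).z', (dN J F).G, hN₄ 1 J F A hA⟩
  refine ⟨S₃, hne₃, hsub₃, s, v, ε, p, κ.castSucc, L, wz, snc τ (Fin.last n₀), Fin.last n₀, hRD,
    snc_inj hτinj (fun j => by
      rw [hτj]
      exact (Fin.castSucc_lt_last _).ne), hWv, fun j hj => ?_, rfl, ?_, fun l hl => ?_, ?_, ?_,
    fun j hj => ?_, ?_, J₁, hvy⟩
  · rw [snc_lt τ _ (i := j) (by omega), hτj, hσ0 ⟨j, by omega⟩ hj]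
  · rw [snc_last τ _ (i := Fin.last n₀) rfl, hεN]
    rfl
  · have hl' : l < n₀ := by omega
    refine ⟨(σ.symm ⟨l, hl'⟩).castSucc, (Fin.castSucc_lt_last _).ne, ?_⟩
    rw [snc_lt τ _ (i := (σ.symm ⟨l, hl'⟩).castSucc) (σ.symm ⟨l, hl'⟩).2]
    show ε (τ (σ.symm ⟨l, hl'⟩)) = c l
    rw [hετ, Equiv.apply_symm_apply]
  · show 0 ≤ s (c n₀)
    rw [hsN]
    exact hs0
  · show R' + s (c n₀) ≤ 1
    rw [hsN]
    exact hR'
  · have hjn : (j : ℕ) < n₀ := by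
      have h1 := j.2
      have h2 : (j : ℕ) ≠ n₀ := fun h => hj (Fin.ext h)
      omega
    rw [snc_lt τ _ (i := j) hjn, hετ, hsl _ (σ _).2, add_zero]
    exact max_le hy zero_le_one
  · show v.b + (1 - v.b) * (p + (1 - p) * vs L (snc τ (Fin.last n₀)) wz (n₀ + 1)) ≤
      R₀ + s (c n₀)
    rw [hsN, hvb, ← hsc]
    exact hnumN

end Pool.ORD65
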